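import Pool.Agent.H21.GH.Strata

/-!
# The complements of the graph hypersurfaces
-/

set_option autoImplicit false
set_option linter.all false

open Matrix MvPolynomial Pool.Agent.Y116.UV Pool.Agent.Z125.UN
open scoped Classical

namespace Pool.Agent.H21.GH

variable {n : ℕ}

/-- The weight of the pair `v, w`: the variable of the edge, or zero. -/
noncomputable def wt {A : Type} [CommRing A] (G : SimpleGraph (Fin n)) (y : G.edgeSet → A)
    (v w : Fin n) : A :=
  if h : G.Adj v w then y ⟨s(v, w), h⟩ else 0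

/-- The reduced Laplacian of the cone over the graph `G` (the graph with one more vertex, which is
joined to all vertices of `G`; the row and the column of the new vertex are deleted), with the
weights `x v` of the new edges and `y e` of the edges of `G`. -/
noncomputable def lap {A : Type} [CommRing A] (G : SimpleGraph (Fin n)) (x : Fin n → A)
    (y : G.edgeSet → A) : Matrix (Fin n) (Fin n) A :=
  Matrix.diagonal (fun v => x v + ∑ w, wt G y v w) - Matrix.of (wt G y)

/-- The Kirchhoff polynomial of the cone over the graph `G`. -/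
noncomputable def kir (R : Type) [CommRing R] (G : SimpleGraph (Fin n)) :
    MvPolynomial (Fin n ⊕ G.edgeSet) R :=
  (lap G (fun v => X (Sum.inl v)) fun e => X (Sum.inr e)).det

/-- The graph hypersurface of the cone over the graph `G`. -/
noncomputable def kirS (R : Type) [CommRing R] (G : SimpleGraph (Fin n)) : Sch R :=
  aff R (MvPolynomial (Fin n ⊕ G.edgeSet) R ⧸ Ideal.span {kir R G})

lemma wt_map {A B : Type} [CommRing A] [CommRing B] (G : SimpleGraph (Fin n)) (y : G.edgeSet → A)
    (g : A →+* B) (v w : Fin n) : wt G (fun e => g (y e)) v w = g (wt G y v w) := by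
  unfold wt
  split_ifs
  · rfl
  · exact (map_zero g).symm

lemma wt_symm {A : Type} [CommRing A] (G : SimpleGraph (Fin n)) (y : G.edgeSet → A)
    (v w : Fin n) : wt G y v w = wt G y w v := by
  unfold wt
  by_cases h : G.Adj v w
  · rw [dif_pos h, dif_pos h.symm]
    congr 1
    exact Subtype.ext Sym2.eq_swap
  · rw [dif_neg h, dif_neg fun h' => h h'.symm]

lemma wt_self {A : Type} [CommRing A] (G : SimpleGraph (Fin n)) (y : G.edgeSet → A)
    (v : Fin n) : wt G y v v = 0 := dif_neg (G.irrefl)

lemma lap_map {A B : Type} [CommRing A] [CommRing B] (G : SimpleGraph (Fin n)) (x : Fin n → A)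
    (y : G.edgeSet → A) (g : A →+* B) :
    lap G (fun v => g (x v)) (fun e => g (y e)) = (lap G x y).map g := by
  ext v w
  rw [lap, lap, Matrix.map_apply, Matrix.sub_apply, Matrix.sub_apply, Matrix.of_apply,
    Matrix.of_apply, wt_map, map_sub, Matrix.diagonal_apply, Matrix.diagonal_apply]
  congr 1
  split_ifs
  · rw [map_add, map_sum]
    simp only [wt_map]
  · exact (map_zero g).symm

lemma lap_symm {A : Type} [CommRing A] (G : SimpleGraph (Fin n)) (x : Fin n → A)
    (y : G.edgeSet → A) : (lap G x y)ᵀ = lap G x y := by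
  rw [lap, transpose_sub, Matrix.diagonal_transpose]
  congr 1
  ext v w
  exact wt_symm G y w v

lemma lap_ne {A : Type} [CommRing A] (G : SimpleGraph (Fin n)) (x : Fin n → A)
    (y : G.edgeSet → A) {v w : Fin n} (h : v ≠ w) : lap G x y v w = - wt G y v w := by
  rw [lap, Matrix.sub_apply, Matrix.diagonal_apply_ne _ h, zero_sub]
  rfl

lemma lap_sum {A : Type} [CommRing A] (G : SimpleGraph (Fin n)) (x : Fin n → A)
    (y : G.edgeSet → A) (v : Fin n) : ∑ w, lap G x y v w = x v := by
  simp only [lap, Matrix.sub_apply, Matrix.of_apply, Finset.sum_sub_distrib]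
  rw [Finset.sum_eq_single v]
  · rw [Matrix.diagonal_apply_eq, add_sub_cancel_right]
  · intro b _ hb
    exact Matrix.diagonal_apply_ne _ (Ne.symm hb)
  · intro h
    exact absurd (Finset.mem_univ _) h

variable {R : Type} [CommRing R]

/-- All families of elements. -/
abbrev vec (R : Type) [CommRing R] (α : Type) : Fn R where
  pt T _ _ := α → T
  mp g v := fun a => g (v a)
  mp_id _ := rfl
  mp_comp _ _ _ := rfl

noncomputable def repVec (R : Type) [CommRing R] (α : Type) : Rep (vec R α) (MvPolynomial α R) where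
  u := X
  ex T _ _ x := ⟨aeval x, funext fun a => aeval_X x a⟩
  un T _ _ g h hgh := MvPolynomial.algHom_ext fun a => congrFun hgh a

/-- the value of the Kirchhoff polynomial -/
noncomputable def kirF (R : Type) [CommRing R] (G : SimpleGraph (Fin n)) :
    Fun (vec R (Fin n ⊕ G.edgeSet)) where
  f T _ _ x := (lap G (fun v => x (Sum.inl v)) fun e => x (Sum.inr e)).det
  nat g x := by
    change (lap G (fun v => g.toRingHom (x (Sum.inl v))) fun e => g.toRingHom (x (Sum.inr e))).det =
      g.toRingHom _
    rw [lap_map, RingHom.map_det]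
    rfl

/-- the edge variables of a matrix -/
noncomputable def edg {T : Type} [CommRing T] (G : SimpleGraph (Fin n)) {W : Matrix (Fin n) (Fin n) T}
    (hW : ∀ a b, W a b = W b a) (e : G.edgeSet) : T :=
  Sym2.lift ⟨fun v w => - W v w, fun v w => congrArg Neg.neg (hW v w)⟩ e.1

lemma wt_edg {T : Type} [CommRing T] (G : SimpleGraph (Fin n)) {W : Matrix (Fin n) (Fin n) T}
    (hW : ∀ a b, W a b = W b a) (hG : ∀ a b, a ≠ b → ¬ G.Adj a b → W a b = 0) {v w : Fin n}
    (h : v ≠ w) : wt G (edg G hW) v w = - W v w := by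
  unfold wt
  split_ifs with h'
  · rfl
  · rw [hG v w h h', neg_zero]

lemma lap_edg {T : Type} [CommRing T] (G : SimpleGraph (Fin n)) {W : Matrix (Fin n) (Fin n) T}
    (hW : ∀ a b, W a b = W b a) (hG : ∀ a b, a ≠ b → ¬ G.Adj a b → W a b = 0) :
    lap G (fun v => ∑ w, W v w) (edg G hW) = W := by
  ext v w
  by_cases h : v = w
  · subst h
    rw [lap, Matrix.sub_apply, Matrix.diagonal_apply_eq, Matrix.of_apply, wt_self, sub_zero,
      ← Finset.sum_add_distrib, Finset.sum_eq_single v]
    · rw [wt_self, add_zero]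
    · intro b _ hb
      rw [wt_edg G hW hG (Ne.symm hb), add_neg_cancel]
    · intro h
      exact absurd (Finset.mem_univ _) h
  · rw [lap_ne G _ _ h, wt_edg G hW hG h, neg_neg]

lemma ind_univ {V T : Type} [Fintype V] [CommRing T] [d : DecidableEq V] :
    ind T (Finset.univ : Finset V) = 1 := by
  ext a b
  rw [Matrix.one_apply]
  simp only [ind, Matrix.diagonal, Matrix.of_apply]
  by_cases h : a = b
  · rw [if_pos h, if_pos h, if_pos (Finset.mem_univ a)]
  · rw [if_neg h, if_neg h]

/-- The symmetric matrices with a pattern are the Laplacians. -/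
noncomputable def kirIso (G : SimpleGraph (Fin n)) :
    Iso (inv (vec R (Fin n ⊕ G.edgeSet)) (kirF R G))
      (FW R G.Adj (Finset.univ : Finset (Fin n)) fun _ _ => False) where
  fwd T _ _ x :=
    { W := lap G (fun v => x.1 (Sum.inl v)) fun e => x.1 (Sum.inr e)
      M := (lap G (fun v => x.1 (Sum.inl v)) fun e => x.1 (Sum.inr e))⁻¹
      sym := lap_symm _ _ _
      pat := fun a b hab h => by
        rw [lap_ne G _ _ hab, wt, dif_neg h, neg_zero]
      supW := by rw [ind_univ, Matrix.one_mul]
      supM := by rw [ind_univ, Matrix.one_mul]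
      mul := by rw [ind_univ, Matrix.mul_nonsing_inv _ x.2]
      zer := fun a b h => h.elim }
  bwd T _ _ x := ⟨Sum.elim (fun v => ∑ w, x.W v w) (edg G x.W_symm), by
    change IsUnit (lap G (fun v => ∑ w, x.W v w) (edg G x.W_symm)).det
    rw [lap_edg G _ fun a b h h' => x.pat a b h h']
    have h1 := x.mul
    rw [ind_univ] at h1
    exact (Matrix.isUnit_iff_isUnit_det _).1 (IsUnit.of_mul_eq_one _ h1)⟩
  bf T _ _ x := by
    apply Subtype.ext
    funext s
    rcases s with v | ⟨e, he⟩
    · exact lap_sum _ _ _ _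
    · induction e using Sym2.ind with
      | _ v w =>
        have hvw : G.Adj v w := he
        change - lap G (fun v => x.1 (Sum.inl v)) (fun e => x.1 (Sum.inr e)) v w = _
        rw [lap_ne G _ _ hvw.ne, neg_neg, wt, dif_pos hvw]
  fb T _ _ x := PtW.ext (lap_edg G x.W_symm fun a b h h' => x.pat a b h h')
  nat g x := PtW.ext (lap_map G _ _ g.toRingHom)

/-! ### Change of the set -/

section cut

variable {Ω Q : Type} [Fintype Ω] [Fintype Q] [DecidableEq Q] {ι : Q → Ω} {U : Finset Ω}
  {Γ : Ω → Ω → Prop}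

lemma ind_cut (h : Cut U ∅ ι) (T : Type) [CommRing T] : ind T U = inc T ι * (inc T ι)ᵀ := by
  rw [ind_split h]
  have h0 : ind T (∅ : Finset Ω) = 0 := by
    ext a b
    rw [ind, Matrix.diagonal_apply]
    simp
  rw [h0, zero_add]

lemma inc_map {T T' : Type} [CommRing T] [CommRing T'] (g : T →+* T') :
    (inc T ι).map g = inc T' ι := by
  ext a q
  rw [Matrix.map_apply, inc, inc, Matrix.of_apply, Matrix.of_apply]
  split_ifs
  · exact map_one g
  · exact map_zero g

noncomputable def cutIso (h : Cut U ∅ ι) :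
    Iso (FW R Γ U fun _ _ => False)
      (FW R (fun p q => Γ (ι p) (ι q)) (Finset.univ : Finset Q) fun _ _ => False) where
  fwd T _ _ x :=
    { W := (inc T ι)ᵀ * x.W * inc T ι
      M := (inc T ι)ᵀ * x.M * inc T ι
      sym := by
        simp only [transpose_mul, transpose_transpose, x.sym, Matrix.mul_assoc]
      pat := fun p q hpq hΓ => by
        rw [mul_inc, incT_mul]
        exact x.pat _ _ (fun h' => hpq (h.inj h')) hΓ
      supW := by rw [ind_univ, Matrix.one_mul]
      supM := by rw [ind_univ, Matrix.one_mul]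
      mul := by
        rw [ind_univ, Matrix.mul_assoc, ← Matrix.mul_assoc (inc T ι), ← Matrix.mul_assoc (inc T ι),
          ← ind_cut h, x.supM, Matrix.mul_assoc, ← Matrix.mul_assoc x.W, x.mul, ind_inc h,
          incT_inc h]
      zer := fun a b h => h.elim }
  bwd T _ _ y :=
    { W := inc T ι * y.W * (inc T ι)ᵀ
      M := inc T ι * y.M * (inc T ι)ᵀ
      sym := by
        simp only [transpose_mul, transpose_transpose, y.sym, Matrix.mul_assoc]
      pat := fun a b hab hΓ => by
        rcases h.cases a with ha | ⟨p, rfl⟩ | ha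
        · exact absurd ha (Finset.notMem_empty _)
        · rcases h.cases b with hb | ⟨q, rfl⟩ | hb
          · exact absurd hb (Finset.notMem_empty _)
          · rw [mul_incT_self h, inc_mul_self h]
            exact y.pat p q (fun h' => hab (congrArg ι h')) hΓ
          · exact mul_incT_out h _ _ (Or.inl hb)
        · rw [Matrix.mul_assoc]
          exact inc_mul_out h _ _ (Or.inl ha)
      supW := by
        rw [← Matrix.mul_assoc, ← Matrix.mul_assoc, ind_inc h]
      supM := by
        rw [← Matrix.mul_assoc, ← Matrix.mul_assoc, ind_inc h]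
      mul := by
        have h1 := y.mul
        rw [ind_univ] at h1
        rw [Matrix.mul_assoc, ← Matrix.mul_assoc _ (inc T ι * y.M),
          ← Matrix.mul_assoc _ (inc T ι), incT_inc h, Matrix.one_mul, ← Matrix.mul_assoc,
          Matrix.mul_assoc (inc T ι), h1, Matrix.mul_one, ind_cut h]
      zer := fun a b h => h.elim }
  bf T _ _ x := PtW.ext (by
    change inc T ι * ((inc T ι)ᵀ * x.W * inc T ι) * (inc T ι)ᵀ = x.W
    rw [Matrix.mul_assoc, Matrix.mul_assoc, ← ind_cut h, Matrix.mul_assoc, x.W_ind,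
      ← Matrix.mul_assoc, ← ind_cut h, x.supW])
  fb T _ _ y := PtW.ext (by
    change (inc T ι)ᵀ * (inc T ι * y.W * (inc T ι)ᵀ) * inc T ι = y.W
    rw [Matrix.mul_assoc, Matrix.mul_assoc, Matrix.mul_assoc, incT_inc h, Matrix.mul_one,
      ← Matrix.mul_assoc, incT_inc h, Matrix.one_mul])
  nat {T T'} _ _ _ _ g x := PtW.ext (by
    change (inc T' ι)ᵀ * (x.W.map g.toRingHom) * inc T' ι =
      ((inc T ι)ᵀ * x.W * inc T ι).map g.toRingHom
    rw [Matrix.map_mul, Matrix.map_mul, Matrix.transpose_map, inc_map])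

end cut

variable {sep : Prop} {P : Sch R → Prop}

def vecIso (α : Type) : Iso (prd (one R) (lin R α fun _ => True)) (vec R α) where
  fwd T _ _ x := x.2.1
  bwd T _ _ x := ((), ⟨x, fun _ h => absurd trivial h⟩)
  bf T _ _ x := rfl
  fb T _ _ x := rfl
  nat g x := rfl

lemma isAff_vec (α : Type) [Finite α] : IsAff (vec R α) :=
  (aff_lin isAff_one α fun _ => True).iso (vecIso α)

lemma hold_kirS (hP : Uni sep P) (G : SimpleGraph (Fin n)) (h : P (kirS R G)) :
    Hold P (van (vec R (Fin n ⊕ G.edgeSet)) fun _ : Unit => kirF R G) := by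
  refine hold_of_rep hP ((repVec R (Fin n ⊕ G.edgeSet)).van fun _ : Unit => kirF R G) ?_
  have e : (MvPolynomial (Fin n ⊕ G.edgeSet) R ⧸ Ideal.span {kir R G}) ≃ₐ[R]
      (MvPolynomial (Fin n ⊕ G.edgeSet) R ⧸ Ideal.span (Set.range fun _ : Unit => kir R G)) :=
    Ideal.quotientEquivAlgOfEq R (span_unit _ _).symm
  exact iso_alg hP e h

/-- the point -/
noncomputable def ptIso : Iso (van (vec R (Fin 1 ⊕ (⊥ : SimpleGraph (Fin 1)).edgeSet))
    fun _ : Unit => kirF R (⊥ : SimpleGraph (Fin 1))) (one R) where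
  fwd T _ _ x := ()
  bwd T _ _ x := ⟨fun _ => 0, fun _ => by
    change (lap (⊥ : SimpleGraph (Fin 1)) (fun v => (0 : T)) fun e => (0 : T)).det = 0
    rw [Matrix.det_fin_one, lap, Matrix.sub_apply, Matrix.diagonal_apply_eq, Matrix.of_apply]
    simp [wt]⟩
  bf T _ _ x := by
    apply Subtype.ext
    funext s
    have h1 := x.2 ()
    change (lap (⊥ : SimpleGraph (Fin 1)) (fun v => x.1 (Sum.inl v))
      fun e => x.1 (Sum.inr e)).det = 0 at h1
    rw [Matrix.det_fin_one, lap, Matrix.sub_apply, Matrix.diagonal_apply_eq, Matrix.of_apply] at h1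
    rcases s with v | ⟨e, he⟩
    · have h2 : v = 0 := Subsingleton.elim _ _
      subst h2
      simpa [wt] using h1.symm
    · simp at he
  fb T _ _ x := rfl
  nat g x := rfl

theorem hold_base (hP : Bnd sep P) (hH : ∀ (n : ℕ) (G : SimpleGraph (Fin n)), P (kirS R G))
    {Ω : Type} [Fintype Ω] {Γ : Ω → Ω → Prop} (hΓ : ∀ a b, Γ a b → Γ b a) (U : Finset Ω) :
    Hold P (FW R Γ U fun _ _ => False) := by
  have hone : Hold P (one R) := (hold_kirS hP.toUni _ (hH 1 ⊥)).iso ptIso
  let e := Fintype.equivFin {a // a ∈ U}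
  let ι : Fin (Fintype.card {a // a ∈ U}) → Ω := fun q => (e.symm q).1
  have hc : Cut U ∅ ι :=
    { inj := Subtype.val_injective.comp e.symm.injective
      mem := fun q => (e.symm q).2
      iff := fun a => by
        refine ⟨fun h => absurd h (Finset.notMem_empty _), fun h => ?_⟩
        refine absurd ?_ (h.2 (e ⟨a, h.1⟩))
        simp [ι] }
  let G : SimpleGraph (Fin (Fintype.card {a // a ∈ U})) :=
    { Adj := fun p q => p ≠ q ∧ Γ (ι p) (ι q)
      symm := ⟨fun p q h => ⟨h.1.symm, hΓ _ _ h.2⟩⟩
      loopless := ⟨fun p h => h.1 rfl⟩ }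
  have h1 : Hold P (inv (vec R (Fin _ ⊕ G.edgeSet)) (kirF R G)) := by
    refine hold_inv hP.toUni (isAff_vec _) _ ?_ (hold_kirS hP.toUni G (hH _ G))
    exact (hold_lin hP isAff_one hone _ _).iso (vecIso _)
  have h2 := h1.iso (kirIso G)
  have e2 : Iso (FW R G.Adj (Finset.univ : Finset (Fin (Fintype.card {a // a ∈ U})))
      fun _ _ => False) (FW R (fun p q => Γ (ι p) (ι q)) Finset.univ fun _ _ => False) :=
    { fwd := fun T _ _ x =>
        { x with pat := fun a b hab h => x.pat a b hab fun h' => h h'.2 }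
      bwd := fun T _ _ x =>
        { x with pat := fun a b hab h => x.pat a b hab fun h' => h ⟨hab, h'⟩ }
      bf := fun T _ _ x => rfl
      fb := fun T _ _ x => rfl
      nat := fun g x => rfl }
  exact (h2.iso e2).iso (cutIso hc).symm

end Pool.Agent.H21.GH
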