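import Pool.Graph.R_seed8.Z125.UN.Bnd
import Pool.Graph.R_seed8.Q282.UK.Bil

/-!
# Functors of points and properties of schemes that are closed under closed-open decompositions
-/

set_option autoImplicit false

open CategoryTheory AlgebraicGeometry MvPolynomial Pool.Agent.Y116.UV Pool.Agent.Z125.UN
  Pool.Agent.Q282.UK

namespace Pool.Agent.H21.GH

variable {R : Type} [CommRing R]

/-- A functor from the commutative `R`-algebras to the sets. -/
structure Fn (R : Type) [CommRing R] where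
  pt : (T : Type) → [CommRing T] → [Algebra R T] → Type
  mp : ∀ {T T' : Type} [CommRing T] [Algebra R T] [CommRing T'] [Algebra R T'],
    (T →ₐ[R] T') → pt T → pt T'
  mp_id : ∀ {T : Type} [CommRing T] [Algebra R T] (x : pt T), mp (AlgHom.id R T) x = x
  mp_comp : ∀ {T T' T'' : Type} [CommRing T] [Algebra R T] [CommRing T'] [Algebra R T']
    [CommRing T''] [Algebra R T''] (g : T →ₐ[R] T') (h : T' →ₐ[R] T'') (x : pt T),
    mp (h.comp g) x = mp h (mp g x)

/-- The functor `F` is represented by the algebra `B`. -/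
structure Rep (F : Fn R) (B : Type) [CommRing B] [Algebra R B] where
  u : F.pt B
  ex : ∀ (T : Type) [CommRing T] [Algebra R T] (x : F.pt T), ∃ g : B →ₐ[R] T, F.mp g u = x
  un : ∀ (T : Type) [CommRing T] [Algebra R T] (g h : B →ₐ[R] T), F.mp g u = F.mp h u → g = h

/-- The functor is represented by an algebra of finite type. -/
def IsAff (F : Fn R) : Prop :=
  ∃ (B : Type) (_ : CommRing B) (_ : Algebra R B) (_ : Algebra.FiniteType R B), Nonempty (Rep F B)

/-- The property `P` holds for the affine scheme which represents the functor `F`. -/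
def Hold (P : Sch R → Prop) (F : Fn R) : Prop :=
  ∀ (B : Type) [CommRing B] [Algebra R B] [Algebra.FiniteType R B], Rep F B → P (aff R B)

/-- An isomorphism of functors. -/
structure Iso (F F' : Fn R) where
  fwd : ∀ (T : Type) [CommRing T] [Algebra R T], F.pt T → F'.pt T
  bwd : ∀ (T : Type) [CommRing T] [Algebra R T], F'.pt T → F.pt T
  bf : ∀ (T : Type) [CommRing T] [Algebra R T] (x : F.pt T), bwd T (fwd T x) = x
  fb : ∀ (T : Type) [CommRing T] [Algebra R T] (y : F'.pt T), fwd T (bwd T y) = y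
  nat : ∀ {T T' : Type} [CommRing T] [Algebra R T] [CommRing T'] [Algebra R T']
    (g : T →ₐ[R] T') (x : F.pt T), fwd T' (F.mp g x) = F'.mp g (fwd T x)

/-- A regular function on a functor. -/
structure Fun (F : Fn R) where
  f : ∀ (T : Type) [CommRing T] [Algebra R T], F.pt T → T
  nat : ∀ {T T' : Type} [CommRing T] [Algebra R T] [CommRing T'] [Algebra R T']
    (g : T →ₐ[R] T') (x : F.pt T), f T' (F.mp g x) = g (f T x)

variable {F F' F'' : Fn R}

def Iso.symm (e : Iso F F') : Iso F' F where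
  fwd := e.bwd
  bwd := e.fwd
  bf := e.fb
  fb := e.bf
  nat g x := by
    have h := e.nat g (e.bwd _ x)
    rw [e.fb] at h
    rw [← h, e.bf]

def Iso.trans (e : Iso F F') (e' : Iso F' F'') : Iso F F'' where
  fwd T _ _ x := e'.fwd T (e.fwd T x)
  bwd T _ _ x := e.bwd T (e'.bwd T x)
  bf T _ _ x := by rw [e'.bf, e.bf]
  fb T _ _ x := by rw [e.fb, e'.fb]
  nat g x := by rw [e.nat, e'.nat]

def Rep.iso {B : Type} [CommRing B] [Algebra R B] (r : Rep F B) (e : Iso F F') : Rep F' B where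
  u := e.fwd B r.u
  ex T _ _ x := by
    obtain ⟨g, hg⟩ := r.ex T (e.bwd T x)
    exact ⟨g, by rw [← e.nat, hg, e.fb]⟩
  un T _ _ g h hgh := by
    apply r.un
    rw [← e.nat, ← e.nat] at hgh
    rw [← e.bf T (F.mp g r.u), hgh, e.bf]

lemma IsAff.iso (h : IsAff F) (e : Iso F F') : IsAff F' := by
  obtain ⟨B, i1, i2, i3, ⟨r⟩⟩ := h
  exact ⟨B, i1, i2, i3, ⟨r.iso e⟩⟩

lemma Hold.iso {P : Sch R → Prop} (h : Hold P F) (e : Iso F F') : Hold P F' := by
  intro B _ _ _ r
  exact h B (r.iso e.symm)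

lemma Rep.equiv {B B' : Type} [CommRing B] [Algebra R B] [CommRing B'] [Algebra R B']
    (r : Rep F B) (r' : Rep F B') : Nonempty (B ≃ₐ[R] B') := by
  obtain ⟨g, hg⟩ := r.ex B' r'.u
  obtain ⟨h, hh⟩ := r'.ex B r.u
  refine ⟨AlgEquiv.ofAlgHom g h ?_ ?_⟩
  · apply r'.un
    rw [F.mp_comp, hh, hg, F.mp_id]
  · apply r.un
    rw [F.mp_comp, hg, hh, F.mp_id]

section hold

variable {sep : Prop} {P : Sch R → Prop}

lemma hold_of_rep (hP : Uni sep P) {B : Type} [CommRing B] [Algebra R B] [Algebra.FiniteType R B]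
    (r : Rep F B) (h : P (aff R B)) : Hold P F := by
  intro B' _ _ _ r'
  obtain ⟨e⟩ := r.equiv r'
  exact iso_alg hP e h

end hold

/-! ### Closed and open subfunctors -/

/-- The closed subfunctor where the functions `φ k` vanish. -/
abbrev van {κ : Type} (F : Fn R) (φ : κ → Fun F) : Fn R where
  pt T _ _ := {x : F.pt T // ∀ k, (φ k).f T x = 0}
  mp g x := ⟨F.mp g x.1, fun k => by rw [(φ k).nat, x.2 k, map_zero]⟩
  mp_id x := Subtype.ext (F.mp_id x.1)
  mp_comp g h x := Subtype.ext (F.mp_comp g h x.1)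

/-- The open subfunctor where the function `φ` is invertible. -/
abbrev inv (F : Fn R) (φ : Fun F) : Fn R where
  pt T _ _ := {x : F.pt T // IsUnit (φ.f T x)}
  mp g x := ⟨F.mp g x.1, by rw [φ.nat]; exact x.2.map g⟩
  mp_id x := Subtype.ext (F.mp_id x.1)
  mp_comp g h x := Subtype.ext (F.mp_comp g h x.1)

section rep

variable {B : Type} [CommRing B] [Algebra R B]

noncomputable def Rep.van {κ : Type} (r : Rep F B) (φ : κ → Fun F) :
    Rep (van F φ) (B ⧸ Ideal.span (Set.range fun k => (φ k).f B r.u)) where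
  u := ⟨F.mp (Ideal.Quotient.mkₐ R _) r.u, fun k => by
    rw [(φ k).nat]
    exact Ideal.Quotient.eq_zero_iff_mem.2 (Ideal.subset_span ⟨k, rfl⟩)⟩
  ex T _ _ x := by
    obtain ⟨g, hg⟩ := r.ex T x.1
    refine ⟨Ideal.Quotient.liftₐ _ g ?_, Subtype.ext ?_⟩
    · intro a ha
      have h1 : Ideal.span (Set.range fun k => (φ k).f B r.u) ≤ RingHom.ker g := by
        rw [Ideal.span_le]
        rintro _ ⟨k, rfl⟩
        change g ((φ k).f B r.u) = 0
        rw [← (φ k).nat, hg]
        exact x.2 k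
      exact h1 ha
    · change F.mp _ (F.mp _ r.u) = x.1
      rw [← F.mp_comp]
      exact hg
  un T _ _ g h hgh := by
    have h1 : F.mp g (F.mp (Ideal.Quotient.mkₐ R _) r.u) =
      F.mp h (F.mp (Ideal.Quotient.mkₐ R _) r.u) := congrArg Subtype.val hgh
    rw [← F.mp_comp, ← F.mp_comp] at h1
    exact Ideal.Quotient.algHom_ext _ (r.un _ _ _ h1)

noncomputable def Rep.inv (r : Rep F B) (φ : Fun F) :
    Rep (inv F φ) (Localization.Away (φ.f B r.u)) where
  u := ⟨F.mp (IsScalarTower.toAlgHom R B _) r.u, by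
    rw [φ.nat]
    exact IsLocalization.map_units _ (⟨φ.f B r.u, Submonoid.mem_powers _⟩ :
      Submonoid.powers (φ.f B r.u))⟩
  ex T _ _ x := by
    obtain ⟨g, hg⟩ := r.ex T x.1
    have h1 : IsUnit (g (φ.f B r.u)) := by
      rw [← φ.nat, hg]
      exact x.2
    have h2 : ∀ y : Submonoid.powers (φ.f B r.u), IsUnit (g y) := by
      rintro ⟨_, n, rfl⟩
      rw [map_pow]
      exact h1.pow n
    refine ⟨IsLocalization.liftAlgHom (M := Submonoid.powers (φ.f B r.u)) (f := g) h2,
      Subtype.ext ?_⟩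
    change F.mp _ (F.mp _ r.u) = x.1
    rw [← F.mp_comp]
    refine Eq.trans ?_ hg
    congr 1
    ext b
    change IsLocalization.liftAlgHom (M := Submonoid.powers (φ.f B r.u)) (f := g) h2
      (algebraMap B _ b) = g b
    exact IsLocalization.lift_eq _ b
  un T _ _ g h hgh := by
    have h1 : F.mp g (F.mp (IsScalarTower.toAlgHom R B _) r.u) =
      F.mp h (F.mp (IsScalarTower.toAlgHom R B _) r.u) := congrArg Subtype.val hgh
    rw [← F.mp_comp, ← F.mp_comp] at h1
    have h2 := r.un _ _ _ h1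
    apply AlgHom.coe_ringHom_injective
    apply IsLocalization.ringHom_ext (Submonoid.powers (φ.f B r.u))
    ext b
    exact DFunLike.congr_fun h2 b

end rep

lemma ft_loc (B : Type) [CommRing B] [Algebra R B] [Algebra.FiniteType R B] (w : B) :
    Algebra.FiniteType R (Localization.Away w) :=
  Algebra.FiniteType.trans (S := B) inferInstance inferInstance

lemma IsAff.van {κ : Type} (h : IsAff F) (φ : κ → Fun F) : IsAff (van F φ) := by
  obtain ⟨B, i1, i2, i3, ⟨r⟩⟩ := h
  exact ⟨_, inferInstance, inferInstance, inferInstance, ⟨r.van φ⟩⟩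

lemma IsAff.inv (h : IsAff F) (φ : Fun F) : IsAff (inv F φ) := by
  obtain ⟨B, i1, i2, i3, ⟨r⟩⟩ := h
  exact ⟨_, inferInstance, inferInstance, ft_loc B _, ⟨r.inv φ⟩⟩

section hold

variable {sep : Prop} {P : Sch R → Prop}

lemma span_unit (B : Type) [CommRing B] (b : B) :
    Ideal.span (Set.range fun _ : Unit => b) = Ideal.span {b} := by
  rw [Set.range_const]

/-- closed part -/
theorem hold_van (hP : Uni sep P) (hF : IsAff F) (φ : Fun F) (h : Hold P F)
    (h1 : Hold P (inv F φ)) : Hold P (van F fun _ : Unit => φ) := by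
  obtain ⟨B, i1, i2, i3, ⟨r⟩⟩ := hF
  have := ft_loc (R := R) B (φ.f B r.u)
  refine hold_of_rep hP (r.van fun _ : Unit => φ) ?_
  have h2 : P (aff R (B ⧸ Ideal.span {φ.f B r.u})) :=
    hP.closed _ _ (ft_aff sep) (triple_away (φ.f B r.u)) (h B r) (h1 _ (r.inv φ))
  have e : (B ⧸ Ideal.span {φ.f B r.u}) ≃ₐ[R] (B ⧸ Ideal.span (Set.range fun _ : Unit => φ.f B r.u)) :=
    Ideal.quotientEquivAlgOfEq R (span_unit B _).symm
  exact iso_alg hP e h2

/-- open part -/
theorem hold_inv (hP : Uni sep P) (hF : IsAff F) (φ : Fun F) (h : Hold P F)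
    (h1 : Hold P (van F fun _ : Unit => φ)) : Hold P (inv F φ) := by
  obtain ⟨B, i1, i2, i3, ⟨r⟩⟩ := hF
  have := ft_loc (R := R) B (φ.f B r.u)
  refine hold_of_rep hP (r.inv φ) ?_
  have e : (B ⧸ Ideal.span (Set.range fun _ : Unit => φ.f B r.u)) ≃ₐ[R] (B ⧸ Ideal.span {φ.f B r.u}) :=
    Ideal.quotientEquivAlgOfEq R (span_unit B _)
  exact hP.opened _ _ (ft_aff sep) (triple_away (φ.f B r.u)) (iso_alg hP e (h1 _ (r.van _))) (h B r)

/-- union -/
theorem hold_total (hP : Uni sep P) (φ : Fun F) (h1 : Hold P (van F fun _ : Unit => φ))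
    (h2 : Hold P (inv F φ)) : Hold P F := by
  intro B _ _ _ r
  have := ft_loc (R := R) B (φ.f B r.u)
  have e : (B ⧸ Ideal.span (Set.range fun _ : Unit => φ.f B r.u)) ≃ₐ[R] (B ⧸ Ideal.span {φ.f B r.u}) :=
    Ideal.quotientEquivAlgOfEq R (span_unit B _)
  exact hP.total _ _ (ft_aff sep) (triple_away (φ.f B r.u)) (iso_alg hP e (h1 _ (r.van _)))
    (h2 _ (r.inv φ))

end hold

end Pool.Agent.H21.GH
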