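import Mathlib

/-!
# Matrix identities: block elimination for symmetric matrices
-/

set_option autoImplicit false
set_option linter.all false

open Matrix

namespace Pool.Agent.H21.GH

variable {Ω Q T : Type} [Fintype Ω] [DecidableEq Ω] [Fintype Q] [DecidableEq Q] [CommRing T]

/-- the matrix with the additional rows and columns -/
def addW (W0 M0 : Matrix Ω Ω T) (E w : Matrix Ω Q T) (N' : Matrix Q Q T) : Matrix Ω Ω T :=
  W0 + w * Eᵀ + E * wᵀ + E * (N' + wᵀ * (M0 * w)) * Eᵀ

/-- its inverse -/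
def addM (M0 : Matrix Ω Ω T) (E w : Matrix Ω Q T) (N : Matrix Q Q T) : Matrix Ω Ω T :=
  M0 + (E - M0 * w) * N * (E - M0 * w)ᵀ

theorem add_mul_add {W0 M0 D0 : Matrix Ω Ω T} {E w : Matrix Ω Q T} {N N' : Matrix Q Q T}
    (h1 : W0 * M0 = D0) (h3 : M0ᵀ = M0) (h4 : M0 * E = 0) (h5 : W0 * E = 0)
    (h6 : Eᵀ * E = 1) (h7 : wᵀ * E = 0) (h8 : D0 * w = w) (hN : N' * N = 1) :
    addW W0 M0 E w N' * addM M0 E w N = D0 + E * Eᵀ := by
  have h4' : Eᵀ * M0 = 0 := by
    have := congrArg transpose h4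
    rwa [transpose_mul, h3, transpose_zero] at this
  have e1 : Eᵀ * (E - M0 * w) = 1 := by
    rw [Matrix.mul_sub, h6, ← Matrix.mul_assoc, h4', Matrix.zero_mul, sub_zero]
  have e2 : wᵀ * (E - M0 * w) = - (wᵀ * (M0 * w)) := by
    rw [Matrix.mul_sub, h7, zero_sub]
  have e3 : W0 * (E - M0 * w) = - w := by
    rw [Matrix.mul_sub, h5, ← Matrix.mul_assoc, h1, h8, zero_sub]
  have e4 : addW W0 M0 E w N' * (E - M0 * w) = E * N' := by
    rw [addW, Matrix.add_mul, Matrix.add_mul, Matrix.add_mul, e3, Matrix.mul_assoc w, e1,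
      Matrix.mul_one, Matrix.mul_assoc E wᵀ, e2, Matrix.mul_assoc (E * _), e1, Matrix.mul_one,
      Matrix.mul_add, Matrix.mul_neg]
    abel
  have e5 : addW W0 M0 E w N' * M0 = D0 + E * (wᵀ * M0) := by
    rw [addW, Matrix.add_mul, Matrix.add_mul, Matrix.add_mul, h1, Matrix.mul_assoc w, h4',
      Matrix.mul_zero, Matrix.mul_assoc (E * _), h4', Matrix.mul_zero, Matrix.mul_assoc E wᵀ]
    abel
  have e6 : addW W0 M0 E w N' * ((E - M0 * w) * N * (E - M0 * w)ᵀ) = E * (E - M0 * w)ᵀ := by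
    rw [← Matrix.mul_assoc, ← Matrix.mul_assoc, e4, Matrix.mul_assoc E, hN, Matrix.mul_one]
  rw [addM, Matrix.mul_add, e5, e6, transpose_sub, transpose_mul, h3, Matrix.mul_sub]
  abel

lemma addW_sym {W0 M0 : Matrix Ω Ω T} {E w : Matrix Ω Q T} {N' : Matrix Q Q T}
    (h2 : W0ᵀ = W0) (h3 : M0ᵀ = M0) (hN : N'ᵀ = N') :
    (addW W0 M0 E w N')ᵀ = addW W0 M0 E w N' := by
  simp only [addW, transpose_add, transpose_mul, transpose_transpose, h2, h3, hN,
    Matrix.mul_assoc]
  abel

/-- eliminating rows and columns: the inverse -/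
theorem elim_mul {W M D : Matrix Ω Ω T} {E w : Matrix Ω Q T} {C N N' : Matrix Q Q T}
    (h1 : W * M = D) (h2 : Wᵀ = W) (h3 : Mᵀ = M) (hD : Dᵀ = D) (hDE : D * E = E)
    (h6 : Eᵀ * E = 1) (h7 : wᵀ * E = 0) (hw : W * E = w + E * C) (hN : Eᵀ * (M * E) = N)
    (hNN : N * N' = 1) (hN' : N'ᵀ = N') :
    (W - w * Eᵀ - E * wᵀ - E * C * Eᵀ) * (M - M * E * N' * (Eᵀ * M)) = D - E * Eᵀ ∧
      Eᵀ * (M - M * E * N' * (Eᵀ * M)) = 0 ∧
      (M - M * E * N' * (Eᵀ * M)) * w = E - M * E * N' ∧
      N' + wᵀ * ((M - M * E * N' * (Eᵀ * M)) * w) = C := by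
  set M0 := M - M * E * N' * (Eᵀ * M) with hM0
  have hM0s : M0ᵀ = M0 := by
    rw [hM0]
    simp only [transpose_sub, transpose_mul, transpose_transpose, h3, hN', Matrix.mul_assoc]
  have e1 : Eᵀ * M0 = 0 := by
    rw [hM0, Matrix.mul_sub, Matrix.mul_assoc (M * E), Matrix.mul_assoc M,
      ← Matrix.mul_assoc M E, ← Matrix.mul_assoc Eᵀ, hN, ← Matrix.mul_assoc N, hNN, Matrix.one_mul,
      sub_self]
  have e1' : M0 * E = 0 := by
    have := congrArg transpose e1
    rwa [transpose_mul, hM0s, transpose_transpose, transpose_zero] at this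
  have hED : Eᵀ * D = Eᵀ := by
    have := congrArg transpose hDE
    rwa [transpose_mul, hD] at this
  have hMW : M * W = D := by
    have := congrArg transpose h1
    rwa [transpose_mul, h2, h3, hD] at this
  have e2 : W * M0 = D - E * N' * (Eᵀ * M) := by
    rw [hM0, Matrix.mul_sub, h1, ← Matrix.mul_assoc, ← Matrix.mul_assoc W, ← Matrix.mul_assoc W,
      h1, hDE]
  have e3 : M0 * W = D - M * E * N' * Eᵀ := by
    rw [hM0, Matrix.sub_mul, hMW, Matrix.mul_assoc (M * E * N'), Matrix.mul_assoc Eᵀ, hMW, hED]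
  have e4 : M0 * w = E - M * E * N' := by
    have h := congrArg (fun A => M0 * A) hw
    simp only [Matrix.mul_add] at h
    rw [← Matrix.mul_assoc, e3, ← Matrix.mul_assoc M0 E, e1', Matrix.zero_mul, add_zero,
      Matrix.sub_mul, hDE, Matrix.mul_assoc _ Eᵀ, h6, Matrix.mul_one] at h
    exact h.symm
  have e4' : wᵀ * M0 = Eᵀ - N' * (Eᵀ * M) := by
    have := congrArg transpose e4
    rw [transpose_mul, hM0s] at this
    rw [this]
    simp only [transpose_sub, transpose_mul, transpose_transpose, h3, hN']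
  refine ⟨?_, e1, e4, ?_⟩
  · rw [Matrix.sub_mul, Matrix.sub_mul, Matrix.sub_mul, e2, Matrix.mul_assoc w, e1,
      Matrix.mul_zero, Matrix.mul_assoc (E * C), e1, Matrix.mul_zero, Matrix.mul_assoc E wᵀ, e4',
      Matrix.mul_sub, ← Matrix.mul_assoc E N']
    abel
  · have h : wᵀ * (M * E) + C * N = 1 := by
      have h8 : Eᵀ * W = wᵀ + Cᵀ * Eᵀ := by
        have := congrArg transpose hw
        rwa [transpose_mul, h2, transpose_add, transpose_mul] at this
      have hC : Cᵀ = C := by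
        have h9 : Eᵀ * (W * E) = C := by
          have h7' : Eᵀ * w = 0 := by
            have := congrArg transpose h7
            rwa [transpose_mul, transpose_transpose, transpose_zero] at this
          rw [hw, Matrix.mul_add, h7', ← Matrix.mul_assoc, h6, Matrix.one_mul, zero_add]
        have := congrArg transpose h9
        rw [transpose_mul, transpose_mul, transpose_transpose, h2, Matrix.mul_assoc, h9] at this
        exact this.symm
      have h10 : Eᵀ * W * (M * E) = 1 := by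
        rw [Matrix.mul_assoc, ← Matrix.mul_assoc W, h1, hDE, h6]
      rw [h8, Matrix.add_mul, hC, Matrix.mul_assoc C, hN] at h10
      exact h10
    have h' : wᵀ * (M * E) = 1 - C * N := by
      rw [← h, add_sub_cancel_right]
    rw [e4, Matrix.mul_sub, h7, ← Matrix.mul_assoc, h', Matrix.sub_mul, Matrix.one_mul,
      Matrix.mul_assoc, hNN, Matrix.mul_one]
    abel

end Pool.Agent.H21.GH
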