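import Pool.Agent.H21.GH.Prd
import Pool.Agent.H21.GH.Piv

/-!
# Symmetric matrices with a pattern of zeros, whose inverses have given zeros
-/

set_option autoImplicit false
set_option linter.all false

open Matrix
open scoped Classical

namespace Pool.Agent.H21.GH

variable {R : Type} [CommRing R] {Ω : Type} [Fintype Ω]

section ind

variable {T : Type} [CommRing T]

/-- the identity matrix of the subset `U` -/
noncomputable def ind (T : Type) [CommRing T] (U : Finset Ω) : Matrix Ω Ω T :=
  Matrix.diagonal fun a => if a ∈ U then 1 else 0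

lemma ind_mul_apply {κ : Type} (U : Finset Ω) (A : Matrix Ω κ T) (a : Ω) (b : κ) :
    (ind T U * A) a b = if a ∈ U then A a b else 0 := by
  rw [ind, Matrix.diagonal_mul]
  split_ifs
  · rw [one_mul]
  · rw [zero_mul]

lemma ind_mul_eq {κ : Type} (U : Finset Ω) (A : Matrix Ω κ T) :
    ind T U * A = A ↔ ∀ a b, a ∉ U → A a b = 0 := by
  constructor
  · intro h a b ha
    rw [← h, ind_mul_apply, if_neg ha]
  · intro h
    ext a b
    rw [ind_mul_apply]
    split_ifs with ha
    · rfl
    · exact (h a b ha).symm

lemma ind_transpose (U : Finset Ω) : (ind T U)ᵀ = ind T U := Matrix.diagonal_transpose _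

lemma ind_map {T' : Type} [CommRing T'] (g : T →+* T') (U : Finset Ω) :
    (ind T U).map g = ind T' U := by
  ext a b
  rw [Matrix.map_apply, ind, ind, Matrix.diagonal_apply, Matrix.diagonal_apply]
  split_ifs
  · exact map_one g
  · exact map_zero g
  · exact map_zero g

end ind

/-- A symmetric matrix `W` with rows and columns in `U`, whose entries are zero outside of the graph
`Γ` and of the diagonal, with the inverse `M`, whose entries in `Z` are zero. -/
structure PtW (Γ : Ω → Ω → Prop) (U : Finset Ω) (Z : Ω → Ω → Prop) (T : Type) [CommRing T] where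
  W : Matrix Ω Ω T
  M : Matrix Ω Ω T
  sym : Wᵀ = W
  pat : ∀ a b, a ≠ b → ¬ Γ a b → W a b = 0
  supW : ind T U * W = W
  supM : ind T U * M = M
  mul : W * M = ind T U
  zer : ∀ a b, Z a b → M a b = 0

variable {Γ : Ω → Ω → Prop} {U : Finset Ω} {Z : Ω → Ω → Prop}

namespace PtW

variable {T : Type} [CommRing T] (x : PtW Γ U Z T)

lemma msym : x.Mᵀ = x.M := by
  have h1 : x.Mᵀ * x.W = ind T U := by
    have := congrArg transpose x.mul
    rwa [transpose_mul, x.sym, ind_transpose] at this
  have h2 : x.M = x.Mᵀ * ind T U := by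
    rw [← x.mul, ← Matrix.mul_assoc, h1, x.supM]
  have h3 := congrArg transpose h2
  rwa [transpose_mul, transpose_transpose, ind_transpose, x.supM] at h3

lemma mul' : x.M * x.W = ind T U := by
  have := congrArg transpose x.mul
  rwa [transpose_mul, x.sym, ind_transpose, x.msym] at this

lemma M_ind : x.M * ind T U = x.M := by
  have := congrArg transpose x.supM
  rwa [transpose_mul, x.msym, ind_transpose] at this

lemma W_ind : x.W * ind T U = x.W := by
  have := congrArg transpose x.supW
  rwa [transpose_mul, x.sym, ind_transpose] at this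

lemma W_symm (a b : Ω) : x.W a b = x.W b a := congrFun (congrFun x.sym b) a

lemma M_symm (a b : Ω) : x.M a b = x.M b a := congrFun (congrFun x.msym b) a

lemma W_out (a b : Ω) (h : a ∉ U) : x.W a b = 0 := (ind_mul_eq U x.W).1 x.supW a b h

lemma M_out (a b : Ω) (h : a ∉ U) : x.M a b = 0 := (ind_mul_eq U x.M).1 x.supM a b h

variable {x}

theorem ext' {Z' : Ω → Ω → Prop} {y : PtW Γ U Z' T} (h : x.W = y.W) : x.M = y.M := by
  rw [← y.M_ind, ← x.mul, h, ← Matrix.mul_assoc, y.mul', x.supM]

theorem ext {y : PtW Γ U Z T} (h : x.W = y.W) : x = y := by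
  have h2 := ext' h
  cases x
  cases y
  cases h
  cases h2
  rfl

end PtW

/-- The functor of the matrices `PtW`. -/
abbrev FW (R : Type) [CommRing R] (Γ : Ω → Ω → Prop) (U : Finset Ω) (Z : Ω → Ω → Prop) : Fn R where
  pt T _ _ := PtW Γ U Z T
  mp g x :=
    { W := x.W.map g.toRingHom
      M := x.M.map g.toRingHom
      sym := by rw [← Matrix.transpose_map, x.sym]
      pat := fun a b h h' => by rw [Matrix.map_apply, x.pat a b h h', map_zero]
      supW := by rw [← ind_map g.toRingHom U, ← Matrix.map_mul, x.supW]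
      supM := by rw [← ind_map g.toRingHom U, ← Matrix.map_mul, x.supM]
      mul := by rw [← Matrix.map_mul, x.mul, ind_map]
      zer := fun a b h => by rw [Matrix.map_apply, x.zer a b h, map_zero] }
  mp_id x := PtW.ext (by ext a b; rfl)
  mp_comp g h x := PtW.ext (by ext a b; rfl)

/-- the equations -/
noncomputable def eqn (Γ : Ω → Ω → Prop) (U : Finset Ω) (Z : Ω → Ω → Prop) {T : Type} [CommRing T]
    (v : Bool × Ω × Ω → T) : Fin 6 × Ω × Ω → T
  | (0, a, b) => v (false, a, b) - v (false, b, a)
  | (1, a, b) => if a ≠ b ∧ ¬ Γ a b then v (false, a, b) else 0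
  | (2, a, b) => if a ∈ U then 0 else v (false, a, b)
  | (3, a, b) => if a ∈ U then 0 else v (true, a, b)
  | (4, a, b) => ∑ c, v (false, a, c) * v (true, c, b) - ind T U a b
  | (5, a, b) => if Z a b then v (true, a, b) else 0

lemma eqn_map {T T' : Type} [CommRing T] [CommRing T'] (g : T →+* T') (v : Bool × Ω × Ω → T)
    (k : Fin 6 × Ω × Ω) : eqn Γ U Z (fun s => g (v s)) k = g (eqn Γ U Z v k) := by
  obtain ⟨k, a, b⟩ := k
  have h : ind T' U a b = g (ind T U a b) := by
    rw [← ind_map g U]
    rfl
  fin_cases k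
  · simp [eqn]
  · change (if a ≠ b ∧ ¬ Γ a b then g (v (false, a, b)) else 0) =
      g (if a ≠ b ∧ ¬ Γ a b then v (false, a, b) else 0)
    split_ifs <;> simp
  · change (if a ∈ U then 0 else g (v (false, a, b))) = g (if a ∈ U then 0 else v (false, a, b))
    split_ifs <;> simp
  · change (if a ∈ U then 0 else g (v (true, a, b))) = g (if a ∈ U then 0 else v (true, a, b))
    split_ifs <;> simp
  · change ∑ c, g (v (false, a, c)) * g (v (true, c, b)) - ind T' U a b =
      g (∑ c, v (false, a, c) * v (true, c, b) - ind T U a b)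
    rw [map_sub, map_sum, h]
    simp only [map_mul]
  · change (if Z a b then g (v (true, a, b)) else 0) = g (if Z a b then v (true, a, b) else 0)
    split_ifs <;> simp

noncomputable def eqF (R : Type) [CommRing R] (Γ : Ω → Ω → Prop) (U : Finset Ω) (Z : Ω → Ω → Prop)
    (k : Fin 6 × Ω × Ω) : Fun (lin R (Bool × Ω × Ω) fun _ => True) where
  f T _ _ v := eqn Γ U Z v.1 k
  nat g v := eqn_map g.toRingHom v.1 k

noncomputable def fwIso (R : Type) [CommRing R] (Γ : Ω → Ω → Prop) (U : Finset Ω)
    (Z : Ω → Ω → Prop) :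
    Iso (van (lin R (Bool × Ω × Ω) fun _ => True) (eqF R Γ U Z)) (FW R Γ U Z) where
  fwd T _ _ x :=
    { W := Matrix.of fun a b => x.1.1 (false, a, b)
      M := Matrix.of fun a b => x.1.1 (true, a, b)
      sym := by
        ext a b
        exact (sub_eq_zero.1 (x.2 (0, a, b))).symm
      pat := fun a b h h' => by
        have := x.2 (1, a, b)
        change (if a ≠ b ∧ ¬ Γ a b then x.1.1 (false, a, b) else 0) = 0 at this
        rwa [if_pos ⟨h, h'⟩] at this
      supW := by
        rw [ind_mul_eq]
        intro a b h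
        have := x.2 (2, a, b)
        change (if a ∈ U then 0 else x.1.1 (false, a, b)) = 0 at this
        rwa [if_neg h] at this
      supM := by
        rw [ind_mul_eq]
        intro a b h
        have := x.2 (3, a, b)
        change (if a ∈ U then 0 else x.1.1 (true, a, b)) = 0 at this
        rwa [if_neg h] at this
      mul := by
        ext a b
        exact sub_eq_zero.1 (x.2 (4, a, b))
      zer := fun a b h => by
        have := x.2 (5, a, b)
        change (if Z a b then x.1.1 (true, a, b) else 0) = 0 at this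
        rwa [if_pos h] at this }
  bwd T _ _ x := ⟨⟨fun s => if s.1 then x.M s.2.1 s.2.2 else x.W s.2.1 s.2.2,
      fun _ h => absurd trivial h⟩, by
    rintro ⟨k, a, b⟩
    fin_cases k
    · exact sub_eq_zero.2 (x.W_symm a b)
    · change (if a ≠ b ∧ ¬ Γ a b then x.W a b else 0) = 0
      split_ifs with h
      · exact x.pat a b h.1 h.2
      · rfl
    · change (if a ∈ U then 0 else x.W a b) = 0
      split_ifs with h
      · rfl
      · exact x.W_out a b h
    · change (if a ∈ U then 0 else x.M a b) = 0
      split_ifs with h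
      · rfl
      · exact x.M_out a b h
    · exact sub_eq_zero.2 (congrFun (congrFun x.mul a) b)
    · change (if Z a b then x.M a b else 0) = 0
      split_ifs with h
      · exact x.zer a b h
      · rfl⟩
  bf T _ _ x := by
    apply Subtype.ext
    apply Subtype.ext
    funext s
    rcases s with ⟨_ | _, a, b⟩
    · rfl
    · rfl
  fb T _ _ x := PtW.ext rfl
  nat g x := PtW.ext rfl

theorem isAff_FW : IsAff (FW R Γ U Z) :=
  ((isAff_lin (Bool × Ω × Ω) fun _ => True).van (eqF R Γ U Z)).iso (fwIso R Γ U Z)

/-- an entry of the inverse -/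
def entM (R : Type) [CommRing R] (Γ : Ω → Ω → Prop) (U : Finset Ω) (Z : Ω → Ω → Prop) (a b : Ω) :
    Fun (FW R Γ U Z) where
  f T _ _ x := x.M a b
  nat _ _ := rfl

/-- one more zero of the inverse -/
def vanIso (a b : Ω) : Iso (van (FW R Γ U Z) fun _ : Unit => entM R Γ U Z a b)
    (FW R Γ U fun c d => Z c d ∨ (c = a ∧ d = b) ∨ (c = b ∧ d = a)) where
  fwd T _ _ x :=
    { W := x.1.W
      M := x.1.M
      sym := x.1.sym
      pat := x.1.pat
      supW := x.1.supW
      supM := x.1.supM
      mul := x.1.mul
      zer := by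
        rintro c d (h | ⟨rfl, rfl⟩ | ⟨rfl, rfl⟩)
        · exact x.1.zer c d h
        · exact x.2 ()
        · rw [x.1.M_symm]
          exact x.2 () }
  bwd T _ _ x := ⟨
    { W := x.W
      M := x.M
      sym := x.sym
      pat := x.pat
      supW := x.supW
      supM := x.supM
      mul := x.mul
      zer := fun c d h => x.zer c d (Or.inl h) }, fun _ => x.zer a b (Or.inr (Or.inl ⟨rfl, rfl⟩))⟩
  bf T _ _ x := rfl
  fb T _ _ x := rfl
  nat g x := rfl

/-- the same zeros -/
def zIso {Z' : Ω → Ω → Prop} (h : ∀ a b, Z a b ↔ Z' a b) : Iso (FW R Γ U Z) (FW R Γ U Z') where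
  fwd T _ _ x := { x with zer := fun a b hab => x.zer a b ((h a b).2 hab) }
  bwd T _ _ x := { x with zer := fun a b hab => x.zer a b ((h a b).1 hab) }
  bf T _ _ x := rfl
  fb T _ _ x := rfl
  nat g x := rfl

end Pool.Agent.H21.GH
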