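import Pool.Agent.H21.GH.Unt

/-!
# Bilinear systems from orthogonality relations
-/

set_option autoImplicit false
set_option linter.all false

open Matrix
open scoped Classical

namespace Pool.Agent.H21.GH

variable {R : Type} [CommRing R] {a b c : ℕ}

/-- The solutions of the bilinear system with the sets `E l` of pairs. -/
abbrev Bs (R : Type) [CommRing R] {a b c : ℕ} (E : Fin c → Fin a → Fin b → Prop) : Fn R where
  pt T _ _ := {v : (Fin a → T) × (Fin b → T) //
    ∀ l, ∑ p : Fin a × Fin b, (if E l p.1 p.2 then v.1 p.1 * v.2 p.2 else 0) = 0}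
  mp g v := ⟨(fun i => g (v.1.1 i), fun j => g (v.1.2 j)), fun l => by
    have h := congrArg g (v.2 l)
    rw [map_sum, map_zero] at h
    refine Eq.trans (Finset.sum_congr rfl fun p _ => ?_) h
    split_ifs
    · rw [map_mul]
    · rw [map_zero]⟩
  mp_id v := rfl
  mp_comp g h v := rfl

/-- the coordinates -/
abbrev Co (a b : ℕ) : Type := Unit ⊕ (Fin a ⊕ (Fin b ⊕ (Fin a × Fin b)))

abbrev co : Co a b := Sum.inl ()
abbrev cx (i : Fin a) : Co a b := Sum.inr (Sum.inl i)
abbrev cy (j : Fin b) : Co a b := Sum.inr (Sum.inr (Sum.inl j))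
abbrev cp (p : Fin a × Fin b) : Co a b := Sum.inr (Sum.inr (Sum.inr p))

/-- the vectors -/
inductive Ve (a b c : ℕ) : Type
  | xi : Ve a b c
  | al (p : Fin a × Fin b) : Ve a b c
  | be (p : Fin a × Fin b) : Ve a b c
  | nn (p : Fin a × Fin b) : Ve a b c
  | om : Ve a b c
  | ka (p : Fin a × Fin b) : Ve a b c
  | zt : Ve a b c
  | yy (l : Fin c) : Ve a b c

namespace Ve

def code : Ve a b c → Fin 8 × (Unit ⊕ ((Fin a × Fin b) ⊕ Fin c))
  | xi => (0, Sum.inl ())
  | al p => (1, Sum.inr (Sum.inl p))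
  | be p => (2, Sum.inr (Sum.inl p))
  | nn p => (3, Sum.inr (Sum.inl p))
  | om => (4, Sum.inl ())
  | ka p => (5, Sum.inr (Sum.inl p))
  | zt => (6, Sum.inl ())
  | yy l => (7, Sum.inr (Sum.inr l))

lemma code_inj : Function.Injective (code (a := a) (b := b) (c := c)) := by
  intro x y h
  cases x <;> cases y <;> simp_all [code]

instance : Finite (Ve a b c) := Finite.of_injective _ code_inj

/-- the second group of vectors -/
def sg : Ve a b c → Bool
  | xi => false
  | al _ => false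
  | be _ => false
  | nn _ => false
  | om => true
  | ka _ => true
  | zt => true
  | yy _ => true

end Ve

open Ve

variable (E : Fin c → Fin a → Fin b → Prop)

/-- the supports -/
def PA : Co a b → Ve a b c → Prop
  | Sum.inl _, nn _ => True
  | Sum.inl _, zt => True
  | Sum.inl _, yy _ => True
  | Sum.inl _, _ => False
  | Sum.inr (Sum.inl _), xi => True
  | Sum.inr (Sum.inl i), al p => i = p.1
  | Sum.inr (Sum.inl _), om => True
  | Sum.inr (Sum.inl i), ka p => i = p.1
  | Sum.inr (Sum.inl _), _ => False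
  | Sum.inr (Sum.inr (Sum.inl j)), be p => j = p.2
  | Sum.inr (Sum.inr (Sum.inl _)), om => True
  | Sum.inr (Sum.inr (Sum.inl _)), zt => True
  | Sum.inr (Sum.inr (Sum.inl _)), _ => False
  | Sum.inr (Sum.inr (Sum.inr _)), xi => True
  | Sum.inr (Sum.inr (Sum.inr q)), al p => q = p
  | Sum.inr (Sum.inr (Sum.inr q)), be p => q = p
  | Sum.inr (Sum.inr (Sum.inr q)), nn p => q = p
  | Sum.inr (Sum.inr (Sum.inr _)), om => True
  | Sum.inr (Sum.inr (Sum.inr q)), ka p => q = p
  | Sum.inr (Sum.inr (Sum.inr _)), zt => True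
  | Sum.inr (Sum.inr (Sum.inr q)), yy l => E l q.1 q.2

/-- the invertible entries -/
def PE : Co a b → Ve a b c → Prop
  | Sum.inl _, zt => True
  | Sum.inl _, yy _ => True
  | Sum.inl _, _ => False
  | Sum.inr (Sum.inl i), al p => i = p.1
  | Sum.inr (Sum.inl _), om => True
  | Sum.inr (Sum.inl i), ka p => i = p.1
  | Sum.inr (Sum.inl _), _ => False
  | Sum.inr (Sum.inr (Sum.inl j)), be p => j = p.2
  | Sum.inr (Sum.inr (Sum.inl _)), om => True
  | Sum.inr (Sum.inr (Sum.inl _)), _ => False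
  | Sum.inr (Sum.inr (Sum.inr q)), al p => q = p
  | Sum.inr (Sum.inr (Sum.inr q)), be p => q = p
  | Sum.inr (Sum.inr (Sum.inr q)), nn p => q = p
  | Sum.inr (Sum.inr (Sum.inr _)), om => True
  | Sum.inr (Sum.inr (Sum.inr q)), ka p => q = p
  | Sum.inr (Sum.inr (Sum.inr _)), _ => False

/-- the orthogonality relations -/
def PS : Ve a b c → Ve a b c → Prop
  | xi, ka _ => True
  | xi, yy _ => True
  | al _, om => True
  | al p, ka q => p = q
  | be _, om => True
  | be _, zt => True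
  | nn _, zt => True
  | nn p, yy l => E l p.1 p.2
  | _, _ => False

lemma PS_sg (v w : Ve a b c) (h : PS E v w) : sg v = false ∧ sg w = true := by
  cases v <;> cases w <;> first | exact ⟨rfl, rfl⟩ | exact h.elim

section sums

variable {T : Type} [CommRing T] {E} {C : Co a b → Ve a b c → T}
  (hC : ∀ s v, ¬ PA E s v → C s v = 0)

include hC

lemma sum_al_om (p : Fin a × Fin b) : ∑ s, C s (al p) * C s om =
    C (cx p.1) (al p) * C (cx p.1) om + C (cp p) (al p) * C (cp p) om := by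
  refine Fintype.sum_eq_add _ _ (fun h => by simp at h) ?_
  rintro (u | i | j | q) ⟨h1, h2⟩
  · rw [hC (Sum.inl u) (al p) fun h => h, zero_mul]
  · rw [hC (cx i) (al p) fun h => h1 (congrArg cx h), zero_mul]
  · rw [hC (cy j) (al p) fun h => h, zero_mul]
  · rw [hC (cp q) (al p) fun h => h2 (congrArg cp h), zero_mul]

lemma sum_al_ka (p : Fin a × Fin b) : ∑ s, C s (al p) * C s (ka p) =
    C (cx p.1) (al p) * C (cx p.1) (ka p) + C (cp p) (al p) * C (cp p) (ka p) := by
  refine Fintype.sum_eq_add _ _ (fun h => by simp at h) ?_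
  rintro (u | i | j | q) ⟨h1, h2⟩
  · rw [hC (Sum.inl u) (al p) fun h => h, zero_mul]
  · rw [hC (cx i) (al p) fun h => h1 (congrArg cx h), zero_mul]
  · rw [hC (cy j) (al p) fun h => h, zero_mul]
  · rw [hC (cp q) (al p) fun h => h2 (congrArg cp h), zero_mul]

lemma sum_be_om (p : Fin a × Fin b) : ∑ s, C s (be p) * C s om =
    C (cy p.2) (be p) * C (cy p.2) om + C (cp p) (be p) * C (cp p) om := by
  refine Fintype.sum_eq_add _ _ (fun h => by simp at h) ?_
  rintro (u | i | j | q) ⟨h1, h2⟩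
  · rw [hC (Sum.inl u) (be p) fun h => h, zero_mul]
  · rw [hC (cx i) (be p) fun h => h, zero_mul]
  · rw [hC (cy j) (be p) fun h => h1 (congrArg cy h), zero_mul]
  · rw [hC (cp q) (be p) fun h => h2 (congrArg cp h), zero_mul]

lemma sum_be_vv (p : Fin a × Fin b) : ∑ s, C s (be p) * C s zt =
    C (cy p.2) (be p) * C (cy p.2) zt + C (cp p) (be p) * C (cp p) zt := by
  refine Fintype.sum_eq_add _ _ (fun h => by simp at h) ?_
  rintro (u | i | j | q) ⟨h1, h2⟩
  · rw [hC (Sum.inl u) (be p) fun h => h, zero_mul]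
  · rw [hC (cx i) (be p) fun h => h, zero_mul]
  · rw [hC (cy j) (be p) fun h => h1 (congrArg cy h), zero_mul]
  · rw [hC (cp q) (be p) fun h => h2 (congrArg cp h), zero_mul]

lemma sum_nn_vv (p : Fin a × Fin b) : ∑ s, C s (nn p) * C s zt =
    C co (nn p) * C co zt + C (cp p) (nn p) * C (cp p) zt := by
  refine Fintype.sum_eq_add _ _ (fun h => by simp at h) ?_
  rintro (u | i | j | q) ⟨h1, h2⟩
  · exact absurd rfl h1
  · rw [hC (cx i) (nn p) fun h => h, zero_mul]
  · rw [hC (cy j) (nn p) fun h => h, zero_mul]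
  · rw [hC (cp q) (nn p) fun h => h2 (congrArg cp h), zero_mul]

lemma sum_nn_yy (p : Fin a × Fin b) (l : Fin c) : ∑ s, C s (nn p) * C s (yy l) =
    C co (nn p) * C co (yy l) + C (cp p) (nn p) * C (cp p) (yy l) := by
  refine Fintype.sum_eq_add _ _ (fun h => by simp at h) ?_
  rintro (u | i | j | q) ⟨h1, h2⟩
  · exact absurd rfl h1
  · rw [hC (cx i) (nn p) fun h => h, zero_mul]
  · rw [hC (cy j) (nn p) fun h => h, zero_mul]
  · rw [hC (cp q) (nn p) fun h => h2 (congrArg cp h), zero_mul]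

lemma sum_xi_ka (p : Fin a × Fin b) : ∑ s, C s xi * C s (ka p) =
    C (cx p.1) xi * C (cx p.1) (ka p) + C (cp p) xi * C (cp p) (ka p) := by
  refine Fintype.sum_eq_add _ _ (fun h => by simp at h) ?_
  rintro (u | i | j | q) ⟨h1, h2⟩
  · rw [hC (Sum.inl u) (ka p) fun h => h, mul_zero]
  · rw [hC (cx i) (ka p) fun h => h1 (congrArg cx h), mul_zero]
  · rw [hC (cy j) (ka p) fun h => h, mul_zero]
  · rw [hC (cp q) (ka p) fun h => h2 (congrArg cp h), mul_zero]

lemma sum_xi_yy (l : Fin c) : ∑ s, C s xi * C s (yy l) =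
    ∑ p : Fin a × Fin b, (if E l p.1 p.2 then C (cp p) xi * C (cp p) (yy l) else 0) := by
  rw [Fintype.sum_sum_type, Fintype.sum_sum_type, Fintype.sum_sum_type,
    Finset.sum_eq_zero fun u _ => by rw [hC (Sum.inl u) xi fun h => h, zero_mul],
    Finset.sum_eq_zero fun i _ => by rw [hC (cx i) (yy l) fun h => h, mul_zero],
    Finset.sum_eq_zero fun j _ => by rw [hC (cy j) xi fun h => h, zero_mul], zero_add, zero_add,
    zero_add]
  refine Finset.sum_congr rfl fun p _ => ?_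
  split_ifs with h
  · rfl
  · rw [hC (cp p) (yy l) fun h' => h h', mul_zero]

end sums

/-- the parameters -/
inductive To (a b c : ℕ) : Type
  | ox (i : Fin a) : To a b c
  | oy (j : Fin b) : To a b c
  | op (p : Fin a × Fin b) : To a b c
  | al (p : Fin a × Fin b) : To a b c
  | be (p : Fin a × Fin b) : To a b c
  | ka (p : Fin a × Fin b) : To a b c
  | nn (p : Fin a × Fin b) : To a b c
  | zt : To a b c
  | yy (l : Fin c) : To a b c

namespace To

def code : To a b c → Fin 9 × (Unit ⊕ ((Fin a × Fin b) ⊕ (Fin a ⊕ (Fin b ⊕ Fin c))))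
  | ox i => (0, Sum.inr (Sum.inr (Sum.inl i)))
  | oy j => (1, Sum.inr (Sum.inr (Sum.inr (Sum.inl j))))
  | op p => (2, Sum.inr (Sum.inl p))
  | al p => (3, Sum.inr (Sum.inl p))
  | be p => (4, Sum.inr (Sum.inl p))
  | ka p => (5, Sum.inr (Sum.inl p))
  | nn p => (6, Sum.inr (Sum.inl p))
  | zt => (7, Sum.inl ())
  | yy l => (8, Sum.inr (Sum.inr (Sum.inr (Sum.inr l))))

lemma code_inj : Function.Injective (code (a := a) (b := b) (c := c)) := by
  intro x y h
  cases x <;> cases y <;> simp_all [code]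

instance : Finite (To a b c) := Finite.of_injective _ code_inj

end To

section mk

variable {T : Type} [CommRing T]

/-- the family of vectors -/
noncomputable def mkC (x : Fin a → T) (y : Fin b → T) (t : To a b c → Tˣ) : Co a b → Ve a b c → T
  | Sum.inl _, nn p => - (↑(t (To.nn p)) * y p.2 * ↑(t (To.op p)))
  | Sum.inl _, zt => ↑(t To.zt)
  | Sum.inl _, yy l => ↑(t (To.yy l))
  | Sum.inl _, _ => 0
  | Sum.inr (Sum.inl i), xi => x i * ↑(t (To.ox i))⁻¹
  | Sum.inr (Sum.inl i), al p =>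
      if i = p.1 then - (↑(t (To.al p)) * ↑(t (To.op p)) * ↑(t (To.ox p.1))⁻¹) else 0
  | Sum.inr (Sum.inl i), om => ↑(t (To.ox i))
  | Sum.inr (Sum.inl i), ka p =>
      if i = p.1 then ↑(t (To.ka p)) * ↑(t (To.ox p.1)) * ↑(t (To.op p))⁻¹ else 0
  | Sum.inr (Sum.inl _), _ => 0
  | Sum.inr (Sum.inr (Sum.inl j)), be p =>
      if j = p.2 then - (↑(t (To.be p)) * ↑(t (To.op p)) * ↑(t (To.oy p.2))⁻¹) else 0
  | Sum.inr (Sum.inr (Sum.inl j)), om => ↑(t (To.oy j))
  | Sum.inr (Sum.inr (Sum.inl j)), zt => y j * ↑(t (To.oy j)) * ↑(t To.zt)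
  | Sum.inr (Sum.inr (Sum.inl _)), _ => 0
  | Sum.inr (Sum.inr (Sum.inr q)), xi => - (x q.1 * ↑(t (To.op q))⁻¹)
  | Sum.inr (Sum.inr (Sum.inr q)), al p => if q = p then ↑(t (To.al p)) else 0
  | Sum.inr (Sum.inr (Sum.inr q)), be p => if q = p then ↑(t (To.be p)) else 0
  | Sum.inr (Sum.inr (Sum.inr q)), nn p => if q = p then ↑(t (To.nn p)) else 0
  | Sum.inr (Sum.inr (Sum.inr q)), om => ↑(t (To.op q))
  | Sum.inr (Sum.inr (Sum.inr q)), ka p => if q = p then ↑(t (To.ka p)) else 0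
  | Sum.inr (Sum.inr (Sum.inr q)), zt => y q.2 * ↑(t To.zt) * ↑(t (To.op q))
  | Sum.inr (Sum.inr (Sum.inr q)), yy l =>
      if E l q.1 q.2 then ↑(t (To.yy l)) * y q.2 * ↑(t (To.op q)) else 0

lemma mkC_A (x : Fin a → T) (y : Fin b → T) (t : To a b c → Tˣ) (s : Co a b) (v : Ve a b c)
    (h : ¬ PA E s v) : mkC E x y t s v = 0 := by
  rcases s with u | i | j | q <;> cases v <;>
    first | rfl | exact absurd trivial h | exact if_neg h

lemma mkC_E (x : Fin a → T) (y : Fin b → T) (t : To a b c → Tˣ) (s : Co a b) (v : Ve a b c)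
    (h : PE s v) : IsUnit (mkC E x y t s v) := by
  rcases s with u | i | j | q <;> cases v <;> first | exact h.elim | skip
  · exact Units.isUnit _
  · exact Units.isUnit _
  · rename_i p
    change IsUnit (if i = p.1 then - (↑(t (To.al p)) * ↑(t (To.op p)) * ↑(t (To.ox p.1))⁻¹) else 0 : T)
    rw [if_pos (show i = p.1 from h)]
    exact (((Units.isUnit _).mul (Units.isUnit _)).mul (Units.isUnit _)).neg
  · exact Units.isUnit _
  · rename_i p
    change IsUnit (if i = p.1 then ↑(t (To.ka p)) * ↑(t (To.ox p.1)) * ↑(t (To.op p))⁻¹ else 0 : T)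
    rw [if_pos (show i = p.1 from h)]
    exact (((Units.isUnit _).mul (Units.isUnit _)).mul (Units.isUnit _))
  · rename_i p
    change IsUnit (if j = p.2 then - (↑(t (To.be p)) * ↑(t (To.op p)) * ↑(t (To.oy p.2))⁻¹) else 0 : T)
    rw [if_pos (show j = p.2 from h)]
    exact (((Units.isUnit _).mul (Units.isUnit _)).mul (Units.isUnit _)).neg
  · exact Units.isUnit _
  · rename_i p
    change IsUnit (if q = p then ↑(t (To.al p)) else 0 : T)
    rw [if_pos (show q = p from h)]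
    exact Units.isUnit _
  · rename_i p
    change IsUnit (if q = p then ↑(t (To.be p)) else 0 : T)
    rw [if_pos (show q = p from h)]
    exact Units.isUnit _
  · rename_i p
    change IsUnit (if q = p then ↑(t (To.nn p)) else 0 : T)
    rw [if_pos (show q = p from h)]
    exact Units.isUnit _
  · exact Units.isUnit _
  · rename_i p
    change IsUnit (if q = p then ↑(t (To.ka p)) else 0 : T)
    rw [if_pos (show q = p from h)]
    exact Units.isUnit _

lemma mkC_S (x : Fin a → T) (y : Fin b → T) (t : To a b c → Tˣ)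
    (hxy : ∀ l, ∑ p : Fin a × Fin b, (if E l p.1 p.2 then x p.1 * y p.2 else 0) = 0)
    (v w : Ve a b c) (h : PS E v w) : ∑ s, mkC E x y t s v * mkC E x y t s w = 0 := by
  have hC := mkC_A (E := E) x y t
  have c1 : ∀ p : Fin a × Fin b, mkC E x y t (cx p.1) (al p) =
      - (↑(t (To.al p)) * ↑(t (To.op p)) * ↑(t (To.ox p.1))⁻¹) := fun p => if_pos rfl
  have c2 : ∀ p : Fin a × Fin b, mkC E x y t (cx p.1) (ka p) =
      ↑(t (To.ka p)) * ↑(t (To.ox p.1)) * ↑(t (To.op p))⁻¹ := fun p => if_pos rfl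
  have c3 : ∀ p : Fin a × Fin b, mkC E x y t (cy p.2) (be p) =
      - (↑(t (To.be p)) * ↑(t (To.op p)) * ↑(t (To.oy p.2))⁻¹) := fun p => if_pos rfl
  have c4 : ∀ p : Fin a × Fin b, mkC E x y t (cp p) (al p) = ↑(t (To.al p)) := fun p => if_pos rfl
  have c5 : ∀ p : Fin a × Fin b, mkC E x y t (cp p) (be p) = ↑(t (To.be p)) := fun p => if_pos rfl
  have c6 : ∀ p : Fin a × Fin b, mkC E x y t (cp p) (nn p) = ↑(t (To.nn p)) := fun p => if_pos rfl
  have c7 : ∀ p : Fin a × Fin b, mkC E x y t (cp p) (ka p) = ↑(t (To.ka p)) := fun p => if_pos rfl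
  cases v <;> cases w <;> first | exact h.elim | skip
  · rename_i p
    have h1 := (t (To.ox p.1)).mul_inv
    have h2 := (t (To.op p)).mul_inv
    rw [sum_xi_ka hC, c2, c7]
    change x p.1 * ↑(t (To.ox p.1))⁻¹ * (↑(t (To.ka p)) * ↑(t (To.ox p.1)) * ↑(t (To.op p))⁻¹) +
      - (x p.1 * ↑(t (To.op p))⁻¹) * ↑(t (To.ka p)) = 0
    linear_combination (x p.1 * ↑(t (To.ka p)) * ↑(t (To.op p))⁻¹) * h1
  · rename_i l
    rw [sum_xi_yy hC]
    have h1 : ∀ p : Fin a × Fin b,
        (if E l p.1 p.2 then mkC E x y t (cp p) xi * mkC E x y t (cp p) (yy l) else 0) =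
        - ↑(t (To.yy l)) * (if E l p.1 p.2 then x p.1 * y p.2 else 0) := by
      intro p
      by_cases hp : E l p.1 p.2
      · rw [if_pos hp, if_pos hp]
        have h2 := (t (To.op p)).mul_inv
        change - (x p.1 * ↑(t (To.op p))⁻¹) *
          (if E l p.1 p.2 then ↑(t (To.yy l)) * y p.2 * ↑(t (To.op p)) else 0) = _
        rw [if_pos hp]
        linear_combination (- x p.1 * y p.2 * ↑(t (To.yy l))) * h2
      · rw [if_neg hp, if_neg hp, mul_zero]
    rw [Finset.sum_congr rfl fun p _ => h1 p, ← Finset.mul_sum, hxy l, mul_zero]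
  · rename_i p
    have h1 := (t (To.ox p.1)).mul_inv
    rw [sum_al_om hC, c1, c4]
    change - ((t (To.al p) : T) * ↑(t (To.op p)) * ↑(t (To.ox p.1))⁻¹) * ↑(t (To.ox p.1)) +
      ↑(t (To.al p)) * ↑(t (To.op p)) = 0
    linear_combination (- ↑(t (To.al p)) * ↑(t (To.op p))) * h1
  · rename_i p q
    have hpq : p = q := h
    subst hpq
    have h1 := (t (To.ox p.1)).mul_inv
    have h2 := (t (To.op p)).mul_inv
    rw [sum_al_ka hC, c1, c2, c4, c7]
    linear_combination (- ↑(t (To.al p)) * ↑(t (To.ka p)) * ↑(t (To.op p)) * ↑(t (To.op p))⁻¹) * h1 -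
      (↑(t (To.al p)) * ↑(t (To.ka p))) * h2
  · rename_i p
    have h1 := (t (To.oy p.2)).mul_inv
    rw [sum_be_om hC, c3, c5]
    change - ((t (To.be p) : T) * ↑(t (To.op p)) * ↑(t (To.oy p.2))⁻¹) * ↑(t (To.oy p.2)) +
      ↑(t (To.be p)) * ↑(t (To.op p)) = 0
    linear_combination (- ↑(t (To.be p)) * ↑(t (To.op p))) * h1
  · rename_i p
    have h1 := (t (To.oy p.2)).mul_inv
    rw [sum_be_vv hC, c3, c5]
    change - (↑(t (To.be p)) * ↑(t (To.op p)) * ↑(t (To.oy p.2))⁻¹) *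
      (y p.2 * ↑(t (To.oy p.2)) * ↑(t To.zt)) +
      ↑(t (To.be p)) * (y p.2 * ↑(t To.zt) * ↑(t (To.op p))) = 0
    linear_combination (- ↑(t (To.be p)) * ↑(t (To.op p)) * y p.2 * ↑(t To.zt)) * h1
  · rename_i p
    rw [sum_nn_vv hC, c6]
    change - (↑(t (To.nn p)) * y p.2 * ↑(t (To.op p))) * ↑(t To.zt) +
      ↑(t (To.nn p)) * (y p.2 * ↑(t To.zt) * ↑(t (To.op p))) = 0
    ring
  · rename_i p l
    rw [sum_nn_yy hC, c6]
    change - (↑(t (To.nn p)) * y p.2 * ↑(t (To.op p))) * ↑(t (To.yy l)) +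
      ↑(t (To.nn p)) * (if E l p.1 p.2 then ↑(t (To.yy l)) * y p.2 * ↑(t (To.op p)) else 0) = 0
    rw [if_pos (show E l p.1 p.2 from h)]
    ring

end mk

section solve

variable {T : Type} [CommRing T]

lemma r1 {A al op : T} (ox : Tˣ) (h : A * ox + al * op = 0) : -(al * op * ↑ox⁻¹) = A := by
  have h1 := ox.mul_inv
  linear_combination (-(↑ox⁻¹ : T)) * h + A * h1

lemma r2 {K ka : T} (al op ox : Tˣ) (h : -(al * op * ↑ox⁻¹) * K + al * ka = 0) :
    ka * ox * ↑op⁻¹ = K := by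
  have h1 := al.mul_inv
  have h2 := op.mul_inv
  have h3 := ox.mul_inv
  linear_combination (↑al⁻¹ * ↑op⁻¹ * ox : T) * h - ka * ox * ↑op⁻¹ * h1 +
    K * (op * ↑op⁻¹ * ox * ↑ox⁻¹ * h1 + ox * ↑ox⁻¹ * h2 + h3)

lemma r3 {x X : T} (ka op ox : Tˣ) (h : x * ↑ox⁻¹ * (ka * ox * ↑op⁻¹) + X * ka = 0) :
    -(x * ↑op⁻¹) = X := by
  have h1 := ka.mul_inv
  have h3 := ox.mul_inv
  linear_combination (-(↑ka⁻¹ : T)) * h + x * ↑op⁻¹ * (ka * ↑ka⁻¹ * h3 + h1) + X * h1

lemma r4 {y V0 op Z : T} (be oy : Tˣ) (h : -(be * op * ↑oy⁻¹) * (y * oy * V0) + be * Z = 0) :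
    y * V0 * op = Z := by
  have h1 := be.mul_inv
  have h3 := oy.mul_inv
  linear_combination (-(↑be⁻¹ : T)) * h - op * y * V0 * (be * ↑be⁻¹ * h3 + h1) + Z * h1

lemma r5 {N n y op : T} (V0 : Tˣ) (h : N * V0 + n * (y * V0 * op) = 0) : -(n * y * op) = N := by
  have h1 := V0.mul_inv
  linear_combination (-(↑V0⁻¹ : T)) * h + n * y * op * h1 + N * h1

lemma r6 {y op Y Y0 : T} (n : Tˣ) (h : -(n * y * op) * Y0 + n * Y = 0) : Y0 * y * op = Y := by
  have h1 := n.mul_inv
  linear_combination (-(↑n⁻¹ : T)) * h - y * op * Y0 * h1 + Y * h1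

end solve

section back

variable {T : Type} [CommRing T] {C : Co a b → Ve a b c → T} (hC : ∀ s v, ¬ PA E s v → C s v = 0)
  (hE : ∀ s v, PE s v → IsUnit (C s v)) (hS : ∀ v w, PS E v w → ∑ s, C s v * C s w = 0)

/-- the parameters of a family -/
noncomputable def tC (hE : ∀ s v, PE s v → IsUnit (C s v)) : To a b c → Tˣ
  | To.ox i => (hE (cx i) om trivial).unit
  | To.oy j => (hE (cy j) om trivial).unit
  | To.op p => (hE (cp p) om trivial).unit
  | To.al p => (hE (cp p) (al p) rfl).unit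
  | To.be p => (hE (cp p) (be p) rfl).unit
  | To.ka p => (hE (cp p) (ka p) rfl).unit
  | To.nn p => (hE (cp p) (nn p) rfl).unit
  | To.zt => (hE co zt trivial).unit
  | To.yy l => (hE co (yy l) trivial).unit

/-- the first unknowns -/
def xC' (C : Co a b → Ve a b c → T) (i : Fin a) : T := C (cx i) xi * C (cx i) om

/-- the second unknowns -/
noncomputable def yC' (hE : ∀ s v, PE s v → IsUnit (C s v)) (j : Fin b) : T :=
  C (cy j) zt * ↑(tC hE (To.oy j))⁻¹ * ↑(tC hE To.zt)⁻¹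

lemma b_zt (j : Fin b) : yC' hE j * ↑(tC hE (To.oy j)) * ↑(tC hE To.zt) = C (cy j) zt := by
  have h1 := (tC hE (To.oy j)).mul_inv
  have h2 := (tC hE To.zt).mul_inv
  rw [yC']
  linear_combination C (cy j) zt * (↑(tC hE To.zt) * ↑(tC hE To.zt)⁻¹ * h1 + h2)

lemma b_xi (i : Fin a) : xC' C i * ↑(tC hE (To.ox i))⁻¹ = C (cx i) xi := by
  have h1 := (tC hE (To.ox i)).mul_inv
  change (C (cx i) xi * (tC hE (To.ox i) : T)) * ↑(tC hE (To.ox i))⁻¹ = C (cx i) xi
  linear_combination C (cx i) xi * h1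

include hC hS

lemma b_al (p : Fin a × Fin b) : -((tC hE (To.al p) : T) * ↑(tC hE (To.op p)) *
    ↑(tC hE (To.ox p.1))⁻¹) = C (cx p.1) (al p) := by
  have h := hS (al p) om trivial
  rw [sum_al_om hC] at h
  exact r1 (tC hE (To.ox p.1)) h

lemma b_ka (p : Fin a × Fin b) : (tC hE (To.ka p) : T) * ↑(tC hE (To.ox p.1)) *
    ↑(tC hE (To.op p))⁻¹ = C (cx p.1) (ka p) := by
  have h := hS (al p) (ka p) rfl
  rw [sum_al_ka hC, ← b_al E hC hE hS] at h
  exact r2 (tC hE (To.al p)) (tC hE (To.op p)) (tC hE (To.ox p.1)) h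

lemma b_be (p : Fin a × Fin b) : -((tC hE (To.be p) : T) * ↑(tC hE (To.op p)) *
    ↑(tC hE (To.oy p.2))⁻¹) = C (cy p.2) (be p) := by
  have h := hS (be p) om trivial
  rw [sum_be_om hC] at h
  exact r1 (tC hE (To.oy p.2)) h

lemma b_xp (p : Fin a × Fin b) : -(xC' C p.1 * ↑(tC hE (To.op p))⁻¹) = C (cp p) xi := by
  have h := hS xi (ka p) trivial
  rw [sum_xi_ka hC, ← b_ka E hC hE hS, ← b_xi hE] at h
  exact r3 (tC hE (To.ka p)) (tC hE (To.op p)) (tC hE (To.ox p.1)) h

lemma b_zp (p : Fin a × Fin b) : yC' hE p.2 * ↑(tC hE To.zt) * ↑(tC hE (To.op p)) =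
    C (cp p) zt := by
  have h := hS (be p) zt trivial
  rw [sum_be_vv hC, ← b_be E hC hE hS, ← b_zt hE] at h
  exact r4 (tC hE (To.be p)) (tC hE (To.oy p.2)) h

lemma b_nn (p : Fin a × Fin b) : -((tC hE (To.nn p) : T) * yC' hE p.2 * ↑(tC hE (To.op p))) =
    C co (nn p) := by
  have h := hS (nn p) zt trivial
  rw [sum_nn_vv hC, ← b_zp E hC hE hS] at h
  exact r5 (tC hE To.zt) h

lemma b_yy (p : Fin a × Fin b) (l : Fin c) (hp : E l p.1 p.2) :
    (tC hE (To.yy l) : T) * yC' hE p.2 * ↑(tC hE (To.op p)) = C (cp p) (yy l) := by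
  have h := hS (nn p) (yy l) hp
  rw [sum_nn_yy hC, ← b_nn E hC hE hS] at h
  exact r6 (tC hE (To.nn p)) h

lemma b_eq (l : Fin c) :
    ∑ p : Fin a × Fin b, (if E l p.1 p.2 then xC' C p.1 * yC' hE p.2 else 0) = 0 := by
  have h := hS xi (yy l) trivial
  rw [sum_xi_yy hC] at h
  have h1 : ∀ p : Fin a × Fin b, (if E l p.1 p.2 then xC' C p.1 * yC' hE p.2 else 0) =
      - ↑(tC hE (To.yy l))⁻¹ * (if E l p.1 p.2 then C (cp p) xi * C (cp p) (yy l) else 0) := by
    intro p
    by_cases hp : E l p.1 p.2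
    · rw [if_pos hp, if_pos hp, ← b_xp E hC hE hS, ← b_yy E hC hE hS p l hp]
      have h2 := (tC hE (To.op p)).mul_inv
      have h3 := (tC hE (To.yy l)).mul_inv
      linear_combination (- (xC' C p.1 * yC' hE p.2)) * (↑(tC hE (To.yy l)) *
        ↑(tC hE (To.yy l))⁻¹ * h2 + h3)
    · rw [if_neg hp, if_neg hp, mul_zero]
  rw [Finset.sum_congr rfl fun p _ => h1 p, ← Finset.mul_sum, h, mul_zero]

lemma b_all (s : Co a b) (v : Ve a b c) : mkC E (xC' C) (yC' hE) (tC hE) s v = C s v := by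
  by_cases hsv : PA E s v
  · rcases s with u | i | j | q <;> cases v <;> first | exact hsv.elim | skip
    · exact b_nn E hC hE hS _
    · rfl
    · rfl
    · exact b_xi hE i
    · rename_i p
      have h : i = p.1 := hsv
      subst h
      exact (if_pos rfl).trans (b_al E hC hE hS p)
    · rfl
    · rename_i p
      have h : i = p.1 := hsv
      subst h
      exact (if_pos rfl).trans (b_ka E hC hE hS p)
    · rename_i p
      have h : j = p.2 := hsv
      subst h
      exact (if_pos rfl).trans (b_be E hC hE hS p)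
    · rfl
    · exact b_zt hE j
    · exact b_xp E hC hE hS q
    · rename_i p
      have h : q = p := hsv
      subst h
      exact if_pos rfl
    · rename_i p
      have h : q = p := hsv
      subst h
      exact if_pos rfl
    · rename_i p
      have h : q = p := hsv
      subst h
      exact if_pos rfl
    · rfl
    · rename_i p
      have h : q = p := hsv
      subst h
      exact if_pos rfl
    · exact b_zp E hC hE hS q
    · rename_i l
      exact (if_pos (show E l q.1 q.2 from hsv)).trans (b_yy E hC hE hS q l hsv)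
  · rw [mkC_A _ _ _ _ _ _ hsv, hC s v hsv]

end back

lemma units_map_inv {T T' : Type} [CommRing T] [CommRing T'] (g : T →+* T') (u : Tˣ) (v : T'ˣ)
    (h : (v : T') = g u) : (↑v⁻¹ : T') = g ↑u⁻¹ := by
  have h1 : v = Units.map (g : T →* T') u := Units.ext h
  rw [h1, ← map_inv]
  rfl

/-- The families of vectors are the solutions of the bilinear system and parameters. -/
noncomputable def gadIso (E : Fin c → Fin a → Fin b → Prop) :
    Iso (Bl R (PA E) PE (PS E)) (prd (Bs R E) (gm R (To a b c))) where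
  fwd T _ _ x := (⟨(xC' x.1, yC' x.2.2.1), b_eq E x.2.1 x.2.2.1 x.2.2.2⟩, tC x.2.2.1)
  bwd T _ _ v := ⟨mkC E v.1.1.1 v.1.1.2 v.2, mkC_A _ _ _ _, mkC_E E _ _ _,
    mkC_S E _ _ _ v.1.2⟩
  bf T _ _ x := Subtype.ext (funext fun s => funext fun v => b_all E x.2.1 x.2.2.1 x.2.2.2 s v)
  fb T _ _ v := by
    obtain ⟨⟨⟨x, y⟩, h⟩, t⟩ := v
    have ht : ∀ k, tC (mkC_E E x y t) k = t k := by
      intro k
      apply Units.ext
      cases k
      · rfl
      · rfl
      · rfl
      · exact if_pos rfl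
      · exact if_pos rfl
      · exact if_pos rfl
      · exact if_pos rfl
      · rfl
      · rfl
    refine Prod.ext (Subtype.ext (Prod.ext (funext fun i => ?_) (funext fun j => ?_)))
      (funext ht)
    · change (x i * ↑(t (To.ox i))⁻¹) * ↑(t (To.ox i)) = x i
      rw [mul_assoc, Units.inv_mul, mul_one]
    · change yC' (mkC_E E x y t) j = y j
      rw [yC', ht, ht]
      change (y j * ↑(t (To.oy j)) * ↑(t To.zt)) * ↑(t (To.oy j))⁻¹ * ↑(t To.zt)⁻¹ = y j
      have h1 := (t (To.oy j)).mul_inv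
      have h2 := (t To.zt).mul_inv
      linear_combination y j * (↑(t To.zt) * ↑(t To.zt)⁻¹ * h1 + h2)
  nat {T T'} _ _ _ _ g x := by
    have ht : ∀ k, tC ((Bl R (PA E) PE (PS E)).mp g x).2.2.1 k =
        Units.map (g : T →* T') (tC x.2.2.1 k) := by
      intro k
      apply Units.ext
      cases k <;> rfl
    refine Prod.ext (Subtype.ext (Prod.ext (funext fun i => ?_) (funext fun j => ?_)))
      (funext ht)
    · change g (x.1 (cx i) xi) * g (x.1 (cx i) om) = g (x.1 (cx i) xi * x.1 (cx i) om)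
      rw [map_mul]
    · change yC' ((Bl R (PA E) PE (PS E)).mp g x).2.2.1 j = g (yC' x.2.2.1 j)
      rw [yC', yC', ht, ht, map_mul, map_mul, ← map_inv, ← map_inv]
      rfl

open Pool.Agent.Y116.UV Pool.Agent.Z125.UN in
theorem hold_Bs {sep : Prop} {P : Sch R → Prop} (hP : Bnd sep P)
    (hH : ∀ (n : ℕ) (G : SimpleGraph (Fin n)), P (kirS R G)) (E : Fin c → Fin a → Fin b → Prop) :
    Hold P (Bs R E) := by
  have := Fintype.ofFinite (Ve a b c)
  exact hold_ungm hP.toUni (To a b c)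
    ((hold_bl hP hH (PA E) PE (PS E) Ve.sg (PS_sg E)).iso (gadIso E))

end Pool.Agent.H21.GH
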