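import Pool.Agent.H21.GH.Strata

/-!
# Zero blocks of the inverses
-/

set_option autoImplicit false
set_option linter.all false

open Matrix Pool.Agent.Y116.UV Pool.Agent.Z125.UN
open scoped Classical

namespace Pool.Agent.H21.GH

variable {R : Type} [CommRing R] {Ω : Type} [Fintype Ω] {Γ : Ω → Ω → Prop} {r : Ω → ℕ}

/-- The set `I` is a clique, and the neighbours in `U` of elements of `I` of smaller rank are
neighbours of those of larger rank. -/
structure Nest (Γ : Ω → Ω → Prop) (r : Ω → ℕ) (U I : Finset Ω) : Prop where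
  cl : ∀ j ∈ I, ∀ i ∈ I, j ≠ i → r j ≤ r i → Γ j i
  nb : ∀ j ∈ I, ∀ i ∈ I, j ≠ i → r j ≤ r i → ∀ a ∈ U, a ≠ i → Γ a j → Γ a i

lemma Nest.mono {U I U' I' : Finset Ω} (h : Nest Γ r U I) (hU : U' ⊆ U) (hI : I' ⊆ I) :
    Nest Γ r U' I' where
  cl j hj i hi := h.cl j (hI hj) i (hI hi)
  nb j hj i hi hji hr a ha := h.nb j (hI hj) i (hI hi) hji hr a (hU ha)

lemma Nest.frm {U I U' : Finset Ω} (h : Nest Γ r U I) (hU : U' ⊆ U) {j i : Ω} (hj : j ∈ I)
    (hi : i ∈ I) (hji : j ≠ i) (hr : r j ≤ r i) (hi' : i ∉ U') :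
    ∀ a ∈ U', (a = j ∨ Γ a j) → a ∈ U' ∧ Γ a i := by
  rintro a ha (rfl | h1)
  · exact ⟨ha, h.cl a hj i hi hji hr⟩
  · exact ⟨ha, h.nb j hj i hi hji hr a (hU ha) (fun h2 => hi' (h2 ▸ ha)) h1⟩

variable {sep : Prop} {P : Sch R → Prop}

section step

variable (hP : Bnd sep P) (hΓ : ∀ a b, Γ a b → Γ b a) {U I : Finset Ω} {m : Ω}
  (hI : I ⊆ U) (hm : m ∈ U) (hmI : m ∉ I) (hmax : ∀ j ∈ I, r j ≤ r m)
  (hN : Nest Γ r U (insert m I))

include hP hΓ hI hm hmI hmax hN

theorem hold_J (h0 : Hold P (FW R Γ U (ZI I)))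
    (hrec : ∀ i ∈ I, Hold P (FW R Γ ((U.erase m).erase i) (ZI (I.erase i)))) (J : Finset Ω) :
    J ⊆ I → Hold P (FW R Γ U (ZJ I m J)) := by
  refine Finset.induction_on_max_value r J ?_ ?_
  · intro _
    refine h0.iso (zIso fun a b => ?_)
    simp [ZI, ZJ]
  · intro i J hi' hJi ih hiJ
    have hi : i ∈ I := hiJ (Finset.mem_insert_self _ _)
    have hJ : J ⊆ I := fun j hj => hiJ (Finset.mem_insert_of_mem hj)
    have him : Γ i m := hN.cl i (Finset.mem_insert_of_mem hi) m (Finset.mem_insert_self _ _)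
      (fun h => hmI (h ▸ hi)) (hmax i hi)
    have hsub : (U.erase m).erase i ⊆ U :=
      (Finset.erase_subset _ _).trans (Finset.erase_subset _ _)
    have e1 := isAff_frm (R := R) (isAff_FW (R := R) (Γ := Γ) (U := (U.erase m).erase i)
      (Z := ZI (I.erase i))) (idMor _) (fun a => a ∈ (U.erase m).erase i ∧ Γ a m) (I.erase i)
    have h1 : Hold P (frm (idMor (FW R Γ ((U.erase m).erase i) (ZI (I.erase i))))
        (fun a => a ∈ (U.erase m).erase i ∧ Γ a m) (I.erase i)) := by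
      refine hold_frm hP isAff_FW (hrec i hi) _ ?_ ?_
      · exact fun j hj => mem2 hI hmI hj
      · intro j hj
        have hj' := Finset.mem_of_mem_erase hj
        exact hN.frm hsub (Finset.mem_insert_of_mem hj') (Finset.mem_insert_self _ _)
          (fun h => hmI (h ▸ hj')) (hmax j hj')
          fun h => Finset.notMem_erase m U (Finset.mem_of_mem_erase h)
    have h2 : Hold P (frm (frmMor (idMor (FW R Γ ((U.erase m).erase i) (ZI (I.erase i))))
        (fun a => a ∈ (U.erase m).erase i ∧ Γ a m) (I.erase i))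
        (fun a => a ∈ (U.erase m).erase i ∧ Γ a i) J) := by
      refine hold_frm hP e1 h1 _ ?_ ?_
      · exact fun j hj => mem2 hI hmI (Finset.mem_erase.2 ⟨fun h => hi' (h ▸ hj), hJ hj⟩)
      · intro j hj
        exact hN.frm hsub (Finset.mem_insert_of_mem (hJ hj)) (Finset.mem_insert_of_mem hi)
          (fun h => hi' (h ▸ hj)) (hJi j hj) (Finset.notMem_erase _ _)
    have e2 := isAff_frm (R := R) e1 (frmMor (idMor (FW R Γ ((U.erase m).erase i) (ZI (I.erase i))))
        (fun a => a ∈ (U.erase m).erase i ∧ Γ a m) (I.erase i))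
        (fun a => a ∈ (U.erase m).erase i ∧ Γ a i) J
    have h3 := hold_lin hP (aff_uni e2) (hold_uni hP e2 h2) Unit (fun _ => True)
    have h4 := hold_van hP.toUni isAff_FW (entM R Γ U (ZJ I m J) m i) (ih hJ)
      (h3.iso (iso2 hΓ hm hI hmI hi hJ hi' him).symm)
    refine h4.iso ((vanIso m i).trans (zIso fun a b => ?_))
    simp only [ZJ, Finset.mem_insert]
    constructor
    · rintro ((h | h | h) | h | h)
      · exact Or.inl h
      · exact Or.inr (Or.inl ⟨h.1, Or.inr h.2⟩)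
      · exact Or.inr (Or.inr ⟨h.1, Or.inr h.2⟩)
      · exact Or.inr (Or.inl ⟨h.1, Or.inl h.2⟩)
      · exact Or.inr (Or.inr ⟨h.2, Or.inl h.1⟩)
    · rintro (h | ⟨h, h' | h'⟩ | ⟨h, h' | h'⟩)
      · exact Or.inl (Or.inl h)
      · exact Or.inr (Or.inl ⟨h, h'⟩)
      · exact Or.inl (Or.inr (Or.inl ⟨h, h'⟩))
      · exact Or.inr (Or.inr ⟨h', h⟩)
      · exact Or.inl (Or.inr (Or.inr ⟨h, h'⟩))

theorem hold_step (h0 : Hold P (FW R Γ U (ZI I))) (h1 : Hold P (FW R Γ (U.erase m) (ZI I)))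
    (hrec : ∀ i ∈ I, Hold P (FW R Γ ((U.erase m).erase i) (ZI (I.erase i)))) :
    Hold P (FW R Γ U (ZI (insert m I))) := by
  have k1 := hold_J hP hΓ hI hm hmI hmax hN h0 hrec I (Finset.Subset.refl _)
  have k2 : Hold P (frm (idMor (FW R Γ (U.erase m) (ZI I)))
      (fun a => a ∈ U.erase m ∧ Γ a m) I) := by
    refine hold_frm hP isAff_FW h1 _ ?_ ?_
    · exact fun j hj => Finset.mem_erase.2 ⟨fun h => hmI (h ▸ hj), hI hj⟩
    · intro j hj
      exact hN.frm (Finset.erase_subset _ _) (Finset.mem_insert_of_mem hj)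
        (Finset.mem_insert_self _ _) (fun h => hmI (h ▸ hj)) (hmax j hj) (Finset.notMem_erase _ _)
  have k3 := hold_uni hP (isAff_frm isAff_FW _ _ _) k2
  have k4 := hold_van hP.toUni isAff_FW (entM R Γ U (ZJ I m I) m m) k1
      (k3.iso (iso1 hΓ hm hI hmI).symm)
  refine k4.iso ((vanIso m m).trans (zIso fun a b => ?_))
  simp only [ZJ, ZI, Finset.mem_insert]
  constructor
  · rintro ((h | h | h) | h | h)
    · exact ⟨Or.inr h.1, Or.inr h.2⟩
    · exact ⟨Or.inl h.1, Or.inr h.2⟩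
    · exact ⟨Or.inr h.2, Or.inl h.1⟩
    · exact ⟨Or.inl h.1, Or.inl h.2⟩
    · exact ⟨Or.inl h.1, Or.inl h.2⟩
  · rintro ⟨h | h, h' | h'⟩
    · exact Or.inr (Or.inl ⟨h, h'⟩)
    · exact Or.inl (Or.inr (Or.inl ⟨h, h'⟩))
    · exact Or.inl (Or.inr (Or.inr ⟨h', h⟩))
    · exact Or.inl (Or.inl ⟨h, h'⟩)

end step

theorem hold_nest (hP : Bnd sep P) (hΓ : ∀ a b, Γ a b → Γ b a)
    (hb : ∀ U : Finset Ω, Hold P (FW R Γ U fun _ _ => False)) (r : Ω → ℕ) (n : ℕ) :
    ∀ U I : Finset Ω, I ⊆ U → Nest Γ r U I → I.card = n → Hold P (FW R Γ U (ZI I)) := by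
  induction n using Nat.strong_induction_on with
  | _ n ih =>
    intro U I hI hN hc
    rcases I.eq_empty_or_nonempty with rfl | hne
    · refine (hb U).iso (zIso fun a b => ?_)
      simp [ZI]
    · obtain ⟨m, hmI, hmax⟩ := Finset.exists_max_image I r hne
      have e : insert m (I.erase m) = I := Finset.insert_erase hmI
      have hc1 : (I.erase m).card < n := by
        rw [← hc]
        exact Finset.card_erase_lt_of_mem hmI
      rw [← e]
      refine hold_step (r := r) hP hΓ ((Finset.erase_subset _ _).trans hI) (hI hmI)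
        (Finset.notMem_erase _ _) ?_ (by rwa [e]) ?_ ?_ ?_
      · intro j hj
        exact hmax j (Finset.mem_of_mem_erase hj)
      · exact ih _ hc1 U _ ((Finset.erase_subset _ _).trans hI)
          (hN.mono (Finset.Subset.refl _) (Finset.erase_subset _ _)) rfl
      · refine ih _ hc1 (U.erase m) _ (Finset.erase_subset_erase _ hI)
          (hN.mono (Finset.erase_subset _ _) (Finset.erase_subset _ _)) rfl
      · intro i hi
        have hc2 : ((I.erase m).erase i).card < n :=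
          lt_of_le_of_lt (Finset.card_le_card (Finset.erase_subset _ _)) hc1
        refine ih _ hc2 _ _ (Finset.erase_subset_erase _ (Finset.erase_subset_erase _ hI))
          (hN.mono ?_ ?_) rfl
        · exact (Finset.erase_subset _ _).trans (Finset.erase_subset _ _)
        · exact (Finset.erase_subset _ _).trans (Finset.erase_subset _ _)

end Pool.Agent.H21.GH
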