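import Pool.Agent.H21.GH.Univ
import Pool.Graph.R_pool_sql_team_seeded_2aa45f1a.Q193.LT.Sums

/-!
# Motives of graph hypersurfaces
-/

set_option autoImplicit false
set_option linter.all false

open CategoryTheory CategoryTheory.Limits AlgebraicGeometry MvPolynomial Pool.Agent.Y116.UV
  Pool.Agent.Z125.UN Pool.Agent.Q282.UK Pool.Agent.Q193.LT

universe v u

namespace Pool.Agent.H21.GH

lemma kirS_point (R : Type) [CommRing R] :
    Nonempty (kirS R (⊥ : SimpleGraph (Fin 1)) ≅ aff R R) := by
  obtain ⟨e⟩ := ((repVec R (Fin 1 ⊕ (⊥ : SimpleGraph (Fin 1)).edgeSet)).van fun _ : Unit =>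
    kirF R (⊥ : SimpleGraph (Fin 1))).equiv (repOne.iso (ptIso (R := R)).symm)
  have e1 : (MvPolynomial (Fin 1 ⊕ (⊥ : SimpleGraph (Fin 1)).edgeSet) R ⧸
      Ideal.span {kir R (⊥ : SimpleGraph (Fin 1))}) ≃ₐ[R]
      (MvPolynomial (Fin 1 ⊕ (⊥ : SimpleGraph (Fin 1)).edgeSet) R ⧸
        Ideal.span (Set.range fun _ : Unit => kir R (⊥ : SimpleGraph (Fin 1)))) :=
    Ideal.quotientEquivAlgOfEq R (span_unit _ _).symm
  exact ⟨(affIso (e1.trans e)).symm⟩

lemma ft_kirS {R : Type} [CommRing R] {n : ℕ} (G : SimpleGraph (Fin n)) (sep : Prop) :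
    FT sep (kirS R G) := ft_aff sep

section

variable {k : Type} [Field k] {A : Type u} [Category.{v} A] [Abelian A]

/-- The objects `H^i_c(X)` for the graph hypersurfaces `X` of the cones over all finite graphs. -/
def OfKir (D : CompactData k A) (N : A) : Prop :=
  ∃ (n : ℕ) (G : SimpleGraph (Fin n)) (i : ℤ), N = D.H i (kirS k G)

variable {D : CompactData k A} (hD : IsCompact D)

include hD

/-- A Serre class that is stable under Tate twists and contains the cohomology with compact supports
of the graph hypersurfaces contains that of all schemes. -/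
theorem serre_kir (hk : Frac k) {S : A → Prop} (hS : IsTateSerre D S)
    (h : ∀ (n : ℕ) (G : SimpleGraph (Fin n)) (i : ℤ), S (D.H i (kirS k G))) (X : Sch k)
    (hX : FT True X) (i : ℤ) : S (D.H i X) := by
  have h1 : ∀ i, S (D.H i (aff k k)) := by
    intro i
    obtain ⟨e⟩ := hD.iso (ft_kirS _ True) (kirS_point k) i
    exact hS.toIsSerre.iso e (h 1 ⊥ i)
  exact universal (P := fun X : Sch k => ∀ n, S (D.H n X)) hk (bnd_compact hD hS h1) h X hX i

variable (hss : ∀ {X Y : A} (f : X ⟶ Y), Mono f → ∃ r : Y ⟶ X, f ≫ r = 𝟙 X)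

include hss

/-- Every `H^i_c(X)` is a direct factor of a finite direct sum of Tate twists of the cohomology of
graph hypersurfaces. -/
theorem factor_kir (hk : Frac k) (X : Sch k) (hX : FT True X) (i : ℤ) :
    FactorOfSum D (OfKir D) (D.H i X) :=
  serre_kir hD hk (gen_serre hD hss) (fun n G i => FactorOfSum.self hD ⟨n, G, i, rfl⟩) X hX i

variable (hg : Generated D) {P : A → Prop}
  (hP : ∀ {X Y : A} (i : X ⟶ Y) (r : Y ⟶ X), i ≫ r = 𝟙 X → P Y → P X)

include hg in
/-- Every `H^i_c(X)` is a direct factor of a finite direct sum of Tate twists of the cohomology of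
smooth projective varieties. -/
theorem factor_proj [PerfectField k] (X : Sch k) (hX : FT True X) (i : ℤ) :
    FactorOfSum D (OfProjAll D) (D.H i X) := by
  have h1 : ∀ Y : Sch k, SmoothProj Y → ∀ i, FactorOfSum D (OfProjAll D) (D.H i Y) :=
    fun Y hY i => FactorOfSum.self hD ⟨Y, i, hY, rfl⟩
  have h0 := point_factor hD hg hss 0 fun Y hY _ => h1 Y hY
  exact (all_iff (bnd_compact hD (gen_serre hD hss) h0)).mpr
    ((proj_all_iff hD hg (gen_serre hD hss) h0).mp h1) X hX i

include hg hP in
/-- Finite direct sums of motives of smooth projective varieties, and finite direct sums of motives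
of graph hypersurfaces. -/
theorem sums_kir_iff [PerfectField k] (hk : Frac k) :
    SumsHave D (OfProjAll D) P ↔ SumsHave D (OfKir D) P := by
  constructor
  · refine sumsHave_of_gen hD hss hP fun N hN => ?_
    obtain ⟨n, G, i, rfl⟩ := hN
    exact factor_proj hD hss hg _ (ft_kirS G True) i
  · refine sumsHave_of_gen hD hss hP fun N hN => ?_
    obtain ⟨Y, i, hY, rfl⟩ := hN
    exact factor_kir hD hss hk Y hY.ft i

end

end Pool.Agent.H21.GH
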