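import Pool.Agent.H21.GH.Mot
import Pool.Graph.R_pool_sql_team_seeded_2aa45f1a.Q282.UM.Pack

/-!
# Properties of motives that are closed under finite direct sums, and graph hypersurfaces
-/

set_option autoImplicit false

open CategoryTheory Limits AlgebraicGeometry Pool.Agent.Y116.UV Pool.Agent.Z125.UN
  Pool.Agent.Q282.UM

namespace Pool.Agent.H21.GH

universe v u

section

variable {k : Type} [Field k] {A : Type u} [Category.{v} A]

/-- All direct summands of the twists `H^j(X_G)(n)` of the cohomology of the graph hypersurfaces `X_G`
of the cones over all finite graphs `G` have the property `Q`. -/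
def ForKir (D : Motives k A) (Q : A → Prop) : Prop :=
  ∀ (m : ℕ) (G : SimpleGraph (Fin m)) (j n : ℤ) (M : A),
    IsSummand M ((D.tw n).obj (D.H j (kirS k G))) → Q M

end

variable {k : Type} [Field k] {A : Type u} [Category.{v} A] [Abelian A] {Q : A → Prop}
  (hQ : SumClosed Q) {D : Motives k A} (hD : IsMotives D)

include hQ hD

/-- If all direct summands of the twists of the cohomology of the graph hypersurfaces have the
property, so do those of all schemes. -/
theorem good_kir (hk : Pool.Agent.Q193.LT.Frac k) (h : ForKir D Q) (X : Sch k) (hX : FT True X) :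
    GoodS D Q X := by
  have hp : GoodS D Q (aff k k) := fun n =>
    good_iso (hD.iso (ft_kirS _ True) (kirS_point k) n) fun m M hM => h 1 ⊥ n m M hM
  exact universal (P := fun X : Sch k => GoodS D Q X) hk (bnd_good hD hQ hp)
    (fun m G j n M hM => h m G j n M hM) X hX

theorem pack_kir (hk : Pool.Agent.Q193.LT.Frac k) (hg : IsGenerated D) :
    (∀ M : A, Q M) ↔ ForKir D Q := by
  constructor
  · intro h m G j n M _
    exact h M
  · intro h M
    obtain ⟨X, n, hX, hM⟩ := hg M
    exact good_iso (hD.projective X hX).1 (good_kir hQ hD hk h X (ft_projective hX) 0) n M hM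

end Pool.Agent.H21.GH
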