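import Pool.Agent.H21.GH.Fun

/-!
# Products with affine spaces and with tori
-/

set_option autoImplicit false
set_option linter.all false

open CategoryTheory AlgebraicGeometry MvPolynomial Pool.Agent.Y116.UV Pool.Agent.Z125.UN
  Pool.Agent.Q282.UK

namespace Pool.Agent.H21.GH

variable {R : Type} [CommRing R]

/-- The functor with one point. -/
abbrev one (R : Type) [CommRing R] : Fn R where
  pt _ _ _ := Unit
  mp _ x := x
  mp_id _ := rfl
  mp_comp _ _ _ := rfl

/-- The functions on `α` which vanish outside of `A`. -/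
abbrev lin (R : Type) [CommRing R] (α : Type) (A : α → Prop) : Fn R where
  pt T _ _ := {v : α → T // ∀ a, ¬ A a → v a = 0}
  mp g v := ⟨fun a => g (v.1 a), fun a ha => by
    change g (v.1 a) = 0
    rw [v.2 a ha, map_zero]⟩
  mp_id _ := rfl
  mp_comp _ _ _ := rfl

/-- The invertible elements. -/
abbrev uni (R : Type) [CommRing R] : Fn R where
  pt T _ _ := Tˣ
  mp g v := Units.map (g : _ →* _) v
  mp_id _ := Units.ext rfl
  mp_comp _ _ _ := Units.ext rfl

/-- The families of invertible elements. -/
abbrev gm (R : Type) [CommRing R] (α : Type) : Fn R where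
  pt T _ _ := α → Tˣ
  mp g v := fun a => Units.map (g : _ →* _) (v a)
  mp_id _ := funext fun _ => Units.ext rfl
  mp_comp _ _ _ := funext fun _ => Units.ext rfl

/-- The product of two functors. -/
abbrev prd (F F' : Fn R) : Fn R where
  pt T _ _ := F.pt T × F'.pt T
  mp g x := (F.mp g x.1, F'.mp g x.2)
  mp_id x := Prod.ext (F.mp_id x.1) (F'.mp_id x.2)
  mp_comp g h x := Prod.ext (F.mp_comp g h x.1) (F'.mp_comp g h x.2)

variable {F F' F'' G G' : Fn R}

def prdIso (e : Iso F F') (e' : Iso G G') : Iso (prd F G) (prd F' G') where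
  fwd T _ _ x := (e.fwd T x.1, e'.fwd T x.2)
  bwd T _ _ x := (e.bwd T x.1, e'.bwd T x.2)
  bf T _ _ x := Prod.ext (e.bf T x.1) (e'.bf T x.2)
  fb T _ _ x := Prod.ext (e.fb T x.1) (e'.fb T x.2)
  nat g x := Prod.ext (e.nat g x.1) (e'.nat g x.2)

def idIso (F : Fn R) : Iso F F where
  fwd _ _ _ x := x
  bwd _ _ _ x := x
  bf _ _ _ _ := rfl
  fb _ _ _ _ := rfl
  nat _ _ := rfl

def assocIso (F G G' : Fn R) : Iso (prd (prd F G) G') (prd F (prd G G')) where
  fwd _ _ _ x := (x.1.1, (x.1.2, x.2))
  bwd _ _ _ x := ((x.1, x.2.1), x.2.2)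
  bf _ _ _ _ := rfl
  fb _ _ _ _ := rfl
  nat _ _ := rfl

def swapIso (F G : Fn R) : Iso (prd F G) (prd G F) where
  fwd _ _ _ x := (x.2, x.1)
  bwd _ _ _ x := (x.2, x.1)
  bf _ _ _ _ := rfl
  fb _ _ _ _ := rfl
  nat _ _ := rfl

section rep

variable {B : Type} [CommRing B] [Algebra R B]

def repOne : Rep (one R) R where
  u := ()
  ex T _ _ _ := ⟨Algebra.ofId R T, rfl⟩
  un T _ _ g h _ := by
    ext

open Classical in
noncomputable def repLin (r : Rep F B) (α : Type) (A : α → Prop) :
    Rep (prd F (lin R α A)) (MvPolynomial {a // A a} B) where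
  u := (F.mp (IsScalarTower.toAlgHom R B (MvPolynomial {a // A a} B)) r.u,
    ⟨fun a => if h : A a then X ⟨a, h⟩ else 0, fun a ha => dif_neg ha⟩)
  ex T _ _ x := by
    obtain ⟨g, hg⟩ := r.ex T x.1
    refine ⟨aevalTower g fun a : {a // A a} => x.2.1 a.1, ?_⟩
    refine Prod.ext ?_ (Subtype.ext (funext fun a => ?_))
    · change F.mp _ (F.mp _ r.u) = x.1
      rw [← F.mp_comp]
      refine Eq.trans ?_ hg
      congr 1
      ext b
      change aevalTower g (fun a : {a // A a} => x.2.1 a.1) (algebraMap B _ b) = g b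
      rw [algebraMap_eq, aevalTower_C]
    · change aevalTower g (fun a : {a // A a} => x.2.1 a.1)
        (if h : A a then X ⟨a, h⟩ else 0 : MvPolynomial {a // A a} B) = x.2.1 a
      split_ifs with h
      · rw [aevalTower_X]
      · rw [map_zero, x.2.2 a h]
  un T _ _ g h hgh := by
    have h1 : F.mp g (F.mp (IsScalarTower.toAlgHom R B (MvPolynomial {a // A a} B)) r.u) =
      F.mp h (F.mp (IsScalarTower.toAlgHom R B (MvPolynomial {a // A a} B)) r.u) :=
        congrArg Prod.fst hgh
    rw [← F.mp_comp, ← F.mp_comp] at h1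
    have h2 := r.un _ _ _ h1
    apply MvPolynomial.algHom_ext'
    · exact h2
    · rintro ⟨a, ha⟩
      have h3 := congrFun (congrArg Subtype.val (congrArg Prod.snd hgh)) a
      change g (if h : A a then X ⟨a, h⟩ else 0 : MvPolynomial {a // A a} B) =
        h (if h : A a then X ⟨a, h⟩ else 0 : MvPolynomial {a // A a} B) at h3
      rwa [dif_pos ha] at h3

noncomputable def repUni (r : Rep F B) : Rep (prd F (uni R)) (LaurentPolynomial B) where
  u := (F.mp (IsScalarTower.toAlgHom R B (LaurentPolynomial B)) r.u,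
    (LaurentPolynomial.isUnit_T 1).unit)
  ex T _ _ x := by
    obtain ⟨g, hg⟩ := r.ex T x.1
    let t : Tˣ := x.2
    let w : LaurentPolynomial B →+* T := LaurentPolynomial.eval₂ (g : B →+* T) t
    have hw : ∀ b : B, w (LaurentPolynomial.C b) = g b := fun b =>
      LaurentPolynomial.eval₂_C _ _ _
    have hT : w (LaurentPolynomial.T 1) = t :=
      (LaurentPolynomial.eval₂_T _ _ _).trans (by rw [zpow_one])
    let w' : LaurentPolynomial B →ₐ[R] T :=
      { w with
        commutes' := fun s => by
          change w (algebraMap R (LaurentPolynomial B) s) = _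
          rw [IsScalarTower.algebraMap_apply R B (LaurentPolynomial B)]
          have h1 : algebraMap B (LaurentPolynomial B) (algebraMap R B s) =
            LaurentPolynomial.C (algebraMap R B s) := rfl
          rw [h1, hw, g.commutes] }
    refine ⟨w', Prod.ext ?_ (Units.ext hT)⟩
    change F.mp _ (F.mp _ r.u) = x.1
    rw [← F.mp_comp]
    refine Eq.trans ?_ hg
    congr 1
    ext b
    exact hw b
  un T _ _ g h hgh := by
    have h1 : F.mp g (F.mp (IsScalarTower.toAlgHom R B (LaurentPolynomial B)) r.u) =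
      F.mp h (F.mp (IsScalarTower.toAlgHom R B (LaurentPolynomial B)) r.u) :=
        congrArg Prod.fst hgh
    rw [← F.mp_comp, ← F.mp_comp] at h1
    have h2 := r.un _ _ _ h1
    have h3 : g (LaurentPolynomial.T 1) = h (LaurentPolynomial.T 1) :=
      congrArg Units.val (congrArg Prod.snd hgh)
    apply AlgHom.coe_ringHom_injective
    apply IsLocalization.ringHom_ext (Submonoid.powers (Polynomial.X : Polynomial B))
    apply Polynomial.ringHom_ext
    · intro b
      have h4 := DFunLike.congr_fun h2 b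
      simpa [LaurentPolynomial.algebraMap_eq_toLaurent] using h4
    · simpa [LaurentPolynomial.algebraMap_eq_toLaurent] using h3

end rep

lemma isAff_one : IsAff (one R) := ⟨R, inferInstance, inferInstance, inferInstance, ⟨repOne⟩⟩

lemma aff_lin (h : IsAff F) (α : Type) [Finite α] (A : α → Prop) : IsAff (prd F (lin R α A)) := by
  obtain ⟨B, i1, i2, i3, ⟨r⟩⟩ := h
  exact ⟨_, inferInstance, inferInstance, Algebra.FiniteType.trans (S := B) inferInstance
    inferInstance, ⟨repLin r α A⟩⟩

lemma aff_uni (h : IsAff F) : IsAff (prd F (uni R)) := by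
  obtain ⟨B, i1, i2, i3, ⟨r⟩⟩ := h
  exact ⟨_, inferInstance, inferInstance, ft_laurent B, ⟨repUni r⟩⟩

/-- `lin` is the product of a point and of `lin`. -/
def linIso (α : Type) (A : α → Prop) : Iso (prd (one R) (lin R α A)) (lin R α A) where
  fwd _ _ _ x := x.2
  bwd _ _ _ x := ((), x)
  bf _ _ _ _ := rfl
  fb _ _ _ _ := rfl
  nat _ _ := rfl

lemma isAff_lin (α : Type) [Finite α] (A : α → Prop) : IsAff (lin R α A) :=
  (aff_lin isAff_one α A).iso (linIso α A)

/-- a coordinate -/
def crd (F : Fn R) {α : Type} (A : α → Prop) (a : α) : Fun (prd F (lin R α A)) where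
  f _ _ _ x := x.2.1 a
  nat _ _ := rfl

/-- the first factor, as a closed part of the product with the affine line -/
def zeroIso (F : Fn R) : Iso F
    (van (prd F (lin R Unit fun _ => True)) fun _ : Unit => crd F (fun _ => True) ()) where
  fwd T _ _ x := ⟨(x, ⟨fun _ => 0, fun _ _ => rfl⟩), fun _ => rfl⟩
  bwd T _ _ x := x.1.1
  bf T _ _ x := rfl
  fb T _ _ x := by
    apply Subtype.ext
    refine Prod.ext rfl (Subtype.ext (funext fun a => ?_))
    exact (x.2 ()).symm
  nat g x := by
    apply Subtype.ext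
    refine Prod.ext rfl (Subtype.ext (funext fun a => ?_))
    exact (map_zero g).symm

/-- the product with the invertible elements, as an open part of the product with the affine line -/
noncomputable def unitIso (F : Fn R) : Iso (prd F (uni R))
    (inv (prd F (lin R Unit fun _ => True)) (crd F (fun _ => True) ())) where
  fwd T _ _ x := ⟨(x.1, ⟨fun _ => Units.val (α := T) x.2, fun a ha => absurd trivial ha⟩),
    Units.isUnit (M := T) x.2⟩
  bwd T _ _ x := (x.1.1, x.2.unit)
  bf T _ _ x := Prod.ext rfl (Units.ext rfl)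
  fb T _ _ x := rfl
  nat g x := rfl

section hold

variable {sep : Prop} {P : Sch R → Prop}

lemma poly_down (hP : Uni sep P) {B : Type} [CommRing B] [Algebra R B] [Algebra.FiniteType R B]
    (τ : Type) [Fintype τ] (h : P (aff R (MvPolynomial τ B))) : P (aff R B) := by
  have hf : Algebra.FiniteType R (MvPolynomial τ B) :=
    Algebra.FiniteType.trans (S := B) inferInstance inferInstance
  have h1 : P (aff R (MvPolynomial (Fin (Fintype.card τ)) B)) :=
    iso_alg hP ((renameEquiv B (Fintype.equivFin τ)).restrictScalars R) h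
  have h2 : P (aff R (Jou (f1 B (Fintype.card τ)))) :=
    iso_alg hP ((jouOne B (Fintype.card τ)).symm.restrictScalars R) h1
  refine hP.jouanolou B _ (f1 B (Fintype.card τ)) (aff R B) (𝟙 _) ?_ ?_ h2
  · exact inferInstanceAs (IsOpenImmersion (𝟙 (aff R B).left))
  · have h1 : Set.range (𝟙 (aff R B) : aff R B ⟶ aff R B).left = Set.univ := Set.range_id
    have h2 : {x : PrimeSpectrum B | ∃ l, f1 B (Fintype.card τ) l ∉ x.asIdeal} = Set.univ := by
      rw [Set.eq_univ_iff_forall]
      intro x
      exact ⟨0, fun h => x.isPrime.ne_top ((Ideal.eq_top_iff_one _).mpr h)⟩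
    exact h1.trans h2.symm

theorem hold_lin (hP : Bnd sep P) (hF : IsAff F) (h : Hold P F) (α : Type) [Finite α]
    (A : α → Prop) : Hold P (prd F (lin R α A)) := by
  classical
  have := Fintype.ofFinite α
  obtain ⟨B, i1, i2, i3, ⟨r⟩⟩ := hF
  have hf : Algebra.FiniteType R (MvPolynomial {a // A a} B) :=
    Algebra.FiniteType.trans (S := B) inferInstance inferInstance
  exact hold_of_rep hP.toUni (repLin r α A) (p_poly hP _ (h B r))

theorem hold_unlin (hP : Bnd sep P) (α : Type) [Finite α] (A : α → Prop)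
    (h : Hold P (prd F (lin R α A))) : Hold P F := by
  classical
  have := Fintype.ofFinite α
  intro B _ _ _ r
  have hf : Algebra.FiniteType R (MvPolynomial {a // A a} B) :=
    Algebra.FiniteType.trans (S := B) inferInstance inferInstance
  exact poly_down hP.toUni _ (h _ (repLin r α A))

theorem hold_uni (hP : Bnd sep P) (hF : IsAff F) (h : Hold P F) : Hold P (prd F (uni R)) :=
  (hold_inv hP.toUni (aff_lin hF Unit fun _ => True) (crd F (fun _ => True) ())
    (hold_lin hP hF h Unit fun _ => True) (h.iso (zeroIso F))).iso (unitIso F).symm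

theorem hold_ununi (hP : Uni sep P) (h : Hold P (prd F (uni R))) : Hold P F := by
  intro B _ _ _ r
  have := ft_laurent (R := R) B
  exact hP.torus B (h _ (repUni r))

end hold

/-- one more invertible element -/
def gmSucc (F : Fn R) (n : ℕ) : Iso (prd (prd F (gm R (Fin n))) (uni R)) (prd F (gm R (Fin (n + 1)))) where
  fwd T _ _ x := (x.1.1, Fin.cons x.2 x.1.2)
  bwd T _ _ x := ((x.1, fun i => x.2 i.succ), x.2 0)
  bf T _ _ x := rfl
  fb T _ _ x := Prod.ext rfl (funext fun i => by
    refine Fin.cases ?_ (fun j => ?_) i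
    · rfl
    · rfl)
  nat g x := Prod.ext rfl (funext fun i => by
    refine Fin.cases ?_ (fun j => ?_) i
    · rfl
    · rfl)

def gmZero (F : Fn R) : Iso F (prd F (gm R (Fin 0))) where
  fwd T _ _ x := (x, Fin.elim0)
  bwd T _ _ x := x.1
  bf T _ _ x := rfl
  fb T _ _ x := Prod.ext rfl (funext fun i => i.elim0)
  nat g x := Prod.ext rfl (funext fun i => i.elim0)

def gmEquiv (F : Fn R) {α β : Type} (e : α ≃ β) : Iso (prd F (gm R α)) (prd F (gm R β)) where
  fwd T _ _ x := (x.1, fun b => x.2 (e.symm b))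
  bwd T _ _ x := (x.1, fun a => x.2 (e a))
  bf T _ _ x := Prod.ext rfl (funext fun i => by simp)
  fb T _ _ x := Prod.ext rfl (funext fun i => by simp)
  nat g x := rfl

lemma isAff_gm_fin (h : IsAff F) (n : ℕ) : IsAff (prd F (gm R (Fin n))) := by
  induction n with
  | zero => exact h.iso (gmZero F)
  | succ n ih => exact (aff_uni ih).iso (gmSucc F n)

lemma aff_gm (h : IsAff F) (α : Type) [Finite α] : IsAff (prd F (gm R α)) := by
  obtain ⟨n, ⟨e⟩⟩ := Finite.exists_equiv_fin α
  exact (isAff_gm_fin h n).iso (gmEquiv F e.symm)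

section hold

variable {sep : Prop} {P : Sch R → Prop}

theorem hold_gm (hP : Bnd sep P) (hF : IsAff F) (h : Hold P F) (α : Type) [Finite α] :
    Hold P (prd F (gm R α)) := by
  obtain ⟨n, ⟨e⟩⟩ := Finite.exists_equiv_fin α
  refine Hold.iso ?_ (gmEquiv F e.symm)
  clear e
  induction n with
  | zero => exact h.iso (gmZero F)
  | succ n ih => exact (hold_uni hP (isAff_gm_fin hF n) ih).iso (gmSucc F n)

theorem hold_ungm (hP : Uni sep P) (α : Type) [Finite α] (h : Hold P (prd F (gm R α))) :
    Hold P F := by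
  obtain ⟨n, ⟨e⟩⟩ := Finite.exists_equiv_fin α
  have h1 := h.iso (gmEquiv F e)
  clear h e
  induction n with
  | zero => exact h1.iso (gmZero F).symm
  | succ n ih => exact ih (hold_ununi hP (h1.iso (gmSucc F n).symm))

end hold

end Pool.Agent.H21.GH
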