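import Pool.Agent.H21.GH.Elim

/-!
# The strata
-/

set_option autoImplicit false
set_option linter.all false

open Matrix Pool.Agent.Y116.UV Pool.Agent.Z125.UN
open scoped Classical

namespace Pool.Agent.H21.GH

section gen

variable {Ω Q T : Type} [Fintype Ω] [Fintype Q] [DecidableEq Q] [CommRing T] {ι : Q → Ω}
  {U U0 : Finset Ω} {Γ Z Z0 : Ω → Ω → Prop}

lemma up_down (h : Cut U U0 ι) (x : PtW Γ U Z T) (N' : Matrix Q Q T)
    (hNN : blk ι x.M * N' = 1) (hN' : N'ᵀ = N') :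
    addW (res U0 x.W) (subM ι x.M N') (inc T ι) (col U0 ι x.W) N' = x.W := by
  rw [addW, (down_all x N' h hNN hN').2.2.2, res_eq x h]
  abel

lemma res_up (h : Cut U U0 ι) (x : PtW Γ U0 Z0 T) (w : Matrix Ω Q T) (N' : Matrix Q Q T) :
    res U0 (addW x.W x.M (inc T ι) w N') = x.W := by
  ext a b
  rw [res, Matrix.of_apply]
  split_ifs with h'
  · exact addW_00 h x w N' h'.1 h'.2
  · by_cases ha : a ∈ U0
    · rw [x.W_symm, x.W_out _ _ fun hb => h' ⟨ha, hb⟩]
    · rw [x.W_out _ _ ha]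

lemma col_up (h : Cut U U0 ι) (x : PtW Γ U0 Z0 T) (w : Matrix Ω Q T) (N' : Matrix Q Q T)
    (hw : ∀ a q, a ∉ U0 → w a q = 0) :
    col U0 ι (addW x.W x.M (inc T ι) w N') = w := by
  ext a q
  rw [col, Matrix.of_apply]
  split_ifs with h'
  · exact addW_0q h x w N' hw h' q
  · exact (hw a q h').symm

lemma subM_col (h : Cut U U0 ι) (x : PtW Γ U Z T) (N' : Matrix Q Q T)
    (hNN : blk ι x.M * N' = 1) (hN' : N'ᵀ = N') {j : Ω} (hj : j ∈ U0) (q : Q) :
    (subM ι x.M N' * col U0 ι x.W) j q = - ∑ p, x.M j (ι p) * N' p q := by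
  rw [(down_all x N' h hNN hN').2.2.1, Matrix.sub_apply, inc_out h (Or.inr hj), zero_sub,
    Matrix.mul_apply]
  congr 1
  refine Finset.sum_congr rfl fun p _ => ?_
  rw [mul_inc]

lemma res_map {T' : Type} [CommRing T'] (g : T →+* T') (U0 : Finset Ω) (A : Matrix Ω Ω T) :
    res U0 (A.map g) = (res U0 A).map g := by
  ext a b
  rw [res, Matrix.of_apply, Matrix.map_apply, Matrix.map_apply, res, Matrix.of_apply]
  split_ifs
  · rfl
  · exact (map_zero g).symm

end gen

variable {R : Type} [CommRing R] {Ω : Type} [Fintype Ω] {Γ : Ω → Ω → Prop} {U I J : Finset Ω}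
  {m i : Ω}

/-- the zeros of the inverse: the block of `I` -/
def ZI (I : Finset Ω) (a b : Ω) : Prop := a ∈ I ∧ b ∈ I

/-- the zeros of the inverse: the block of `I`, and the entries `(m, j)` for `j ∈ J` -/
def ZJ (I : Finset Ω) (m : Ω) (J : Finset Ω) (a b : Ω) : Prop :=
  (a ∈ I ∧ b ∈ I) ∨ (a = m ∧ b ∈ J) ∨ (b = m ∧ a ∈ J)

/-! ### One row and column -/

section one

/-- the row `m` -/
def i1 (m : Ω) : Unit → Ω := fun _ => m

lemma cut1 (hm : m ∈ U) : Cut U (U.erase m) (i1 m) where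
  inj _ _ _ := rfl
  mem _ := hm
  iff a := by
    rw [Finset.mem_erase]
    exact ⟨fun h => ⟨h.2, fun _ => h.1⟩, fun h => ⟨h.2 (), h.1⟩⟩

/-- the 1×1 matrices -/
def c1 {T : Type} (t : T) : Matrix Unit Unit T := Matrix.of fun _ _ => t

lemma c1_mul {T : Type} [CommRing T] (s t : T) : c1 s * c1 t = c1 (s * t) := by
  ext a b
  rw [Matrix.mul_apply, Fintype.sum_unique]
  rfl

lemma c1_one {T : Type} [CommRing T] : (c1 1 : Matrix Unit Unit T) = 1 := by
  ext a b
  rw [Matrix.one_apply, if_pos (Subsingleton.elim a b)]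
  rfl

lemma c1_T {T : Type} [CommRing T] (t : T) : (c1 t)ᵀ = c1 t := rfl

variable (hΓ : ∀ a b, Γ a b → Γ b a) (hm : m ∈ U) (hI : I ⊆ U) (hmI : m ∉ I)

lemma blk1 {T : Type} [CommRing T] {Z : Ω → Ω → Prop} (x : PtW Γ U Z T)
    (h : IsUnit (x.M m m)) : blk (i1 m) x.M * c1 (↑h.unit⁻¹ : T) = 1 := by
  have h1 : blk (i1 m) x.M = c1 (x.M m m) := rfl
  rw [h1, c1_mul, h.mul_val_inv, c1_one]

include hI hmI in
lemma zer1 {T : Type} [CommRing T] (x : PtW Γ U (ZJ I m I) T) (t : T) (a b : Ω)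
    (hab : ZI I a b) : subM (i1 m) x.M (c1 t) a b = 0 := by
  rw [subM_apply, Fintype.sum_unique, x.zer a b (Or.inl hab)]
  change 0 - (∑ p, _) * x.M m b = 0
  rw [x.zer m b (Or.inr (Or.inl ⟨rfl, hab.2⟩)), mul_zero, sub_zero]

include hΓ hm hI hmI

noncomputable def iso1 : Iso (inv (FW R Γ U (ZJ I m I)) (entM R Γ U (ZJ I m I) m m))
    (prd (frm (idMor (FW R Γ (U.erase m) (ZI I))) (fun a => a ∈ U.erase m ∧ Γ a m) I) (uni R)) where
  fwd T _ _ x := (⟨(downPt x.1 (c1 (↑x.2.unit⁻¹ : T)) (cut1 hm) (blk1 x.1 x.2) rfl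
      (zer1 hI hmI x.1 _), ⟨fun a => col (U.erase m) (i1 m) x.1.W a (), fun a ha => by
        change (if a ∈ U.erase m then x.1.W a m else 0) = 0
        split_ifs with h
        · rw [Finset.mem_erase] at h
          exact x.1.pat a m h.1 fun h' => ha ⟨Finset.mem_erase.2 h, h'⟩
        · rfl⟩), fun j => by
        have hj : (j : Ω) ∈ U.erase m :=
          Finset.mem_erase.2 ⟨fun h => hmI (h ▸ j.2), hI j.2⟩
        have h1 := subM_col (cut1 hm) x.1 (c1 (↑x.2.unit⁻¹ : T)) (blk1 x.1 x.2) rfl hj ()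
        rw [Fintype.sum_unique] at h1
        change (subM (i1 m) x.1.M (c1 (↑x.2.unit⁻¹ : T)) *ᵥ
          fun a => col (U.erase m) (i1 m) x.1.W a ()) j = 0
        refine h1.trans ?_
        change -(x.1.M j m * _) = 0
        rw [x.1.zer j m (Or.inr (Or.inr ⟨rfl, j.2⟩)), zero_mul, neg_zero]⟩, x.2.unit)
  bwd T _ _ y := ⟨upPt (cut1 hm) hΓ (fun p q h => absurd (Subsingleton.elim p q) h) y.1.1.1
      (Matrix.of fun a _ => y.1.1.2.1 a) (c1 (Units.val (α := T) y.2))
      (c1 (Units.val (α := T) (Inv.inv (α := Tˣ) y.2)))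
      (fun a q ha => y.1.1.2.2 a fun h => ha h.1) (fun a q ha => y.1.1.2.2 a fun h => ha h.2)
      (by rw [c1_mul, Units.inv_mul, c1_one]) rfl (by
        have h0 : ∀ b ∈ I, ∀ q, nu (ι := i1 m) y.1.1.1 (Matrix.of fun a _ => y.1.1.2.1 a) b q = 0 := by
          intro b hb q
          rw [nu_0 (cut1 hm) y.1.1.1 _ (Finset.mem_erase.2 ⟨fun h => hmI (h ▸ hb), hI hb⟩),
            neg_eq_zero]
          exact y.1.2 ⟨b, hb⟩
        rintro a b (⟨ha, hb⟩ | ⟨rfl, hb⟩ | ⟨rfl, ha⟩)
        · rw [addM_eq, y.1.1.1.zer a b ⟨ha, hb⟩, Finset.sum_eq_zero fun q _ => by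
            rw [h0 b hb, mul_zero], add_zero]
        · have h1 := addM_q (cut1 hm) y.1.1.1 (Matrix.of fun a _ => y.1.1.2.1 a)
            (c1 (Units.val (α := T) y.2)) () b
          refine Eq.trans h1 (Finset.sum_eq_zero fun q _ => ?_)
          rw [h0 b hb, mul_zero]
        · rw [addM_eq, y.1.1.1.M_symm, y.1.1.1.M_out _ _ (Finset.notMem_erase _ _),
            Finset.sum_eq_zero fun q _ => by
              rw [Finset.sum_eq_zero fun p _ => by rw [h0 a ha, zero_mul], zero_mul], add_zero]), by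
      change IsUnit (addM y.1.1.1.M (inc T (i1 m)) (Matrix.of fun a _ => y.1.1.2.1 a)
        (c1 (Units.val (α := T) y.2)) (i1 m ()) (i1 m ()))
      rw [addM_qq (cut1 hm)]
      exact Units.isUnit _⟩
  bf T _ _ x := Subtype.ext (PtW.ext (up_down (cut1 hm) x.1 _ (blk1 x.1 x.2) rfl))
  fb T _ _ y := by
    refine Prod.ext (Subtype.ext (Prod.ext (PtW.ext ?_) (Subtype.ext ?_))) (Units.ext ?_)
    · exact res_up (cut1 hm) y.1.1.1 _ _
    · have h1 := col_up (cut1 hm) y.1.1.1 (Matrix.of fun a _ => y.1.1.2.1 a)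
        (c1 (Units.val (α := T) (Inv.inv (α := Tˣ) y.2)))
        (fun a q ha => y.1.1.2.2 a fun h => ha h.1)
      funext a
      exact congrFun (congrFun h1 a) ()
    · exact addM_qq (cut1 hm) y.1.1.1 (Matrix.of fun a _ => y.1.1.2.1 a)
        (c1 (Units.val (α := T) y.2)) () ()
  nat {T T'} _ _ _ _ g x := by
    refine Prod.ext (Subtype.ext (Prod.ext (PtW.ext ?_) (Subtype.ext ?_))) (Units.ext rfl)
    · exact res_map g.toRingHom _ _
    · funext a
      change (if a ∈ U.erase m then g (x.1.W a m) else 0) = g (if a ∈ U.erase m then x.1.W a m else 0)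
      split_ifs
      · rfl
      · exact (map_zero g).symm

end one

/-! ### Two rows and columns -/

section two

/-- the rows `m` and `i` -/
def i2 (m i : Ω) : Bool → Ω
  | false => m
  | true => i

lemma cut2 (hm : m ∈ U) (hi : i ∈ U) (hmi : m ≠ i) : Cut U ((U.erase m).erase i) (i2 m i) where
  inj a b h := by
    cases a <;> cases b
    · rfl
    · exact absurd h hmi
    · exact absurd h.symm hmi
    · rfl
  mem q := by
    cases q
    · exact hm
    · exact hi
  iff a := by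
    rw [Finset.mem_erase, Finset.mem_erase]
    constructor
    · rintro ⟨h1, h2, h3⟩
      refine ⟨h3, fun q => ?_⟩
      cases q
      · exact h2
      · exact h1
    · rintro ⟨h1, h2⟩
      exact ⟨h2 true, h2 false, h1⟩

/-- the matrix with the rows `(p, l)`, `(l, 0)` -/
def c2 {T : Type} [CommRing T] (p l z : T) : Matrix Bool Bool T := Matrix.of fun
  | false, false => p
  | false, true => l
  | true, false => l
  | true, true => z

lemma c2_T {T : Type} [CommRing T] (p l z : T) : (c2 p l z)ᵀ = c2 p l z := by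
  ext a b
  cases a <;> cases b <;> rfl

lemma c2_inv {T : Type} [CommRing T] (p : T) (l : Tˣ) :
    c2 p (l : T) 0 * c2 0 (↑l⁻¹ : T) (-(p * ↑l⁻¹ * ↑l⁻¹)) = 1 := by
  have h := l.mul_inv
  ext a b
  rw [Matrix.mul_apply, Fintype.sum_bool]
  cases a <;> cases b
  · change (l : T) * ↑l⁻¹ + p * 0 = 1
    rw [h]
    ring
  · change (l : T) * (-(p * ↑l⁻¹ * ↑l⁻¹)) + p * ↑l⁻¹ = 0
    linear_combination (-(p * ↑l⁻¹)) * h
  · change (0 : T) * ↑l⁻¹ + ↑l * 0 = 0
    ring
  · change (0 : T) * (-(p * ↑l⁻¹ * ↑l⁻¹)) + ↑l * ↑l⁻¹ = 1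
    rw [h]
    ring

lemma c2_inv' {T : Type} [CommRing T] (p : T) (l : Tˣ) :
    c2 0 (↑l⁻¹ : T) (-(p * ↑l⁻¹ * ↑l⁻¹)) * c2 p (l : T) 0 = 1 := by
  have := congrArg transpose (c2_inv p l)
  rwa [transpose_mul, c2_T, c2_T, transpose_one] at this

/-- the two columns -/
def w2 {T : Type} (v1 v2 : Ω → T) : Matrix Ω Bool T :=
  Matrix.of fun a q => match q with
    | false => v1 a
    | true => v2 a

variable (hΓ : ∀ a b, Γ a b → Γ b a) (hm : m ∈ U) (hI : I ⊆ U) (hmI : m ∉ I) (hi : i ∈ I)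
  (hJ : J ⊆ I) (hiJ : i ∉ J) (him : Γ i m)

lemma blk2 {T : Type} [CommRing T] (x : PtW Γ U (ZJ I m J) T) (hi : i ∈ I)
    (h : IsUnit (x.M m i)) :
    blk (i2 m i) x.M * c2 0 (↑h.unit⁻¹ : T) (-(x.M m m * ↑h.unit⁻¹ * ↑h.unit⁻¹)) = 1 := by
  have h1 : blk (i2 m i) x.M = c2 (x.M m m) (h.unit : T) 0 := by
    ext a b
    cases a <;> cases b
    · rfl
    · rfl
    · exact x.M_symm i m
    · exact x.zer i i (Or.inl ⟨hi, hi⟩)
  rw [h1, c2_inv]

lemma zer2 {T : Type} [CommRing T] (x : PtW Γ U (ZJ I m J) T) (hi : i ∈ I) (l z : T) (a b : Ω)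
    (hab : ZI (I.erase i) a b) : subM (i2 m i) x.M (c2 0 l z) a b = 0 := by
  have ha := Finset.mem_of_mem_erase hab.1
  have hb := Finset.mem_of_mem_erase hab.2
  rw [subM_apply, Fintype.sum_bool, Fintype.sum_bool, Fintype.sum_bool, x.zer a b (Or.inl ⟨ha, hb⟩)]
  change 0 - ((x.M a i * z + x.M a m * l) * x.M i b + (x.M a i * l + x.M a m * 0) * x.M m b) = 0
  rw [x.zer a i (Or.inl ⟨ha, hi⟩), x.zer i b (Or.inl ⟨hi, hb⟩)]
  ring

lemma mem2 {j : Ω} (hI : I ⊆ U) (hmI : m ∉ I) (hj : j ∈ I.erase i) : j ∈ (U.erase m).erase i := by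
  rw [Finset.mem_erase] at hj
  exact Finset.mem_erase.2 ⟨hj.1, Finset.mem_erase.2 ⟨fun h => hmI (h ▸ hj.2), hI hj.2⟩⟩

/-- the first projection -/
def frmMor {E : Fn R} {Z : Ω → Ω → Prop} (p : Mor E (FW R Γ U Z)) (A : Ω → Prop) (J : Finset Ω) :
    Mor (frm p A J) (FW R Γ U Z) where
  f T _ _ x := p.f T x.1.1
  nat g x := p.nat g x.1.1

lemma nu2 {T : Type} [CommRing T] {U0 : Finset Ω} {Z0 : Ω → Ω → Prop} {a : Ω} {w : Matrix Ω Bool T}
    (h : Cut U U0 (i2 m i)) (x : PtW Γ U0 Z0 T) (ha : a ∈ U0) {v : Ω → T} {q : Bool}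
    (hv : ∀ a, w a q = v a) (h0 : (x.M *ᵥ v) a = 0) : nu (ι := i2 m i) x w a q = 0 := by
  rw [nu_0 h x w ha, neg_eq_zero, Matrix.mul_apply]
  simp only [hv]
  exact h0

include hΓ hm hI hmI hi hJ hiJ him

noncomputable def iso2 : Iso (inv (FW R Γ U (ZJ I m J)) (entM R Γ U (ZJ I m J) m i))
    (prd (prd (frm (frmMor (idMor (FW R Γ ((U.erase m).erase i) (ZI (I.erase i))))
      (fun a => a ∈ (U.erase m).erase i ∧ Γ a m) (I.erase i))
      (fun a => a ∈ (U.erase m).erase i ∧ Γ a i) J) (uni R)) (lin R Unit fun _ => True)) where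
  fwd T _ _ x := ((⟨(⟨(downPt x.1 (c2 0 (↑x.2.unit⁻¹ : T)
      (-(x.1.M m m * ↑x.2.unit⁻¹ * ↑x.2.unit⁻¹))) (cut2 hm (hI hi) fun h => hmI (h ▸ hi))
      (blk2 x.1 hi x.2) (c2_T _ _ _) (zer2 x.1 hi _ _),
      ⟨fun a => col ((U.erase m).erase i) (i2 m i) x.1.W a false, fun a ha => by
        change (if a ∈ (U.erase m).erase i then x.1.W a m else 0) = 0
        split_ifs with h
        · exact x.1.pat a m (Finset.ne_of_mem_erase (Finset.mem_of_mem_erase h))
            fun h' => ha ⟨h, h'⟩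
        · rfl⟩), fun j => by
        have h1 := subM_col (cut2 hm (hI hi) fun h => hmI (h ▸ hi)) x.1 _ (blk2 x.1 hi x.2)
          (c2_T _ _ _) (mem2 hI hmI j.2) false
        rw [Fintype.sum_bool] at h1
        refine h1.trans ?_
        change -(x.1.M j i * _ + x.1.M j m * 0) = 0
        rw [x.1.zer j i (Or.inl ⟨Finset.mem_of_mem_erase j.2, hi⟩)]
        ring⟩,
      ⟨fun a => col ((U.erase m).erase i) (i2 m i) x.1.W a true, fun a ha => by
        change (if a ∈ (U.erase m).erase i then x.1.W a i else 0) = 0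
        split_ifs with h
        · exact x.1.pat a i (Finset.ne_of_mem_erase h) fun h' => ha ⟨h, h'⟩
        · rfl⟩), fun j => by
        have hj : (j : Ω) ∈ I.erase i := Finset.mem_erase.2 ⟨fun h => hiJ (h ▸ j.2), hJ j.2⟩
        have h1 := subM_col (cut2 hm (hI hi) fun h => hmI (h ▸ hi)) x.1 _ (blk2 x.1 hi x.2)
          (c2_T _ _ _) (mem2 hI hmI hj) true
        rw [Fintype.sum_bool] at h1
        refine h1.trans ?_
        change -(x.1.M j i * _ + x.1.M j m * _) = 0
        rw [x.1.zer j i (Or.inl ⟨Finset.mem_of_mem_erase hj, hi⟩),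
          x.1.zer j m (Or.inr (Or.inr ⟨rfl, j.2⟩))]
        ring⟩, x.2.unit), ⟨fun _ => x.1.M m m, fun _ h => absurd trivial h⟩)
  bwd T _ _ y := ⟨upPt (cut2 hm (hI hi) fun h => hmI (h ▸ hi)) hΓ
      (by
        intro p q h
        cases p <;> cases q
        · exact absurd rfl h
        · exact hΓ _ _ him
        · exact him
        · exact absurd rfl h) y.1.1.1.1.1.1
      (w2 y.1.1.1.1.1.2.1 y.1.1.1.2.1) (c2 (y.2.1 ()) (Units.val (α := T) y.1.2) 0)
      (c2 0 (Units.val (α := T) (Inv.inv (α := Tˣ) y.1.2))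
        (-(y.2.1 () * (Units.val (α := T) (Inv.inv (α := Tˣ) y.1.2)) *
          (Units.val (α := T) (Inv.inv (α := Tˣ) y.1.2)))))
      (fun a q ha => by
        cases q
        · exact y.1.1.1.1.1.2.2 a fun h => ha h.1
        · exact y.1.1.1.2.2 a fun h => ha h.1)
      (fun a q ha => by
        cases q
        · exact y.1.1.1.1.1.2.2 a fun h => ha h.2
        · exact y.1.1.1.2.2 a fun h => ha h.2)
      (c2_inv' _ _) (c2_T _ _ _) (by
        have hc := cut2 (U := U) hm (hI hi) fun h => hmI (h ▸ hi)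
        set x0 := y.1.1.1.1.1.1
        set v1 := y.1.1.1.1.1.2.1
        set v2 := y.1.1.1.2.1
        have h0 : ∀ b ∈ I.erase i, nu (ι := i2 m i) x0 (w2 v1 v2) b false = 0 := by
          intro b hb
          exact nu2 hc x0 (mem2 hI hmI hb) (fun _ => rfl) (y.1.1.1.1.2 ⟨b, hb⟩)
        have h1 : ∀ b ∈ J, nu (ι := i2 m i) x0 (w2 v1 v2) b true = 0 := by
          intro b hb
          exact nu2 hc x0 (mem2 hI hmI (Finset.mem_erase.2 ⟨fun h => hiJ (h ▸ hb), hJ hb⟩))
            (fun _ => rfl) (y.1.1.2 ⟨b, hb⟩)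
        set N := c2 (y.2.1 ()) (Units.val (α := T) y.1.2) 0 with hN
        have hN' : Nᵀ = N := c2_T _ _ _
        have hs : ∀ a b, addM x0.M (inc T (i2 m i)) (w2 v1 v2) N a b =
            addM x0.M (inc T (i2 m i)) (w2 v1 v2) N b a := by
          intro a b
          have h2 : (addM x0.M (inc T (i2 m i)) (w2 v1 v2) N)ᵀ =
              addM x0.M (inc T (i2 m i)) (w2 v1 v2) N := by
            simp only [addM, transpose_add, transpose_mul, transpose_transpose, x0.msym, hN',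
              Matrix.mul_assoc]
          exact congrFun (congrFun h2 b) a
        have k1 : ∀ b ∈ I, addM x0.M (inc T (i2 m i)) (w2 v1 v2) N i b = 0 := by
          intro b hb
          by_cases hbi : b = i
          · rw [hbi]
            exact addM_qq hc x0 (w2 v1 v2) N true true
          · have h2 := addM_q hc x0 (w2 v1 v2) N true b
            rw [Fintype.sum_bool, h0 b (Finset.mem_erase.2 ⟨hbi, hb⟩), mul_zero, add_zero] at h2
            refine h2.trans ?_
            change (0 : T) * _ = 0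
            rw [zero_mul]
        have k2 : ∀ b ∈ J, addM x0.M (inc T (i2 m i)) (w2 v1 v2) N m b = 0 := by
          intro b hb
          have h2 := addM_q hc x0 (w2 v1 v2) N false b
          rw [Fintype.sum_bool, h1 b hb, h0 b (Finset.mem_erase.2 ⟨fun h => hiJ (h ▸ hb), hJ hb⟩),
            mul_zero, mul_zero, add_zero] at h2
          exact h2
        rintro a b (⟨ha, hb⟩ | ⟨rfl, hb⟩ | ⟨rfl, ha⟩)
        · by_cases hai : a = i
          · rw [hai]
            exact k1 b hb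
          by_cases hbi : b = i
          · rw [hbi, hs]
            exact k1 a ha
          have ha' := Finset.mem_erase.2 ⟨hai, ha⟩
          have hb' := Finset.mem_erase.2 ⟨hbi, hb⟩
          rw [addM_eq, x0.zer a b ⟨ha', hb'⟩, Fintype.sum_bool, Fintype.sum_bool,
            Fintype.sum_bool, h0 a ha', h0 b hb']
          change 0 + ((nu (ι := i2 m i) x0 (w2 v1 v2) a true * 0 + 0 * _) * _ + _ * 0) = 0
          ring
        · exact k2 b hb
        · rw [hs]
          exact k2 a ha), by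
      have h2 := addM_qq (cut2 (U := U) hm (hI hi) fun h => hmI (h ▸ hi)) y.1.1.1.1.1.1
        (w2 y.1.1.1.1.1.2.1 y.1.1.1.2.1) (c2 (y.2.1 ()) (Units.val (α := T) y.1.2) 0) false true
      change IsUnit (addM y.1.1.1.1.1.1.M (inc T (i2 m i)) (w2 y.1.1.1.1.1.2.1 y.1.1.1.2.1)
        (c2 (y.2.1 ()) (Units.val (α := T) y.1.2) 0) (i2 m i false) (i2 m i true))
      rw [h2]
      exact Units.isUnit (M := T) y.1.2⟩
  bf T _ _ x := Subtype.ext (PtW.ext (by
    have h1 := up_down (cut2 hm (hI hi) fun h => hmI (h ▸ hi)) x.1 _ (blk2 x.1 hi x.2) (c2_T _ _ _)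
    refine Eq.trans ?_ h1
    change addW (res ((U.erase m).erase i) x.1.W) (subM (i2 m i) x.1.M _) (inc T (i2 m i))
      (w2 (fun a => col ((U.erase m).erase i) (i2 m i) x.1.W a false)
        (fun a => col ((U.erase m).erase i) (i2 m i) x.1.W a true)) _ = _
    congr 1
    ext a q
    cases q <;> rfl))
  fb T _ _ y := by
    have hc := cut2 (U := U) hm (hI hi) fun h => hmI (h ▸ hi)
    have h1 := col_up hc y.1.1.1.1.1.1 (w2 y.1.1.1.1.1.2.1 y.1.1.1.2.1)
      (c2 0 (Units.val (α := T) (Inv.inv (α := Tˣ) y.1.2))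
        (-(y.2.1 () * (Units.val (α := T) (Inv.inv (α := Tˣ) y.1.2)) *
          (Units.val (α := T) (Inv.inv (α := Tˣ) y.1.2)))))
      (fun a q ha => by
        cases q
        · exact y.1.1.1.1.1.2.2 a fun h => ha h.1
        · exact y.1.1.1.2.2 a fun h => ha h.1)
    refine Prod.ext (Prod.ext (Subtype.ext (Prod.ext (Subtype.ext (Prod.ext (PtW.ext ?_)
      (Subtype.ext ?_))) (Subtype.ext ?_))) (Units.ext ?_)) (Subtype.ext ?_)
    · exact res_up hc y.1.1.1.1.1.1 _ _
    · funext a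
      exact congrFun (congrFun h1 a) false
    · funext a
      exact congrFun (congrFun h1 a) true
    · exact addM_qq hc y.1.1.1.1.1.1 (w2 y.1.1.1.1.1.2.1 y.1.1.1.2.1)
        (c2 (y.2.1 ()) (Units.val (α := T) y.1.2) 0) false true
    · funext u
      exact addM_qq hc y.1.1.1.1.1.1 (w2 y.1.1.1.1.1.2.1 y.1.1.1.2.1)
        (c2 (y.2.1 ()) (Units.val (α := T) y.1.2) 0) false false
  nat {T T'} _ _ _ _ g x := by
    refine Prod.ext (Prod.ext (Subtype.ext (Prod.ext (Subtype.ext (Prod.ext (PtW.ext ?_)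
      (Subtype.ext ?_))) (Subtype.ext ?_))) (Units.ext rfl)) (Subtype.ext rfl)
    · exact res_map g.toRingHom _ _
    · funext a
      change (if a ∈ (U.erase m).erase i then g (x.1.W a m) else 0) =
        g (if a ∈ (U.erase m).erase i then x.1.W a m else 0)
      split_ifs
      · rfl
      · exact (map_zero g).symm
    · funext a
      change (if a ∈ (U.erase m).erase i then g (x.1.W a i) else 0) =
        g (if a ∈ (U.erase m).erase i then x.1.W a i else 0)
      split_ifs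
      · rfl
      · exact (map_zero g).symm

end two

end Pool.Agent.H21.GH
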