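import Pool.Agent.H21.GH.Ind
import Pool.Agent.H21.GH.Base

/-!
# The largest zero block
-/

set_option autoImplicit false
set_option linter.all false

open Matrix Pool.Agent.Y116.UV Pool.Agent.Z125.UN
open scoped Classical

namespace Pool.Agent.H21.GH

variable {R : Type} [CommRing R]

/-- The families `C a j` which vanish outside of `A`, are invertible at `E` and satisfy the equations
`∑ a, C a j * C a j' = 0` for the pairs in `S`. -/
abbrev Bl (R : Type) [CommRing R] {Q J : Type} [Fintype Q] (A E : Q → J → Prop) (S : J → J → Prop) :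
    Fn R where
  pt T _ _ := {C : Q → J → T // (∀ a j, ¬ A a j → C a j = 0) ∧ (∀ a j, E a j → IsUnit (C a j)) ∧
    ∀ j j', S j j' → ∑ a, C a j * C a j' = 0}
  mp g x := ⟨fun a j => g (x.1 a j), fun a j h => (congrArg g (x.2.1 a j h)).trans (map_zero g),
    fun a j h => (x.2.2.1 a j h).map g, fun j j' h => by
      have h1 := congrArg g (x.2.2.2 j j' h)
      rw [map_sum, map_zero] at h1
      simpa only [map_mul] using h1⟩
  mp_id x := rfl
  mp_comp g h x := rfl

section blocks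

variable {q J T : Type} [Fintype q] [Fintype J] [DecidableEq q] [DecidableEq J] [CommRing T]

abbrev e1 : q → q ⊕ (J ⊕ J) := Sum.inl
abbrev e2 : J → q ⊕ (J ⊕ J) := fun j => Sum.inr (Sum.inl j)
abbrev e3 : J → q ⊕ (J ⊕ J) := fun j => Sum.inr (Sum.inr j)

lemma mul_bl {α β : Type} (X Y : Matrix (q ⊕ (J ⊕ J)) (q ⊕ (J ⊕ J)) T) (f : α → q ⊕ (J ⊕ J))
    (g : β → q ⊕ (J ⊕ J)) : (X * Y).submatrix f g =
      X.submatrix f e1 * Y.submatrix e1 g + (X.submatrix f e2 * Y.submatrix e2 g +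
        X.submatrix f e3 * Y.submatrix e3 g) := by
  ext a b
  rw [Matrix.submatrix_apply, Matrix.mul_apply, Fintype.sum_sum_type, Fintype.sum_sum_type]
  rfl

lemma ext3 {X Y : Matrix (q ⊕ (J ⊕ J)) (q ⊕ (J ⊕ J)) T}
    (h11 : X.submatrix e1 e1 = Y.submatrix e1 e1) (h12 : X.submatrix e1 e2 = Y.submatrix e1 e2)
    (h13 : X.submatrix e1 e3 = Y.submatrix e1 e3) (h21 : X.submatrix e2 e1 = Y.submatrix e2 e1)
    (h22 : X.submatrix e2 e2 = Y.submatrix e2 e2) (h23 : X.submatrix e2 e3 = Y.submatrix e2 e3)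
    (h31 : X.submatrix e3 e1 = Y.submatrix e3 e1) (h32 : X.submatrix e3 e2 = Y.submatrix e3 e2)
    (h33 : X.submatrix e3 e3 = Y.submatrix e3 e3) : X = Y := by
  ext a b
  rcases a with a | a | a <;> rcases b with b | b | b
  · exact congrFun (congrFun h11 a) b
  · exact congrFun (congrFun h12 a) b
  · exact congrFun (congrFun h13 a) b
  · exact congrFun (congrFun h21 a) b
  · exact congrFun (congrFun h22 a) b
  · exact congrFun (congrFun h23 a) b
  · exact congrFun (congrFun h31 a) b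
  · exact congrFun (congrFun h32 a) b
  · exact congrFun (congrFun h33 a) b

/-- the matrix with nine blocks -/
def tb (A11 : Matrix q q T) (A12 A13 : Matrix q J T) (A21 : Matrix J q T) (A22 A23 : Matrix J J T)
    (A31 : Matrix J q T) (A32 A33 : Matrix J J T) : Matrix (q ⊕ (J ⊕ J)) (q ⊕ (J ⊕ J)) T :=
  Matrix.of fun a b => match a, b with
    | Sum.inl a, Sum.inl b => A11 a b
    | Sum.inl a, Sum.inr (Sum.inl b) => A12 a b
    | Sum.inl a, Sum.inr (Sum.inr b) => A13 a b
    | Sum.inr (Sum.inl a), Sum.inl b => A21 a b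
    | Sum.inr (Sum.inl a), Sum.inr (Sum.inl b) => A22 a b
    | Sum.inr (Sum.inl a), Sum.inr (Sum.inr b) => A23 a b
    | Sum.inr (Sum.inr a), Sum.inl b => A31 a b
    | Sum.inr (Sum.inr a), Sum.inr (Sum.inl b) => A32 a b
    | Sum.inr (Sum.inr a), Sum.inr (Sum.inr b) => A33 a b

/-- the large matrix -/
def bigW (N : Matrix q q T) (C : Matrix q J T) (D b F : Matrix J J T) :
    Matrix (q ⊕ (J ⊕ J)) (q ⊕ (J ⊕ J)) T :=
  tb N C 0 Cᵀ D b 0 bᵀ F

/-- its inverse -/
def bigM (Ni : Matrix q q T) (C : Matrix q J T) (B F : Matrix J J T) :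
    Matrix (q ⊕ (J ⊕ J)) (q ⊕ (J ⊕ J)) T :=
  tb (Ni - Ni * C * Bᵀ * F * B * Cᵀ * Ni) (Ni * C * Bᵀ * F * B) (-(Ni * C * Bᵀ))
    (Bᵀ * F * B * Cᵀ * Ni) (-(Bᵀ * F * B)) Bᵀ (-(B * Cᵀ * Ni)) B 0

lemma bigW_mul {N Ni : Matrix q q T} {C : Matrix q J T} {D b B F : Matrix J J T}
    (hN : N * Ni = 1) (hb : b * B = 1) (hb' : bᵀ * Bᵀ = 1) (hD : D = Cᵀ * Ni * C) :
    bigW N C D b F * bigM Ni C B F = 1 := by
  have hNX : ∀ {κ : Type} (X : Matrix q κ T), N * (Ni * X) = X := fun X => by
    rw [← Matrix.mul_assoc, hN, Matrix.one_mul]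
  have hbX : ∀ {κ : Type} (X : Matrix J κ T), b * (B * X) = X := fun X => by
    rw [← Matrix.mul_assoc, hb, Matrix.one_mul]
  have hbX' : ∀ {κ : Type} (X : Matrix J κ T), bᵀ * (Bᵀ * X) = X := fun X => by
    rw [← Matrix.mul_assoc, hb', Matrix.one_mul]
  have o11 : (1 : Matrix (q ⊕ (J ⊕ J)) (q ⊕ (J ⊕ J)) T).submatrix e1 e1 = 1 := by
    ext a b
    simp [Matrix.one_apply]
  have o22 : (1 : Matrix (q ⊕ (J ⊕ J)) (q ⊕ (J ⊕ J)) T).submatrix e2 e2 = 1 := by
    ext a b
    simp [Matrix.one_apply]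
  have o33 : (1 : Matrix (q ⊕ (J ⊕ J)) (q ⊕ (J ⊕ J)) T).submatrix e3 e3 = 1 := by
    ext a b
    simp [Matrix.one_apply]
  apply ext3 <;> rw [mul_bl]
  · rw [o11]
    change N * (Ni - Ni * C * Bᵀ * F * B * Cᵀ * Ni) + (C * (Bᵀ * F * B * Cᵀ * Ni) +
      0 * (-(B * Cᵀ * Ni))) = 1
    simp only [Matrix.mul_sub, Matrix.mul_assoc, hN, hNX, Matrix.zero_mul]
    abel
  · have : (1 : Matrix (q ⊕ (J ⊕ J)) (q ⊕ (J ⊕ J)) T).submatrix e1 e2 = 0 := by
      ext a b
      simp [Matrix.one_apply]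
    rw [this]
    change N * (Ni * C * Bᵀ * F * B) + (C * (-(Bᵀ * F * B)) + 0 * B) = 0
    simp only [Matrix.mul_neg, Matrix.mul_assoc, hNX, Matrix.zero_mul]
    abel
  · have : (1 : Matrix (q ⊕ (J ⊕ J)) (q ⊕ (J ⊕ J)) T).submatrix e1 e3 = 0 := by
      ext a b
      simp [Matrix.one_apply]
    rw [this]
    change N * (-(Ni * C * Bᵀ)) + (C * Bᵀ + 0 * 0) = 0
    simp only [Matrix.mul_neg, Matrix.mul_assoc, hNX, Matrix.zero_mul]
    abel
  · have : (1 : Matrix (q ⊕ (J ⊕ J)) (q ⊕ (J ⊕ J)) T).submatrix e2 e1 = 0 := by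
      ext a b
      simp [Matrix.one_apply]
    rw [this, hD]
    change Cᵀ * (Ni - Ni * C * Bᵀ * F * B * Cᵀ * Ni) + ((Cᵀ * Ni * C) * (Bᵀ * F * B * Cᵀ * Ni) +
      b * (-(B * Cᵀ * Ni))) = 0
    simp only [Matrix.mul_sub, Matrix.mul_neg, Matrix.mul_assoc, hbX]
    abel
  · rw [o22, hD]
    change Cᵀ * (Ni * C * Bᵀ * F * B) + ((Cᵀ * Ni * C) * (-(Bᵀ * F * B)) + b * B) = 1
    simp only [Matrix.mul_neg, Matrix.mul_assoc, hb]
    abel
  · have : (1 : Matrix (q ⊕ (J ⊕ J)) (q ⊕ (J ⊕ J)) T).submatrix e2 e3 = 0 := by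
      ext a b
      simp [Matrix.one_apply]
    rw [this, hD]
    change Cᵀ * (-(Ni * C * Bᵀ)) + ((Cᵀ * Ni * C) * Bᵀ + b * 0) = 0
    simp only [Matrix.mul_neg, Matrix.mul_assoc, Matrix.mul_zero]
    abel
  · have : (1 : Matrix (q ⊕ (J ⊕ J)) (q ⊕ (J ⊕ J)) T).submatrix e3 e1 = 0 := by
      ext a b
      simp [Matrix.one_apply]
    rw [this]
    change 0 * (Ni - Ni * C * Bᵀ * F * B * Cᵀ * Ni) + (bᵀ * (Bᵀ * F * B * Cᵀ * Ni) +
      F * (-(B * Cᵀ * Ni))) = 0
    simp only [Matrix.mul_neg, Matrix.mul_assoc, hbX', Matrix.zero_mul]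
    abel
  · have : (1 : Matrix (q ⊕ (J ⊕ J)) (q ⊕ (J ⊕ J)) T).submatrix e3 e2 = 0 := by
      ext a b
      simp [Matrix.one_apply]
    rw [this]
    change 0 * (Ni * C * Bᵀ * F * B) + (bᵀ * (-(Bᵀ * F * B)) + F * B) = 0
    simp only [Matrix.mul_neg, Matrix.mul_assoc, hbX', Matrix.zero_mul]
    abel
  · rw [o33]
    change 0 * (-(Ni * C * Bᵀ)) + (bᵀ * Bᵀ + F * 0) = 1
    simp only [Matrix.zero_mul, Matrix.mul_zero, hb']
    abel

/-- the blocks of a matrix with the zero block -/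
lemma blocks {W M : Matrix (q ⊕ (J ⊕ J)) (q ⊕ (J ⊕ J)) T} (hW : Wᵀ = W) (hM : Mᵀ = M)
    (h : W * M = 1) (h13 : W.submatrix e1 e3 = 0) (h33 : M.submatrix e3 e3 = 0) :
    (∃ Ni : Matrix q q T, W.submatrix e1 e1 * Ni = 1) ∧
    (W.submatrix e2 e3)ᵀ * M.submatrix e2 e3 = 1 ∧
    ∀ Ni : Matrix q q T, W.submatrix e1 e1 * Ni = 1 →
      W.submatrix e2 e2 = (W.submatrix e1 e2)ᵀ * Ni * W.submatrix e1 e2 := by
  have hWt : ∀ {α β : Type} (f : α → q ⊕ (J ⊕ J)) (g : β → q ⊕ (J ⊕ J)),
      (W.submatrix f g)ᵀ = W.submatrix g f := fun f g => by rw [Matrix.transpose_submatrix, hW]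
  have hMt : ∀ {α β : Type} (f : α → q ⊕ (J ⊕ J)) (g : β → q ⊕ (J ⊕ J)),
      (M.submatrix f g)ᵀ = M.submatrix g f := fun f g => by rw [Matrix.transpose_submatrix, hM]
  have h31 : W.submatrix e3 e1 = 0 := by rw [← hWt, h13, transpose_zero]
  have k13 : W.submatrix e1 e1 * M.submatrix e1 e3 + (W.submatrix e1 e2 * M.submatrix e2 e3 +
      W.submatrix e1 e3 * M.submatrix e3 e3) = 0 := by
    rw [← mul_bl, h]
    ext a b
    simp [Matrix.one_apply]
  have k23 : W.submatrix e2 e1 * M.submatrix e1 e3 + (W.submatrix e2 e2 * M.submatrix e2 e3 +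
      W.submatrix e2 e3 * M.submatrix e3 e3) = 0 := by
    rw [← mul_bl, h]
    ext a b
    simp [Matrix.one_apply]
  have k33 : W.submatrix e3 e1 * M.submatrix e1 e3 + (W.submatrix e3 e2 * M.submatrix e2 e3 +
      W.submatrix e3 e3 * M.submatrix e3 e3) = 1 := by
    rw [← mul_bl, h]
    ext a b
    simp [Matrix.one_apply]
  have k31 : W.submatrix e3 e1 * M.submatrix e1 e1 + (W.submatrix e3 e2 * M.submatrix e2 e1 +
      W.submatrix e3 e3 * M.submatrix e3 e1) = 0 := by
    rw [← mul_bl, h]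
    ext a b
    simp [Matrix.one_apply]
  have k11 : W.submatrix e1 e1 * M.submatrix e1 e1 + (W.submatrix e1 e2 * M.submatrix e2 e1 +
      W.submatrix e1 e3 * M.submatrix e3 e1) = 1 := by
    rw [← mul_bl, h]
    ext a b
    simp [Matrix.one_apply]
  rw [h31, h33, Matrix.zero_mul, Matrix.mul_zero, zero_add, add_zero] at k33
  rw [h33, Matrix.mul_zero, add_zero] at k23
  rw [h13, Matrix.zero_mul, add_zero] at k13 k11
  rw [h31, Matrix.zero_mul, zero_add] at k31
  have k33' : M.submatrix e2 e3 * W.submatrix e3 e2 = 1 := mul_eq_one_comm.1 k33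
  have k21 : M.submatrix e2 e1 = -(M.submatrix e2 e3 * (W.submatrix e3 e3 * M.submatrix e3 e1)) := by
    have h1 := congrArg (fun X => M.submatrix e2 e3 * X) k31
    simp only [Matrix.mul_add, Matrix.mul_zero] at h1
    rw [← Matrix.mul_assoc, k33', Matrix.one_mul] at h1
    exact eq_neg_of_add_eq_zero_left h1
  have hC : W.submatrix e1 e2 * M.submatrix e2 e3 = -(W.submatrix e1 e1 * M.submatrix e1 e3) :=
    eq_neg_of_add_eq_zero_right k13
  refine ⟨⟨M.submatrix e1 e1 + M.submatrix e1 e3 * (W.submatrix e3 e3 * M.submatrix e3 e1), ?_⟩,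
    ?_, ?_⟩
  · rw [k21, Matrix.mul_neg, ← Matrix.mul_assoc, hC, Matrix.neg_mul, neg_neg] at k11
    rw [Matrix.mul_add, ← Matrix.mul_assoc, k11]
  · rw [hWt]
    exact k33
  · intro Ni hNi
    have hNi' : Ni * W.submatrix e1 e1 = 1 := mul_eq_one_comm.1 hNi
    have h1 : M.submatrix e1 e3 = -(Ni * (W.submatrix e1 e2 * M.submatrix e2 e3)) := by
      rw [hC, Matrix.mul_neg, ← Matrix.mul_assoc, hNi', Matrix.one_mul, neg_neg]
    have h2 : W.submatrix e2 e2 * M.submatrix e2 e3 =
        W.submatrix e2 e1 * Ni * W.submatrix e1 e2 * M.submatrix e2 e3 := by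
      rw [h1, Matrix.mul_neg] at k23
      rw [eq_neg_of_add_eq_zero_right k23, neg_neg]
      simp only [Matrix.mul_assoc]
    rw [hWt]
    have h3 := congrArg (fun X => X * W.submatrix e3 e2) h2
    simp only [Matrix.mul_assoc, k33', Matrix.mul_one] at h3
    rw [h3]
    simp only [Matrix.mul_assoc]

end blocks

/-! ### The triangular matrices -/

section tri

variable {T : Type} [CommRing T] {c : ℕ}

lemma tri_unit {b : Matrix (Fin c) (Fin c) T} (hb : ∀ i j, ¬ i ≤ j → b i j = 0)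
    (h : IsUnit b.det) (i : Fin c) : IsUnit (b i i) := by
  rw [Matrix.det_of_upperTriangular fun i j (hij : j < i) => hb i j (not_le.2 hij)] at h
  exact (IsUnit.prod_iff.1 h) i (Finset.mem_univ i)

lemma tri_det {b : Matrix (Fin c) (Fin c) T} (hb : ∀ i j, ¬ i ≤ j → b i j = 0)
    (h : ∀ i, IsUnit (b i i)) : IsUnit b.det := by
  rw [Matrix.det_of_upperTriangular fun i j (hij : j < i) => hb i j (not_le.2 hij)]
  exact IsUnit.prod_iff.2 fun i _ => h i

end tri

section top

variable {q : Type} [Fintype q] {c : ℕ} (A : q → Fin c → Prop) (S : Fin c → Fin c → Prop)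

/-- the graph -/
def TG : q ⊕ (Fin c ⊕ Fin c) → q ⊕ (Fin c ⊕ Fin c) → Prop
  | Sum.inl _, Sum.inl _ => False
  | Sum.inl a, Sum.inr (Sum.inl j) => A a j
  | Sum.inl _, Sum.inr (Sum.inr _) => False
  | Sum.inr (Sum.inl j), Sum.inl a => A a j
  | Sum.inr (Sum.inl j), Sum.inr (Sum.inl j') => ¬ S j j' ∧ ¬ S j' j
  | Sum.inr (Sum.inl j), Sum.inr (Sum.inr j') => j ≤ j'
  | Sum.inr (Sum.inr _), Sum.inl _ => False
  | Sum.inr (Sum.inr j), Sum.inr (Sum.inl j') => j' ≤ j
  | Sum.inr (Sum.inr _), Sum.inr (Sum.inr _) => True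

lemma TG_symm (x y : q ⊕ (Fin c ⊕ Fin c)) (h : TG A S x y) : TG A S y x := by
  rcases x with a | j | j <;> rcases y with b | k | k
  · exact h
  · exact h
  · exact h
  · exact h
  · exact ⟨h.2, h.1⟩
  · exact h
  · exact h
  · exact h
  · exact h

/-- the last block -/
noncomputable def TI (q : Type) [Fintype q] (c : ℕ) : Finset (q ⊕ (Fin c ⊕ Fin c)) :=
  Finset.univ.image e3

lemma mem_TI {x : q ⊕ (Fin c ⊕ Fin c)} : x ∈ TI q c ↔ ∃ j : Fin c, x = e3 j := by
  rw [TI, Finset.mem_image]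
  constructor
  · rintro ⟨j, -, rfl⟩
    exact ⟨j, rfl⟩
  · rintro ⟨j, rfl⟩
    exact ⟨j, Finset.mem_univ _, rfl⟩

/-- the rank -/
def Trk : q ⊕ (Fin c ⊕ Fin c) → ℕ
  | Sum.inl _ => 0
  | Sum.inr (Sum.inl _) => 0
  | Sum.inr (Sum.inr j) => j

lemma T_nest : Nest (TG A S) (Trk (q := q) (c := c)) Finset.univ (TI q c) where
  cl x hx y hy _ _ := by
    obtain ⟨j, rfl⟩ := mem_TI.1 hx
    obtain ⟨k, rfl⟩ := mem_TI.1 hy
    trivial
  nb x hx y hy _ hxy a _ _ ha := by
    obtain ⟨j, rfl⟩ := mem_TI.1 hx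
    obtain ⟨k, rfl⟩ := mem_TI.1 hy
    rcases a with a | l | l
    · exact ha
    · exact le_trans (show l ≤ j from ha) (show j ≤ k from hxy)
    · trivial

variable {A S} {σ : Fin c → Bool} (hσ : ∀ j j', S j j' → σ j = false ∧ σ j' = true)

/-- the data: the families, the diagonal matrix, the triangular matrix, the symmetric matrix -/
abbrev TD (R : Type) [CommRing R] {q : Type} [Fintype q] {c : ℕ} (A : q → Fin c → Prop)
    (S : Fin c → Fin c → Prop) : Fn R :=
  prd (prd (prd (prd (Bl R A (fun _ _ => False) S) (gm R q)) (gm R (Fin c)))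
    (lin R (Fin c × Fin c) fun p => p.1 < p.2)) (lin R (Fin c × Fin c) fun p => p.1 ≤ p.2)

section data

variable {T : Type} [CommRing T]

/-- the rectangular block -/
def dC (σ : Fin c → Bool) (C : q → Fin c → T) (n : q → T) : Matrix q (Fin c) T :=
  Matrix.of fun a j => if σ j = true then n a * C a j else C a j

/-- the triangular block -/
def db (d : Fin c → T) (u : Fin c × Fin c → T) : Matrix (Fin c) (Fin c) T :=
  Matrix.of fun i j => if i = j then d i else u (i, j)

/-- the symmetric block -/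
def dF (f : Fin c × Fin c → T) : Matrix (Fin c) (Fin c) T :=
  Matrix.of fun i j => if i ≤ j then f (i, j) else f (j, i)

/-- the degenerate block -/
noncomputable def dD (σ : Fin c → Bool) (C : q → Fin c → T) (n n' : q → T) : Matrix (Fin c) (Fin c) T :=
  (dC σ C n)ᵀ * Matrix.diagonal n' * dC σ C n

lemma dF_T (f : Fin c × Fin c → T) : (dF f)ᵀ = dF f := by
  ext i j
  change (if j ≤ i then f (j, i) else f (i, j)) = if i ≤ j then f (i, j) else f (j, i)
  rcases lt_trichotomy i j with h | h | h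
  · rw [if_neg (not_le.2 h), if_pos h.le]
  · subst h
    rfl
  · rw [if_pos h.le, if_neg (not_le.2 h)]

lemma dD_T (C : q → Fin c → T) (n n' : q → T) : (dD σ C n n')ᵀ = dD σ C n n' := by
  rw [dD, transpose_mul, transpose_mul, transpose_transpose, Matrix.diagonal_transpose,
    Matrix.mul_assoc]

lemma dD_apply (C : q → Fin c → T) (n n' : q → T) (j k : Fin c) :
    dD σ C n n' j k = ∑ a, dC σ C n a j * n' a * dC σ C n a k := by
  rw [dD, Matrix.mul_apply]
  refine Finset.sum_congr rfl fun a _ => ?_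
  rw [Matrix.mul_diagonal, Matrix.transpose_apply]

include hσ in
lemma dD_S (C : q → Fin c → T) {n n' : q → T} (hn : ∀ a, n' a * n a = 1)
    (hC : ∀ j j', S j j' → ∑ a, C a j * C a j' = 0) {j k : Fin c} (h : S j k) :
    dD σ C n n' j k = 0 := by
  rw [dD_apply, ← hC j k h]
  refine Finset.sum_congr rfl fun a _ => ?_
  obtain ⟨h1, h2⟩ := hσ j k h
  change (if σ j = true then n a * C a j else C a j) * n' a *
    (if σ k = true then n a * C a k else C a k) = C a j * C a k
  rw [if_neg (by rw [h1]; exact Bool.false_ne_true), if_pos h2]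
  linear_combination (C a j * C a k) * hn a

lemma db_tri (d : Fin c → T) {u : Fin c × Fin c → T} (hu : ∀ p, ¬ p.1 < p.2 → u p = 0)
    (i j : Fin c) (h : ¬ i ≤ j) : db d u i j = 0 := by
  change (if i = j then d i else u (i, j)) = 0
  rw [if_neg fun h' => h h'.le, hu _ fun h' => h (le_of_lt h')]

lemma db_unit {d : Fin c → T} {u : Fin c × Fin c → T} (hu : ∀ p, ¬ p.1 < p.2 → u p = 0)
    (hd : ∀ i, IsUnit (d i)) : IsUnit (db d u).det := by
  refine tri_det (db_tri d hu) fun i => ?_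
  change IsUnit (if i = i then d i else u (i, i))
  rw [if_pos rfl]
  exact hd i

end data

include hσ in
/-- from the data to the matrix -/
noncomputable def mkPt {T : Type} [CommRing T] (C : q → Fin c → T) (n n' : q → T) (d : Fin c → T)
    (u f : Fin c × Fin c → T) (hA : ∀ a j, ¬ A a j → C a j = 0)
    (hC : ∀ j j', S j j' → ∑ a, C a j * C a j' = 0) (hn : ∀ a, n a * n' a = 1)
    (hd : ∀ i, IsUnit (d i)) (hu : ∀ p, ¬ p.1 < p.2 → u p = 0) :
    PtW (TG A S) Finset.univ (ZI (TI q c)) T where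
  W := bigW (Matrix.diagonal n) (dC σ C n) (dD σ C n n') (db d u) (dF f)
  M := bigM (Matrix.diagonal n') (dC σ C n) (db d u)⁻¹ (dF f)
  sym := by
    apply ext3
    · exact Matrix.diagonal_transpose _
    · rfl
    · rfl
    · rfl
    · exact dD_T _ _ _
    · rfl
    · rfl
    · rfl
    · exact dF_T _
  pat := by
    intro x z hxz hΓ
    have hS : ∀ j k, S j k → dD σ C n n' j k = 0 :=
      fun j k h => dD_S hσ _ (fun a => (mul_comm _ _).trans (hn a)) hC h
    have hA' : ∀ a j, ¬ A a j → dC σ C n a j = 0 := by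
      intro a j h
      change (if σ j = true then n a * C a j else C a j) = 0
      rw [hA a j h, mul_zero, ite_self]
    rcases x with a | j | j <;> rcases z with b | k | k
    · exact Matrix.diagonal_apply_ne _ fun h => hxz (congrArg e1 h)
    · exact hA' a k hΓ
    · rfl
    · exact hA' b j hΓ
    · by_cases h : S j k
      · exact hS j k h
      · have h' : S k j := by
          by_contra h''
          exact hΓ ⟨h, h''⟩
        refine Eq.trans ?_ (hS k j h')
        exact congrFun (congrFun (dD_T (σ := σ) C n n') k) j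
    · exact db_tri d hu j k hΓ
    · rfl
    · exact db_tri d hu k j hΓ
    · exact absurd trivial hΓ
  supW := by rw [ind_univ, Matrix.one_mul]
  supM := by rw [ind_univ, Matrix.one_mul]
  mul := by
    have hb := db_unit hu hd
    rw [ind_univ]
    refine bigW_mul ?_ (Matrix.mul_nonsing_inv _ hb) ?_ rfl
    · rw [Matrix.diagonal_mul_diagonal, ← Matrix.diagonal_one]
      congr 1
      funext a
      exact hn a
    · rw [← transpose_mul, Matrix.nonsing_inv_mul _ hb, transpose_one]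
  zer := by
    rintro x z ⟨hx, hz⟩
    obtain ⟨j, rfl⟩ := mem_TI.1 hx
    obtain ⟨k, rfl⟩ := mem_TI.1 hz
    rfl

include hσ in
/-- from the data to the matrix -/
noncomputable def topB (T : Type) [CommRing T] [Algebra R T] (y : (TD R A S).pt T) :
    PtW (TG A S) Finset.univ (ZI (TI q c)) T :=
  mkPt hσ y.1.1.1.1.1 (fun a => Units.val (α := T) (y.1.1.1.2 a))
    (fun a => Units.val (α := T) (Inv.inv (α := Tˣ) (y.1.1.1.2 a)))
    (fun i => Units.val (α := T) (y.1.1.2 i)) y.1.2.1 y.2.1 y.1.1.1.1.2.1 y.1.1.1.1.2.2.2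
    (fun a => Units.mul_inv _) (fun i => Units.isUnit _) y.1.2.2

section fwd

variable {T : Type} [CommRing T] (x : PtW (TG A S) Finset.univ (ZI (TI q c)) T)

lemma x_blocks : (∃ Ni : Matrix q q T, x.W.submatrix e1 e1 * Ni = 1) ∧
    (x.W.submatrix e2 e3)ᵀ * x.M.submatrix e2 e3 = 1 ∧
    ∀ Ni : Matrix q q T, x.W.submatrix e1 e1 * Ni = 1 →
      x.W.submatrix e2 e2 = (x.W.submatrix e1 e2)ᵀ * Ni * x.W.submatrix e1 e2 := by
  refine blocks x.sym x.msym (by rw [x.mul, ind_univ]) ?_ ?_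
  · ext a j
    exact x.pat _ _ (fun h => by simp at h) fun h => h
  · ext j k
    exact x.zer _ _ ⟨mem_TI.2 ⟨j, rfl⟩, mem_TI.2 ⟨k, rfl⟩⟩

lemma x_diag : x.W.submatrix e1 e1 = Matrix.diagonal fun a => x.W (e1 a) (e1 a) := by
  ext a b
  by_cases h : a = b
  · subst h
    rw [Matrix.diagonal_apply_eq]
    rfl
  · rw [Matrix.diagonal_apply_ne _ h]
    exact x.pat _ _ (fun h' => h (Sum.inl_injective h')) fun h' => h'

lemma x_n (a : q) : IsUnit (x.W (e1 a) (e1 a)) := by
  obtain ⟨Ni, h⟩ := (x_blocks x).1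
  rw [x_diag] at h
  have h1 := congrFun (congrFun h a) a
  rw [Matrix.diagonal_mul, Matrix.one_apply_eq] at h1
  exact IsUnit.of_mul_eq_one _ h1

lemma x_tri (j k : Fin c) (h : ¬ j ≤ k) : x.W.submatrix e2 e3 j k = 0 :=
  x.pat _ _ (fun h' => by simp at h') h

lemma x_d (j : Fin c) : IsUnit (x.W (e2 j) (e3 j)) := by
  have h1 := (x_blocks x).2.1
  have h2 : IsUnit (x.W.submatrix e2 e3 : Matrix (Fin c) (Fin c) T).det := by
    rw [← Matrix.det_transpose]
    exact (Matrix.isUnit_iff_isUnit_det _).1 (IsUnit.of_mul_eq_one _ h1)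
  exact tri_unit (x_tri x) h2 j

lemma x_D : x.W.submatrix e2 e2 = (x.W.submatrix e1 e2)ᵀ *
    Matrix.diagonal (fun a => (↑(x_n x a).unit⁻¹ : T)) * x.W.submatrix e1 e2 := by
  refine (x_blocks x).2.2 _ ?_
  rw [x_diag, Matrix.diagonal_mul_diagonal, ← Matrix.diagonal_one]
  congr 1
  funext a
  exact (x_n x a).mul_val_inv

/-- the family -/
noncomputable def xC (σ : Fin c → Bool) (a : q) (j : Fin c) : T :=
  if σ j = true then (↑(x_n x a).unit⁻¹ : T) * x.W (e1 a) (e2 j) else x.W (e1 a) (e2 j)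

lemma xC_dC : dC σ (xC x σ) (fun a => x.W (e1 a) (e1 a)) = x.W.submatrix e1 e2 := by
  ext a j
  change (if σ j = true then x.W (e1 a) (e1 a) * xC x σ a j else xC x σ a j) = x.W (e1 a) (e2 j)
  rw [xC]
  split_ifs
  · rw [← mul_assoc, (x_n x a).mul_val_inv, one_mul]
  · rfl

include hσ in
lemma xC_S (j k : Fin c) (h : S j k) : ∑ a, xC x σ a j * xC x σ a k = 0 := by
  have h1 := congrFun (congrFun (x_D x) j) k
  have h2 : x.W.submatrix e2 e2 j k = 0 := by
    refine x.pat _ _ (fun h' => ?_) fun h' => h'.1 h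
    have h3 : j = k := by simpa using h'
    subst h3
    have h4 := hσ j j h
    rw [h4.1] at h4
    exact Bool.false_ne_true h4.2
  rw [h2, Matrix.mul_apply] at h1
  rw [h1]
  refine Finset.sum_congr rfl fun a _ => ?_
  rw [Matrix.mul_diagonal, Matrix.transpose_apply, Matrix.submatrix_apply, Matrix.submatrix_apply,
    xC, xC, if_pos (hσ j k h).2, if_neg (by rw [(hσ j k h).1]; exact Bool.false_ne_true)]
  ring

end fwd

include hσ in
/-- the stratum with the zero block -/
noncomputable def topIso : Iso (FW R (TG A S) Finset.univ (ZI (TI q c))) (TD R A S) where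
  fwd T _ _ x := ((((⟨xC x σ, by
      refine ⟨fun a j h => ?_, fun a j h => h.elim, fun j k h => xC_S hσ x j k h⟩
      have h1 : x.W (e1 a) (e2 j) = 0 := x.pat _ _ (fun h' => by simp at h') h
      rw [xC, h1, mul_zero, ite_self]⟩, fun a => (x_n x a).unit), fun j => (x_d x j).unit),
      ⟨fun p => if p.1 < p.2 then x.W (e2 p.1) (e3 p.2) else 0, fun p h => if_neg h⟩),
      ⟨fun p => if p.1 ≤ p.2 then x.W (e3 p.1) (e3 p.2) else 0, fun p h => if_neg h⟩)
  bwd T _ _ y := topB (R := R) hσ T y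
  bf T _ _ x := PtW.ext (by
    have hC : dC σ (xC x σ) (fun a => x.W (e1 a) (e1 a)) = x.W.submatrix e1 e2 := xC_dC x
    have hD : dD σ (xC x σ) (fun a => x.W (e1 a) (e1 a)) (fun a => (↑(x_n x a).unit⁻¹ : T)) =
        x.W.submatrix e2 e2 := by
      rw [dD, hC, x_D]
    have hb : db (fun j => x.W (e2 j) (e3 j)) (fun p => if p.1 < p.2 then x.W (e2 p.1) (e3 p.2) else 0)
        = x.W.submatrix e2 e3 := by
      ext j k
      change (if j = k then x.W (e2 j) (e3 j) else if j < k then x.W (e2 j) (e3 k) else 0) = _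
      rcases lt_trichotomy j k with h | h | h
      · rw [if_neg h.ne, if_pos h]
        rfl
      · subst h
        rw [if_pos rfl]
        rfl
      · rw [if_neg h.ne', if_neg h.not_gt]
        exact (x_tri x j k (not_le.2 h)).symm
    have hF : dF (fun p => if p.1 ≤ p.2 then x.W (e3 p.1) (e3 p.2) else 0) = x.W.submatrix e3 e3 := by
      ext j k
      change (if j ≤ k then (if j ≤ k then x.W (e3 j) (e3 k) else 0) else
        (if k ≤ j then x.W (e3 k) (e3 j) else 0)) = x.W (e3 j) (e3 k)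
      by_cases h : j ≤ k
      · rw [if_pos h, if_pos h]
      · rw [if_neg h, if_pos (not_le.1 h).le, x.W_symm]
    change bigW (Matrix.diagonal fun a => x.W (e1 a) (e1 a)) (dC σ (xC x σ) _) (dD σ (xC x σ) _ _)
      (db _ _) (dF _) = x.W
    have hW : ∀ a b, x.W a b = x.W b a := x.W_symm
    apply ext3
    · exact (x_diag x).symm
    · exact hC
    · ext a j
      exact (x.pat (e1 a) (e3 j) (fun h' => by simp at h') fun h => h).symm
    · ext j a
      exact (congrFun (congrFun hC a) j).trans (hW _ _)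
    · exact hD
    · exact hb
    · ext j a
      exact (x.pat (e3 j) (e1 a) (fun h' => by simp at h') fun h => h).symm
    · ext j k
      exact (congrFun (congrFun hb k) j).trans (hW _ _)
    · exact hF)
  fb T _ _ y := by
    refine Prod.ext (Prod.ext (Prod.ext (Prod.ext (Subtype.ext ?_) (funext fun a => Units.ext ?_))
      (funext fun j => Units.ext ?_)) (Subtype.ext ?_)) (Subtype.ext ?_)
    · funext a j
      have hn : (↑(x_n (topB (R := R) hσ T y) a).unit⁻¹ : T) =
          Units.val (α := T) (Inv.inv (α := Tˣ) (y.1.1.1.2 a)) := by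
        congr 2
        apply Units.ext
        exact Matrix.diagonal_apply_eq (fun a => Units.val (α := T) (y.1.1.1.2 a)) a
      change (if σ j = true then (↑(x_n (topB (R := R) hσ T y) a).unit⁻¹ : T) *
        (if σ j = true then Units.val (α := T) (y.1.1.1.2 a) * y.1.1.1.1.1 a j
          else y.1.1.1.1.1 a j) else
        (if σ j = true then Units.val (α := T) (y.1.1.1.2 a) * y.1.1.1.1.1 a j
          else y.1.1.1.1.1 a j)) = y.1.1.1.1.1 a j
      split_ifs
      · rw [hn, ← mul_assoc, Units.inv_mul, one_mul]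
      · rfl
    · exact Matrix.diagonal_apply_eq (fun a => Units.val (α := T) (y.1.1.1.2 a)) a
    · change (if j = j then Units.val (α := T) (y.1.1.2 j) else _) = _
      rw [if_pos rfl]
    · funext p
      change (if p.1 < p.2 then (if p.1 = p.2 then Units.val (α := T) (y.1.1.2 p.1) else
        y.1.2.1 (p.1, p.2)) else 0) = y.1.2.1 p
      by_cases h : p.1 < p.2
      · rw [if_pos h, if_neg h.ne]
      · rw [if_neg h, y.1.2.2 p h]
    · funext p
      change (if p.1 ≤ p.2 then (if p.1 ≤ p.2 then y.2.1 (p.1, p.2) else y.2.1 (p.2, p.1))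
        else 0) = y.2.1 p
      by_cases h : p.1 ≤ p.2
      · rw [if_pos h, if_pos h]
      · rw [if_neg h, y.2.2 p h]
  nat {T T'} _ _ _ _ g x := by
    refine Prod.ext (Prod.ext (Prod.ext (Prod.ext (Subtype.ext ?_) (funext fun a => Units.ext rfl))
      (funext fun j => Units.ext rfl)) (Subtype.ext ?_)) (Subtype.ext ?_)
    · funext a j
      change xC ((FW R (TG A S) Finset.univ (ZI (TI q c))).mp g x) σ a j = g (xC x σ a j)
      rw [xC, xC]
      have hn : (↑(x_n ((FW R (TG A S) Finset.univ (ZI (TI q c))).mp g x) a).unit⁻¹ : T') =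
          g (↑(x_n x a).unit⁻¹ : T) := by
        have h1 : (x_n ((FW R (TG A S) Finset.univ (ZI (TI q c))).mp g x) a).unit =
            Units.map (g : T →* T') (x_n x a).unit := Units.ext rfl
        rw [h1, ← map_inv]
        rfl
      rw [hn]
      split_ifs
      · rw [map_mul]
        rfl
      · rfl
    · funext p
      change (if p.1 < p.2 then g (x.W (e2 p.1) (e3 p.2)) else 0) =
        g (if p.1 < p.2 then x.W (e2 p.1) (e3 p.2) else 0)
      split_ifs
      · rfl
      · exact (map_zero g).symm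
    · funext p
      change (if p.1 ≤ p.2 then g (x.W (e3 p.1) (e3 p.2)) else 0) =
        g (if p.1 ≤ p.2 then x.W (e3 p.1) (e3 p.2) else 0)
      split_ifs
      · rfl
      · exact (map_zero g).symm

variable {sep : Prop} {P : Sch R → Prop}

theorem hold_top (hP : Bnd sep P) (hH : ∀ (n : ℕ) (G : SimpleGraph (Fin n)), P (kirS R G))
    {q : Type} [Fintype q] {c : ℕ} (A : q → Fin c → Prop) (S : Fin c → Fin c → Prop)
    (σ : Fin c → Bool) (hσ : ∀ j j', S j j' → σ j = false ∧ σ j' = true) :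
    Hold P (Bl R A (fun _ _ => False) S) := by
  have h1 : Hold P (FW R (TG A S) Finset.univ (ZI (TI q c))) :=
    hold_nest hP (TG_symm A S) (fun U => hold_base hP hH (TG_symm A S) U) Trk _ Finset.univ
      (TI q c) (Finset.subset_univ _) (T_nest A S) rfl
  have h2 := h1.iso (topIso (R := R) hσ)
  exact hold_ungm hP.toUni q (hold_ungm hP.toUni (Fin c) (hold_unlin hP _ _ (hold_unlin hP _ _ h2)))

end top

end Pool.Agent.H21.GH
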