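import Pool.Agent.H21.GH.Gad
import Pool.Graph.R_seed8.Q193.LT.Prime

/-!
# Graph hypersurfaces decide every property of schemes that is closed under closed-open
decompositions and affine bundles
-/

set_option autoImplicit false
set_option linter.all false

open CategoryTheory AlgebraicGeometry MvPolynomial Pool.Agent.Y116.UV Pool.Agent.Z125.UN
  Pool.Agent.Q282.UK Pool.Agent.Q193.LT
open scoped Classical

namespace Pool.Agent.H21.GH

variable {R : Type} [CommRing R] {a b c : ℕ}

/-- the bilinear forms -/
noncomputable def bsF (R : Type) [CommRing R] {a b c : ℕ} (T : Fin a → Fin b → Fin c → R)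
    (l : Fin c) : Fun (vec R (Fin a ⊕ Fin b)) where
  f A _ _ x := ∑ i, ∑ j, algebraMap R A (T i j l) * x (Sum.inl i) * x (Sum.inr j)
  nat g x := by
    simp only [map_sum, map_mul, AlgHom.commutes]

/-- the solutions of the bilinear system -/
noncomputable def bsIso (E : Fin c → Fin a → Fin b → Prop) :
    Iso (Bs R E) (van (vec R (Fin a ⊕ Fin b))
      (bsF R fun i j l => if E l i j then 1 else 0)) where
  fwd A _ _ x := ⟨Sum.elim x.1.1 x.1.2, fun l => by
    refine Eq.trans ?_ (x.2 l)
    rw [Fintype.sum_prod_type]
    change (∑ i, ∑ j, algebraMap R A (if E l i j then 1 else 0) * x.1.1 i * x.1.2 j) = _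
    refine Finset.sum_congr rfl fun i _ => Finset.sum_congr rfl fun j _ => ?_
    split_ifs
    · rw [map_one, one_mul]
    · rw [map_zero, zero_mul, zero_mul]⟩
  bwd A _ _ x := ⟨(fun i => x.1 (Sum.inl i), fun j => x.1 (Sum.inr j)), fun l => by
    refine Eq.trans ?_ (x.2 l)
    rw [Fintype.sum_prod_type]
    change _ = ∑ i, ∑ j, algebraMap R A (if E l i j then 1 else 0) * x.1 (Sum.inl i) *
      x.1 (Sum.inr j)
    refine Finset.sum_congr rfl fun i _ => Finset.sum_congr rfl fun j _ => ?_
    split_ifs
    · rw [map_one, one_mul]
    · rw [map_zero, zero_mul, zero_mul]⟩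
  bf A _ _ x := rfl
  fb A _ _ x := Subtype.ext (funext fun s => by cases s <;> rfl)
  nat g x := Subtype.ext (funext fun s => by cases s <;> rfl)

variable {sep : Prop} {P : Sch R → Prop}

theorem p_bil (hP : Bnd sep P) (hH : ∀ (n : ℕ) (G : SimpleGraph (Fin n)), P (kirS R G))
    (T : Fin a → Fin b → Fin c → R) (hT : ∀ i j l, T i j l ∈ ({0, 1} : Set R)) :
    P (bilS T) := by
  have h1 : T = fun i j l => if T i j l = 1 then 1 else 0 := by
    funext i j l
    split_ifs with h
    · exact h
    · rcases hT i j l with h' | h'
      · exact h'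
      · exact absurd h' h
  have h2 := (hold_Bs hP hH fun (l : Fin c) (i : Fin a) (j : Fin b) => T i j l = 1).iso (bsIso _)
  have h3 := h2 _ ((repVec R (Fin a ⊕ Fin b)).van (bsF R fun i j l => if T i j l = 1 then 1 else 0))
  rw [h1]
  exact h3

lemma clo_of_bnd (hP : Uni sep P) : Clo sep P where
  iso := hP.iso
  total := hP.total
  opened := hP.opened
  torus := hP.torus

/-- **Graph hypersurfaces are universal.** Let `R` be a noetherian ring all of whose elements are
quotients of integers. A property of the schemes of finite type over `R` which is closed under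
closed-open decompositions (two out of three) and affine bundles (in both directions) and which is
true for the graph hypersurfaces of all cones over graphs is true for all schemes of finite type. -/
theorem universal [IsNoetherianRing R] (hR : Frac R) (hP : Bnd sep P)
    (hH : ∀ (n : ℕ) (G : SimpleGraph (Fin n)), P (kirS R G)) (X : Sch R) (hX : FT sep X) : P X :=
  clo_universal (clo_of_bnd hP.toUni) (S := ({0, 1} : Set R)) (Or.inl rfl) (Or.inr rfl)
    (fun _ _ _ T hT => p_bil hP hH T hT) (presents_frac hR) X hX

end Pool.Agent.H21.GH
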