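import Pool.Agent.H21.GH.Top

/-!
# Invertible entries
-/

set_option autoImplicit false
set_option linter.all false

open Matrix Pool.Agent.Y116.UV Pool.Agent.Z125.UN
open scoped Classical

namespace Pool.Agent.H21.GH

variable {R : Type} [CommRing R] {Q J J' : Type} [Fintype Q]

/-- Renaming the vectors. -/
def blEquiv (e : J ≃ J') (A E : Q → J' → Prop) (S : J' → J' → Prop) :
    Iso (Bl R A E S) (Bl R (fun a j => A a (e j)) (fun a j => E a (e j)) fun j k => S (e j) (e k)) where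
  fwd T _ _ x := ⟨fun a j => x.1 a (e j), fun a j h => x.2.1 a (e j) h,
    fun a j h => x.2.2.1 a (e j) h, fun j k h => x.2.2.2 (e j) (e k) h⟩
  bwd T _ _ x := ⟨fun a j => x.1 a (e.symm j), fun a j h => x.2.1 a (e.symm j) (by simpa using h),
    fun a j h => x.2.2.1 a (e.symm j) (by simpa using h),
    fun j k h => x.2.2.2 (e.symm j) (e.symm k) (by simpa using h)⟩
  bf T _ _ x := by
    apply Subtype.ext
    funext a j
    change x.1 a (e (e.symm j)) = x.1 a j
    rw [e.apply_symm_apply]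
  fb T _ _ x := by
    apply Subtype.ext
    funext a j
    change x.1 a (e.symm (e j)) = x.1 a j
    rw [e.symm_apply_apply]
  nat g x := rfl

/-- the same conditions -/
def blCongr {A A' E E' : Q → J → Prop} {S S' : J → J → Prop} (hA : ∀ a j, A a j ↔ A' a j)
    (hE : ∀ a j, E a j ↔ E' a j) (hS : ∀ j k, S j k ↔ S' j k) :
    Iso (Bl R A E S) (Bl R A' E' S') where
  fwd T _ _ x := ⟨x.1, fun a j h => x.2.1 a j fun h' => h ((hA a j).1 h'),
    fun a j h => x.2.2.1 a j ((hE a j).2 h), fun j k h => x.2.2.2 j k ((hS j k).2 h)⟩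
  bwd T _ _ x := ⟨x.1, fun a j h => x.2.1 a j fun h' => h ((hA a j).2 h'),
    fun a j h => x.2.2.1 a j ((hE a j).1 h), fun j k h => x.2.2.2 j k ((hS j k).1 h)⟩
  bf T _ _ x := rfl
  fb T _ _ x := rfl
  nat g x := rfl

/-- the coordinate -/
def blC (A E : Q → J → Prop) (S : J → J → Prop) (a : Q) (j : J) : Fun (Bl R A E S) where
  f _ _ _ x := x.1 a j
  nat _ _ := rfl

/-- the coordinate is invertible -/
def blInv (A E : Q → J → Prop) (S : J → J → Prop) (a : Q) (j : J) :
    Iso (inv (Bl R A E S) (blC A E S a j)) (Bl R A (fun b k => (b = a ∧ k = j) ∨ E b k) S) where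
  fwd T _ _ x := ⟨x.1.1, x.1.2.1, by
    rintro b k (⟨rfl, rfl⟩ | h)
    · exact x.2
    · exact x.1.2.2.1 b k h, x.1.2.2.2⟩
  bwd T _ _ x := ⟨⟨x.1, x.2.1, fun b k h => x.2.2.1 b k (Or.inr h), x.2.2.2⟩,
    x.2.2.1 a j (Or.inl ⟨rfl, rfl⟩)⟩
  bf T _ _ x := rfl
  fb T _ _ x := rfl
  nat g x := rfl

/-- the coordinate is zero -/
def blVan (A E : Q → J → Prop) (S : J → J → Prop) (a : Q) (j : J) :
    Iso (van (Bl R A E S) fun _ : Unit => blC A E S a j)
      (Bl R (fun b k => A b k ∧ ¬ (b = a ∧ k = j)) E S) where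
  fwd T _ _ x := ⟨x.1.1, by
    intro b k h
    by_cases h' : A b k
    · have h1 : b = a ∧ k = j := by
        by_contra h2
        exact h ⟨h', h2⟩
      obtain ⟨rfl, rfl⟩ := h1
      exact x.2 ()
    · exact x.1.2.1 b k h', x.1.2.2.1, x.1.2.2.2⟩
  bwd T _ _ x := ⟨⟨x.1, fun b k h => x.2.1 b k fun h' => h h'.1, x.2.2.1, x.2.2.2⟩,
    fun _ => x.2.1 a j fun h => h.2 ⟨rfl, rfl⟩⟩
  bf T _ _ x := rfl
  fb T _ _ x := rfl
  nat g x := rfl

/-- the equations -/
def blF (A : Q → J → Prop) (p : J × J) : Fun (lin R (Q × J) fun s => A s.1 s.2) where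
  f T _ _ x := ∑ a, x.1 (a, p.1) * x.1 (a, p.2)
  nat {T T'} _ _ _ _ g x := by
    change ∑ a, g (x.1 (a, p.1)) * g (x.1 (a, p.2)) = _
    rw [map_sum]
    simp only [map_mul]

def blIso (A : Q → J → Prop) (S : J → J → Prop) :
    Iso (van (lin R (Q × J) fun s => A s.1 s.2) fun p : {p : J × J // S p.1 p.2} => blF A p.1)
      (Bl R A (fun _ _ => False) S) where
  fwd T _ _ x := ⟨fun a j => x.1.1 (a, j), fun a j h => x.1.2 (a, j) h, fun a j h => h.elim,
    fun j k h => x.2 ⟨(j, k), h⟩⟩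
  bwd T _ _ x := ⟨⟨fun s => x.1 s.1 s.2, fun s h => x.2.1 s.1 s.2 h⟩,
    fun p => x.2.2.2 p.1.1 p.1.2 p.2⟩
  bf T _ _ x := rfl
  fb T _ _ x := rfl
  nat g x := rfl

lemma isAff_bl0 [Finite J] (A : Q → J → Prop) (S : J → J → Prop) :
    IsAff (Bl R A (fun _ _ => False) S) :=
  ((isAff_lin (Q × J) fun s => A s.1 s.2).van _).iso (blIso A S)

lemma isAff_blE [Finite J] (E : Finset (Q × J)) (A : Q → J → Prop) (S : J → J → Prop) :
    IsAff (Bl R A (fun a j => (a, j) ∈ E) S) := by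
  induction E using Finset.induction_on with
  | empty =>
    exact (isAff_bl0 A S).iso (blCongr (fun _ _ => Iff.rfl) (fun a j => by simp) fun _ _ => Iff.rfl)
  | insert s E hs ih =>
    refine ((ih.inv (blC _ _ _ s.1 s.2)).iso (blInv _ _ _ s.1 s.2)).iso
      (blCongr (fun _ _ => Iff.rfl) (fun a j => ?_) fun _ _ => Iff.rfl)
    rw [Finset.mem_insert, Prod.ext_iff]

variable {sep : Prop} {P : Sch R → Prop}

theorem hold_bl0 (hP : Bnd sep P) (hH : ∀ (n : ℕ) (G : SimpleGraph (Fin n)), P (kirS R G))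
    [Fintype J] (A : Q → J → Prop) (S : J → J → Prop) (σ : J → Bool)
    (hσ : ∀ j j', S j j' → σ j = false ∧ σ j' = true) :
    Hold P (Bl R A (fun _ _ => False) S) := by
  let e := Fintype.equivFin J
  have h1 := hold_top hP hH (fun a j => A a (e.symm j)) (fun j k => S (e.symm j) (e.symm k))
    (fun j => σ (e.symm j)) fun j k h => hσ _ _ h
  refine (h1.iso (blEquiv e _ _ _)).iso (blCongr ?_ ?_ ?_)
  · intro a j
    simp
  · intro a j
    rfl
  · intro j k
    simp

theorem hold_blE (hP : Bnd sep P) (hH : ∀ (n : ℕ) (G : SimpleGraph (Fin n)), P (kirS R G))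
    [Fintype J] (S : J → J → Prop) (σ : J → Bool)
    (hσ : ∀ j j', S j j' → σ j = false ∧ σ j' = true) (E : Finset (Q × J)) :
    ∀ A : Q → J → Prop, Hold P (Bl R A (fun a j => (a, j) ∈ E) S) := by
  induction E using Finset.induction_on with
  | empty =>
    intro A
    exact (hold_bl0 hP hH A S σ hσ).iso
      (blCongr (fun _ _ => Iff.rfl) (fun a j => by simp) fun _ _ => Iff.rfl)
  | insert s E hs ih =>
    intro A
    have h1 := hold_inv hP.toUni (isAff_blE E A S) (blC _ _ _ s.1 s.2) (ih A)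
      ((ih fun b k => A b k ∧ ¬ (b = s.1 ∧ k = s.2)).iso (blVan _ _ _ s.1 s.2).symm)
    refine (h1.iso (blInv _ _ _ s.1 s.2)).iso
      (blCongr (fun _ _ => Iff.rfl) (fun a j => ?_) fun _ _ => Iff.rfl)
    rw [Finset.mem_insert, Prod.ext_iff]

/-- The property is true for all families with zeros, invertible entries and orthogonality
relations between two groups of vectors. -/
theorem hold_bl (hP : Bnd sep P) (hH : ∀ (n : ℕ) (G : SimpleGraph (Fin n)), P (kirS R G))
    [Fintype J] (A E : Q → J → Prop) (S : J → J → Prop) (σ : J → Bool)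
    (hσ : ∀ j j', S j j' → σ j = false ∧ σ j' = true) : Hold P (Bl R A E S) := by
  refine (hold_blE hP hH S σ hσ (Finset.univ.filter fun s => E s.1 s.2) A).iso
    (blCongr (fun _ _ => Iff.rfl) (fun a j => ?_) fun _ _ => Iff.rfl)
  simp

end Pool.Agent.H21.GH
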