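import Pool.Agent.H21.GH.Mot
import Pool.Graph.R_pool_sql_team_seeded_1acbe0a2.Y111.HR.Main
import Pool.Graph.R_pool_sql_team_seeded_1acbe0a2.Y116.UV.ZetaDefs

/-!
# Zeta functions and graph hypersurfaces
-/

set_option autoImplicit false
set_option linter.all false

open CategoryTheory AlgebraicGeometry MvPolynomial Pool.Agent.Y116.UV Pool.Agent.Z125.UN

namespace Pool.Agent.H21.GH

lemma mero_ne' {A : Type} [CommRing A] {m : ℕ} (f : Fin m → A) [JacobsonSpace (Spec (.of A))]
    (U : Scheme.{0}) (j : U ⟶ Spec (.of A)) (hj : IsOpenImmersion j)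
    (hr : Set.range j = {x : PrimeSpectrum A | ∃ l, f l ∉ x.asIdeal})
    (h : Mero (nrm U)) : Mero (nm (neS f)) := by
  refine Mero.equiv (Equiv.ofBijective _ (ptsNe_bijective f j hr)) ?_ h
  intro x
  exact nm_ptsNe f j hr x

/-- Meromorphic continuation is compatible with affine bundles in both directions. -/
theorem bnd_zm : Bnd False ZM where
  toUni := uni_zm
  bundle := by
    intro A _ _ hA m f U j hj hr h
    have h1 := ftz (ft_jou ℤ f)
    have h2 := ftz hA
    obtain ⟨g, hg⟩ := exists_adm (neS f)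
    obtain ⟨g', hg'⟩ := exists_adm (Set.univ : Set (Ideal (Jou f)))
    have hJ : JacobsonSpace (Spec (.of A)) := jacobson (ft_aff (A := A) False)
    have h3 : Mero (nm (neS f)) := mero_ne' f U.left j.left hj hr h
    refine zm_aff.mpr (h3.unshift hg hg' (m - 1) (co_compare _ _ (fun q => (q : ℂ) ^ (m - 1)) ?_))
    intro F _ _
    rw [card_jou]
    push_cast
    ring

theorem zm_kir (h : ∀ (n : ℕ) (G : SimpleGraph (Fin n)), ZM (kirS ℤ G)) (X : Sch ℤ)
    (hX : FT False X) : ZM X :=
  universal (Pool.Agent.Q193.LT.frac_of_surj fun n => ⟨n, Int.cast_id⟩) bnd_zm h X hX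

open Pool.Agent.Y111.HR in
/-- The formula of Bloch and Soulé is compatible with affine bundles in both directions. -/
theorem bnd_formula {sep : Prop} {T : HigherChow} (hT : IsHigherChow sep T) :
    Bnd sep (Formula T) where
  toUni := uni_formula hT
  bundle A _ _ _ m f U j hj hr h := f_jou' hT A m f U j hj hr h

open Pool.Agent.Y111.HR in
theorem formula_kir {sep : Prop} {T : HigherChow} (hT : IsHigherChow sep T)
    (h : ∀ (n : ℕ) (G : SimpleGraph (Fin n)), Formula T (kirS ℤ G)) (X : Sch ℤ)
    (hX : FT sep X) : Formula T X :=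
  universal (Pool.Agent.Q193.LT.frac_of_surj fun n => ⟨n, Int.cast_id⟩) (bnd_formula hT) h X hX

end Pool.Agent.H21.GH
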